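import Pool.Agent.Lib.MP_c984ee_an.Defs

/-!
Auxiliary definitions used in the proofs.
-/

open MeasureTheory Filter Topology Complex Set
open scoped ENNReal NNReal ContDiff

namespace Pool.Agent.Lib.MP_c984ee_an

/-- `T` is the Beurling operator on `L^p(μ)`; version for Mathlib's `Lp`. -/
def IsBeurlingOperator {p : ℝ≥0∞} [Fact (1 ≤ p)] {μ : Measure ℂ}
    (T : Lp ℂ p μ →L[ℂ] Lp ℂ p μ) : Prop :=
  ∀ (φ : ℂ → ℂ) (hφ : MemLp φ p μ), ContDiff ℝ ∞ φ → HasCompactSupport φ →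
    ∀ᵐ z ∂μ, Tendsto (fun ε : ℝ => truncBeurling φ ε z) (𝓝[>] 0) (𝓝 (T (hφ.toLp φ) z))

/-- The Wirtinger derivative `∂f/∂z`. -/
noncomputable def dz (f : ℂ → ℂ) (z : ℂ) : ℂ :=
  (fderiv ℝ f z 1 - I * fderiv ℝ f z I) / 2

/-- The Wirtinger derivative with respect to the conjugate variable. -/
noncomputable def dzbar (f : ℂ → ℂ) (z : ℂ) : ℂ :=
  (fderiv ℝ f z 1 + I * fderiv ℝ f z I) / 2

end Pool.Agent.Lib.MP_c984ee_an
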