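import Pool.Agent.Lib.MP_c984ee_an.Kernel

open MeasureTheory Filter Topology Complex Set
open scoped ENNReal NNReal ContDiff ComplexConjugate

namespace Pool.Agent.Lib.MP_c984ee_an

/-- regularised Cauchy kernel -/
noncomputable def kd (δ : ℝ) (η : ℂ) : ℂ := conj η / (η * conj η + δ ^ 2)

noncomputable def kd' (δ : ℝ) (v η : ℂ) : ℂ :=
  (conj v * δ ^ 2 - conj η ^ 2 * v) / (η * conj η + δ ^ 2) ^ 2

lemma den_eq (δ : ℝ) (η : ℂ) : η * conj η + (δ : ℂ) ^ 2 = ((‖η‖ ^ 2 + δ ^ 2 : ℝ) : ℂ) := by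
  rw [Complex.mul_conj, Complex.normSq_eq_norm_sq]
  push_cast
  ring

lemma den_ne {δ : ℝ} (hδ : 0 < δ) (η : ℂ) : η * conj η + (δ : ℂ) ^ 2 ≠ 0 := by
  rw [den_eq]
  have : (0 : ℝ) < ‖η‖ ^ 2 + δ ^ 2 := by positivity
  exact_mod_cast this.ne'

lemma hasLineDerivAt_kd {δ : ℝ} (hδ : 0 < δ) (η v : ℂ) :
    HasLineDerivAt ℝ (kd δ) (kd' δ v η) η v := by
  unfold HasLineDerivAt
  have h1 : HasDerivAt (fun t : ℝ => η + t • v) v 0 := by
    have := ((hasDerivAt_id (0 : ℝ)).smul_const v).const_add η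
    simpa using this
  have h2 : HasDerivAt (fun t : ℝ => conj (η + t • v)) (conj v) 0 := by
    have := (Complex.conjCLE.toContinuousLinearMap.hasFDerivAt (x := η + (0 : ℝ) • v)).comp_hasDerivAt
      (0 : ℝ) h1
    simpa [Function.comp_def] using this
  have h3 : HasDerivAt (fun t : ℝ => (η + t • v) * conj (η + t • v) + (δ : ℂ) ^ 2)
      (v * conj η + η * conj v) 0 := by
    have := (h1.mul h2).add_const ((δ : ℂ) ^ 2)
    simpa using this
  have h4 := h2.div h3 (by simpa using den_ne hδ η)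
  have h5 : (fun t : ℝ => kd δ (η + t • v)) = ((fun t : ℝ => conj (η + t • v)) /
      fun t : ℝ => (η + t • v) * conj (η + t • v) + (δ : ℂ) ^ 2) := by
    funext t
    rfl
  rw [h5]
  have h6 : kd' δ v η = (conj v * ((η + (0 : ℝ) • v) * conj (η + (0 : ℝ) • v) + (δ : ℂ) ^ 2) -
      conj (η + (0 : ℝ) • v) * (v * conj η + η * conj v)) /
      ((η + (0 : ℝ) • v) * conj (η + (0 : ℝ) • v) + (δ : ℂ) ^ 2) ^ 2 := by
    simp only [kd', zero_smul, add_zero]
    congr 1
    ring
  rw [h6]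
  exact h4

lemma continuous_kd {δ : ℝ} (hδ : 0 < δ) : Continuous (kd δ) := by
  unfold kd
  apply Continuous.div
  · fun_prop
  · fun_prop
  · exact den_ne hδ

lemma continuous_kd' {δ : ℝ} (hδ : 0 < δ) (v : ℂ) : Continuous (kd' δ v) := by
  unfold kd'
  apply Continuous.div
  · fun_prop
  · fun_prop
  · intro η
    exact pow_ne_zero _ (den_ne hδ η)

lemma ibp {g : ℂ → ℂ} (hg : ContDiff ℝ 1 g) (hc : HasCompactSupport g) {δ : ℝ} (hδ : 0 < δ)
    (v : ℂ) : ∫ η, g η * kd' δ v η = - ∫ η, fderiv ℝ g η v * kd δ η := by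
  have hg' : Continuous fun η => fderiv ℝ g η v :=
    (hg.continuous_fderiv (by norm_num)).clm_apply continuous_const
  have hc' : HasCompactSupport fun η => fderiv ℝ g η v := hc.fderiv_apply ℝ v
  apply integral_bilinear_hasLineDerivAt_right_eq_neg_left_of_integrable
    (B := ContinuousLinearMap.mul ℝ ℂ) (v := v)
  · exact (hg'.mul (continuous_kd hδ)).integrable_of_hasCompactSupport hc'.mul_right
  · exact (hg.continuous.mul (continuous_kd' hδ v)).integrable_of_hasCompactSupport hc.mul_right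
  · exact (hg.continuous.mul (continuous_kd hδ)).integrable_of_hasCompactSupport hc.mul_right
  · intro x _
    exact ((hg.differentiable (by norm_num)) x).hasFDerivAt.hasLineDerivAt v
  · intro x _
    exact hasLineDerivAt_kd hδ x v

lemma ibp_dzbar {g : ℂ → ℂ} (hg : ContDiff ℝ 1 g) (hc : HasCompactSupport g) {δ : ℝ}
    (hδ : 0 < δ) :
    ∫ η, dzbar g η * kd δ η = - ∫ η, g η * (δ ^ 2 / (η * conj η + δ ^ 2) ^ 2) := by
  have h1 := ibp hg hc hδ 1
  have h2 := ibp hg hc hδ I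
  have hi : ∀ v, Integrable fun η => fderiv ℝ g η v * kd δ η := fun v =>
    (((hg.continuous_fderiv (by norm_num)).clm_apply continuous_const).mul
      (continuous_kd hδ)).integrable_of_hasCompactSupport (hc.fderiv_apply ℝ v).mul_right
  have hi' : ∀ v, Integrable fun η => g η * kd' δ v η := fun v =>
    (hg.continuous.mul (continuous_kd' hδ v)).integrable_of_hasCompactSupport hc.mul_right
  have e1 : ∫ η, dzbar g η * kd δ η = (1 / 2) * ((∫ η, fderiv ℝ g η 1 * kd δ η) +
      I * ∫ η, fderiv ℝ g η I * kd δ η) := by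
    rw [← integral_const_mul, ← integral_add (hi 1) ((hi I).const_mul I), ← integral_const_mul]
    congr 1
    funext η
    unfold dzbar
    ring
  have e2 : ∫ η, g η * (δ ^ 2 / (η * conj η + δ ^ 2) ^ 2) =
      (1 / 2) * ((∫ η, g η * kd' δ 1 η) + I * ∫ η, g η * kd' δ I η) := by
    rw [← integral_const_mul, ← integral_add (hi' 1) ((hi' I).const_mul I), ← integral_const_mul]
    congr 1
    funext η
    unfold kd'
    simp only [map_one, conj_I, div_eq_mul_inv]
    generalize ((η * conj η + (δ : ℂ) ^ 2) ^ 2)⁻¹ = d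
    linear_combination ((2 : ℂ)⁻¹ * g η * d * ((δ : ℂ) ^ 2 + conj η ^ 2)) * I_sq
  rw [e1, e2, h1, h2]
  ring

lemma ibp_dz {g : ℂ → ℂ} (hg : ContDiff ℝ 1 g) (hc : HasCompactSupport g) {δ : ℝ}
    (hδ : 0 < δ) :
    ∫ η, dz g η * kd δ η = ∫ η, g η * (conj η ^ 2 / (η * conj η + δ ^ 2) ^ 2) := by
  have h1 := ibp hg hc hδ 1
  have h2 := ibp hg hc hδ I
  have hi : ∀ v, Integrable fun η => fderiv ℝ g η v * kd δ η := fun v =>
    (((hg.continuous_fderiv (by norm_num)).clm_apply continuous_const).mul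
      (continuous_kd hδ)).integrable_of_hasCompactSupport (hc.fderiv_apply ℝ v).mul_right
  have hi' : ∀ v, Integrable fun η => g η * kd' δ v η := fun v =>
    (hg.continuous.mul (continuous_kd' hδ v)).integrable_of_hasCompactSupport hc.mul_right
  have e1 : ∫ η, dz g η * kd δ η = (1 / 2) * ((∫ η, fderiv ℝ g η 1 * kd δ η) -
      I * ∫ η, fderiv ℝ g η I * kd δ η) := by
    rw [← integral_const_mul, ← integral_sub (hi 1) ((hi I).const_mul I), ← integral_const_mul]
    congr 1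
    funext η
    unfold dz
    ring
  have e2 : ∫ η, g η * (conj η ^ 2 / (η * conj η + δ ^ 2) ^ 2) =
      - ((1 / 2) * ((∫ η, g η * kd' δ 1 η) - I * ∫ η, g η * kd' δ I η)) := by
    rw [← integral_const_mul, ← integral_sub (hi' 1) ((hi' I).const_mul I), ← integral_const_mul,
      ← integral_neg]
    congr 1
    funext η
    unfold kd'
    simp only [map_one, conj_I, div_eq_mul_inv]
    generalize ((η * conj η + (δ : ℂ) ^ 2) ^ 2)⁻¹ = d
    linear_combination ((2 : ℂ)⁻¹ * g η * d * ((δ : ℂ) ^ 2 + conj η ^ 2)) * I_sq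
  rw [e1, e2, h1, h2]
  ring

end Pool.Agent.Lib.MP_c984ee_an
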