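import Mathlib

/-!
Definitions used in the statement about the Beurling operator on weighted `L^p` spaces.
-/

open MeasureTheory Filter Topology Complex Set
open scoped ENNReal NNReal ContDiff

namespace Pool.Agent.Lib.MP_c984ee_an

/-- The measure `w dA` on the complex plane, `dA` being Lebesgue area measure. -/
noncomputable def weightMeasure (w : ℂ → ℝ) : Measure ℂ :=
  volume.withDensity fun z => ENNReal.ofReal (w z)

/-- The closed square with centre `c` and side length `2 * l`, rotated by the unit complex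
number `u` (so `u = 1` gives the squares with sides parallel to the axes). -/
def square (c u : ℂ) (l : ℝ) : Set ℂ :=
  {z | |(u * (z - c)).re| ≤ l ∧ |(u * (z - c)).im| ≤ l}

/-- The Muckenhoupt class `A_p` on the complex plane: `w` is locally integrable, positive almost
everywhere, and the products of averages
`(avg_Q w) * (avg_Q w ^ (-1 / (p - 1))) ^ (p - 1)` are bounded over all squares `Q`
(of arbitrary centre, side length and orientation). -/
def IsMuckenhouptWeight (p : ℝ) (w : ℂ → ℝ) : Prop :=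
  LocallyIntegrable w ∧ (∀ᵐ z, 0 < w z) ∧
    ∃ C : ℝ≥0, ∀ (c u : ℂ) (l : ℝ), ‖u‖ = 1 → 0 < l →
      ((∫⁻ z in square c u l, ENNReal.ofReal (w z)) / volume (square c u l)) *
        ((∫⁻ z in square c u l, ENNReal.ofReal (w z ^ (-1 / (p - 1)))) /
          volume (square c u l)) ^ (p - 1) ≤ C

/-- The power weight `|z|^{-α}`. -/
noncomputable def powerWeight (α : ℝ) (z : ℂ) : ℝ := ‖z‖ ^ (-α)

/-- The truncated singular integral
`-(1/π) ∫_{|z - ζ| > ε} f(ζ) / (z - ζ)^2 dA(ζ)`. -/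
noncomputable def truncBeurling (f : ℂ → ℂ) (ε : ℝ) (z : ℂ) : ℂ :=
  -(1 / (Real.pi : ℂ)) * ∫ ζ in {ζ : ℂ | ε < ‖z - ζ‖}, f ζ / (z - ζ) ^ 2

/-- The weighted space `L^p(w)` of (classes of) complex functions `f` on the plane with
`∫ |f|^p w dA < ∞`. -/
def WLp (p : ℝ≥0∞) (w : ℂ → ℝ) : Type := Lp ℂ p (weightMeasure w)

/-- The usual `L^p(w)` norm. -/
noncomputable instance (p : ℝ≥0∞) [Fact (1 ≤ p)] (w : ℂ → ℝ) : NormedAddCommGroup (WLp p w) :=
  Lp.instNormedAddCommGroup

/-- The usual complex normed space structure of `L^p(w)`. -/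
noncomputable instance (p : ℝ≥0∞) [Fact (1 ≤ p)] (w : ℂ → ℝ) : NormedSpace ℂ (WLp p w) :=
  Lp.instNormedSpace

/-- The class in `L^p(w)` of a function `φ` with `∫ |φ|^p w dA < ∞`. -/
noncomputable def toWLp {p : ℝ≥0∞} {w : ℂ → ℝ} (φ : ℂ → ℂ) (h : MemLp φ p (weightMeasure w)) :
    WLp p w := h.toLp φ

/-- An element of `L^p(w)`, seen in Mathlib's space `Lp`. -/
def WLp.toLp {p : ℝ≥0∞} {w : ℂ → ℝ} (f : WLp p w) : Lp ℂ p (weightMeasure w) := f

/-- A representative (a function on the plane) of an element of `L^p(w)`. -/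
noncomputable def WLp.rep {p : ℝ≥0∞} {w : ℂ → ℝ} (f : WLp p w) : ℂ → ℂ := f.toLp

/-- The space of bounded linear operators on `L^p(w)`. -/
abbrev WOp (p : ℝ≥0∞) [Fact (1 ≤ p)] (w : ℂ → ℝ) : Type := WLp p w →L[ℂ] WLp p w

/-- `T` is the Beurling operator on `L^p(w)`: a bounded operator which is given on smooth
compactly supported functions `φ` by the principal value integral
`T φ (z) = -(1/π) p.v. ∫ φ(ζ) / (z - ζ)^2 dA(ζ)` for almost every `z`. -/
def IsBeurling {p : ℝ≥0∞} [Fact (1 ≤ p)] {w : ℂ → ℝ} (T : WOp p w) : Prop :=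
  ∀ (φ : ℂ → ℂ) (h : MemLp φ p (weightMeasure w)), ContDiff ℝ ∞ φ → HasCompactSupport φ →
    ∀ᵐ z ∂(weightMeasure w),
      Tendsto (fun ε : ℝ => truncBeurling φ ε z) (𝓝[>] 0) (𝓝 ((T (toWLp φ h)).rep z))

/-- `c` is an eigenvalue of the bounded operator `T` on `L^p(w)`. -/
def IsEigenvalue {p : ℝ≥0∞} [Fact (1 ≤ p)] {w : ℂ → ℝ} (T : WOp p w) (c : ℂ) : Prop :=
  ∃ f : WLp p w, f ≠ 0 ∧ T f = c • f

end Pool.Agent.Lib.MP_c984ee_an
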