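import Pool.Agent.Lib.MP_c984ee_an.Operator

open MeasureTheory Filter Topology Complex Set
open scoped ENNReal NNReal ContDiff ComplexConjugate

namespace Pool.Agent.Lib.MP_c984ee_an

/-- The strip `|Re (u z)| ≤ 2`. -/
def strip (u : ℂ) : Set ℂ := {z | |(u * z).re| ≤ 2}

lemma measurableSet_strip (u : ℂ) : MeasurableSet (strip u) := by
  apply measurableSet_le
  · fun_prop
  · fun_prop

lemma strip_one_lt_top {α : ℝ} (h1 : 1 < α) (h2 : α < 2) :
    ∫⁻ z, (strip 1).indicator (fun z => ENNReal.ofReal (pw α z)) z < ⊤ := by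
  have i1 : Integrable (fun z : ℂ => (Metric.ball (0 : ℂ) 1).indicator
      (fun z => ‖z‖ ^ (-α)) z) := by
    rw [integrable_indicator_iff Metric.isOpen_ball.measurableSet]
    exact integrableOn_norm_rpow_ball h2 1
  have i2 : Integrable (fun z : ℂ => (Icc (-2 : ℝ) 2).indicator (fun _ => (2 : ℝ) ^ α) z.re *
      (1 + ‖z.im‖) ^ (-α)) := by
    have hp : Integrable (fun q : ℝ × ℝ => (Icc (-2 : ℝ) 2).indicator (fun _ => (2 : ℝ) ^ α) q.1 *
      (1 + ‖q.2‖) ^ (-α)) ((volume : Measure ℝ).prod volume) := by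
      apply Integrable.mul_prod (f := fun x : ℝ => (Icc (-2 : ℝ) 2).indicator (fun _ => (2 : ℝ) ^ α) x)
        (g := fun y : ℝ => (1 + ‖y‖) ^ (-α))
      · rw [integrable_indicator_iff measurableSet_Icc]
        exact integrableOn_const (by simp) (by finiteness)
      · apply integrable_one_add_norm
        simpa using h1
    have := Complex.volume_preserving_equiv_real_prod.integrable_comp_emb
      (g := fun q : ℝ × ℝ => (Icc (-2 : ℝ) 2).indicator (fun _ => (2 : ℝ) ^ α) q.1 *
      (1 + ‖q.2‖) ^ (-α)) measurableEquivRealProd.measurableEmbedding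
    exact this.mpr hp
  have i3 := (i1.add i2).lintegral_lt_top
  refine lt_of_le_of_lt (lintegral_mono ?_) i3
  intro z
  by_cases hz : z ∈ strip 1
  · rw [indicator_of_mem hz]
    apply ENNReal.ofReal_le_ofReal
    have hz' : |z.re| ≤ 2 := by simpa [strip] using hz
    simp only [Pi.add_apply, pw]
    by_cases hb : z ∈ Metric.ball (0 : ℂ) 1
    · rw [indicator_of_mem hb]
      have : 0 ≤ (Icc (-2 : ℝ) 2).indicator (fun _ => (2 : ℝ) ^ α) z.re * (1 + ‖z.im‖) ^ (-α) := by
        apply mul_nonneg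
        · apply indicator_nonneg
          intro _ _
          positivity
        · positivity
      linarith
    · rw [indicator_of_notMem hb, zero_add, indicator_of_mem (show z.re ∈ Icc (-2 : ℝ) 2 from abs_le.mp hz')]
      have hn : 1 ≤ ‖z‖ := by simpa using hb
      have him : ‖z.im‖ ≤ ‖z‖ := Complex.abs_im_le_norm z
      have h3 : (1 + ‖z.im‖) / 2 ≤ ‖z‖ := by linarith
      have h4 : ‖z‖ ^ (-α) ≤ ((1 + ‖z.im‖) / 2) ^ (-α) := by
        apply Real.rpow_le_rpow_of_nonpos (by positivity) h3 (by linarith)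
      refine h4.trans (le_of_eq ?_)
      rw [Real.div_rpow (by positivity) (by norm_num), Real.rpow_neg (by norm_num : (0 : ℝ) ≤ 2),
        div_inv_eq_mul, mul_comm]
  · rw [indicator_of_notMem hz]
    exact zero_le

lemma wm_strip_lt_top {α : ℝ} (h1 : 1 < α) (h2 : α < 2) {u : ℂ} (hu : ‖u‖ = 1) :
    wm α (strip u) < ⊤ := by
  have hu0 : u ≠ 0 := by
    intro h
    rw [h] at hu
    simp at hu
  have hm : Measurable ((strip u).indicator fun z => ENNReal.ofReal (pw α z)) :=
    (measurable_pw α).ennreal_ofReal.indicator (measurableSet_strip u)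
  have e1 : wm α (strip u) = ∫⁻ z, (strip u).indicator (fun z => ENNReal.ofReal (pw α z)) z := by
    unfold wm weightMeasure
    rw [withDensity_apply _ (measurableSet_strip u), lintegral_indicator (measurableSet_strip u)]
  rw [e1, lintegral_mul_left (inv_ne_zero hu0) hm]
  have e2 : ∀ η, (strip u).indicator (fun z => ENNReal.ofReal (pw α z)) (u⁻¹ * η) =
      (strip 1).indicator (fun z => ENNReal.ofReal (pw α z)) η := by
    intro η
    have h3 : pw α (u⁻¹ * η) = pw α η := by
      unfold pw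
      rw [norm_mul, norm_inv, hu]
      simp
    have h4 : u⁻¹ * η ∈ strip u ↔ η ∈ strip 1 := by
      unfold strip
      simp only [Set.mem_ofPred_eq]
      rw [← mul_assoc, mul_inv_cancel₀ hu0]
    by_cases h : η ∈ strip 1
    · rw [indicator_of_mem h, indicator_of_mem (h4.mpr h), h3]
    · rw [indicator_of_notMem h, indicator_of_notMem (fun h' => h (h4.mp h'))]
  simp_rw [e2]
  apply ENNReal.mul_lt_top ENNReal.ofReal_lt_top
  exact strip_one_lt_top h1 h2

/-- one-dimensional bump -/
noncomputable def rb : ContDiffBump (0 : ℝ) := ⟨1, 2, by norm_num, by norm_num⟩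

lemma rb_contDiff : ContDiff ℝ ∞ rb := rb.contDiff

lemma rb_zero : rb 0 = 1 := rb.one_of_mem_closedBall (by simp [rb])

lemma rb_eq_zero {x : ℝ} (hx : 2 ≤ |x|) : rb x = 0 :=
  rb.zero_of_le_dist (by simpa [rb] using hx)

lemma deriv_rb_eq_zero {x : ℝ} (hx : 2 < |x|) : deriv rb x = 0 := by
  have : (rb : ℝ → ℝ) =ᶠ[𝓝 x] fun _ => 0 := by
    have h : ∀ᶠ w in 𝓝 x, 2 < |w| := continuous_abs.continuousAt.eventually (lt_mem_nhds hx)
    filter_upwards [h] with w hw
    exact rb_eq_zero hw.le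
  rw [this.deriv_eq]
  simp

lemma rb_continuous_deriv : Continuous (deriv rb) :=
  rb_contDiff.continuous_deriv (by simp)

lemma exists_deriv_bound : ∃ K : ℝ, 0 ≤ K ∧ ∀ x, |deriv rb x| ≤ K := by
  have hc : HasCompactSupport (deriv rb) := rb.hasCompactSupport.deriv
  obtain ⟨K, hK⟩ := rb_continuous_deriv.bounded_above_of_compact_support hc
  exact ⟨K, (norm_nonneg _).trans (hK 0), hK⟩

lemma exists_deriv_ne_zero : ∃ x, deriv rb x ≠ 0 := by
  by_contra h
  push Not at h
  have h1 : Differentiable ℝ rb := rb_contDiff.differentiable (by simp)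
  have h2 := is_const_of_deriv_eq_zero h1 h 0 3
  rw [rb_zero, rb_eq_zero (by norm_num [abs_of_pos])] at h2
  norm_num at h2

/-- The approximating test functions. -/
noncomputable def Fn (u : ℂ) (r : ℝ) (z : ℂ) : ℂ := ((rb (u * z).re * rb (r * (u * z).im) : ℝ) : ℂ)

lemma contDiff_Fn (u : ℂ) (r : ℝ) : ContDiff ℝ ∞ (Fn u r) := by
  unfold Fn
  apply ofRealCLM.contDiff.comp
  have h1 : ContDiff ℝ ∞ (fun z : ℂ => (u * z).re) :=
    reCLM.contDiff.comp (contDiff_const.mul contDiff_id)
  have h2 : ContDiff ℝ ∞ (fun z : ℂ => r * (u * z).im) :=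
    contDiff_const.mul (imCLM.contDiff.comp (contDiff_const.mul contDiff_id))
  exact (rb_contDiff.comp h1).mul (rb_contDiff.comp h2)

lemma hasCompactSupport_Fn {u : ℂ} (hu : ‖u‖ = 1) {r : ℝ} (hr : 0 < r) :
    HasCompactSupport (Fn u r) := by
  apply HasCompactSupport.intro (isCompact_closedBall (0 : ℂ) (2 + 2 / r))
  intro z hz
  unfold Fn
  by_cases h1 : 2 ≤ |(u * z).re|
  · rw [rb_eq_zero h1]; simp
  · push Not at h1
    have h2 : 2 ≤ |r * (u * z).im| := by
      by_contra h2
      push Not at h2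
      rw [abs_mul, abs_of_pos hr] at h2
      apply hz
      rw [mem_closedBall_zero_iff]
      have h3 : ‖z‖ = ‖u * z‖ := by rw [norm_mul, hu, one_mul]
      have h4 : |(u * z).im| < 2 / r := by
        rw [lt_div_iff₀ hr]
        linarith
      rw [h3]
      refine (Complex.norm_le_abs_re_add_abs_im _).trans ?_
      linarith
    rw [rb_eq_zero h2]; simp

lemma fderiv_Fn (u : ℂ) (r : ℝ) (z v : ℂ) :
    fderiv ℝ (Fn u r) z v = ((deriv rb (u * z).re * (u * v).re * rb (r * (u * z).im) +
      rb (u * z).re * (deriv rb (r * (u * z).im) * (r * (u * v).im)) : ℝ) : ℂ) := by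
  have hd : ∀ x, HasDerivAt rb (deriv rb x) x := fun x =>
    ((rb_contDiff.differentiable (by simp)) x).hasDerivAt
  have hl : HasDerivAt (fun t : ℝ => u * (z + t • v)) (u * v) 0 := by
    have h1 : HasDerivAt (fun t : ℝ => z + t • v) v 0 := by
      have := ((hasDerivAt_id (0 : ℝ)).smul_const v).const_add z
      simpa using this
    exact h1.const_mul u
  have h1 : HasDerivAt (fun t : ℝ => (u * (z + t • v)).re) (u * v).re 0 := by
    have := (reCLM.hasFDerivAt (x := u * (z + (0 : ℝ) • v))).comp_hasDerivAt (0 : ℝ) hl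
    simpa [Function.comp_def] using this
  have h2 : HasDerivAt (fun t : ℝ => r * (u * (z + t • v)).im) (r * (u * v).im) 0 := by
    have := (imCLM.hasFDerivAt (x := u * (z + (0 : ℝ) • v))).comp_hasDerivAt (0 : ℝ) hl
    simpa [Function.comp_def] using this.const_mul r
  have e0 : z + (0 : ℝ) • v = z := by simp
  have h3 : HasDerivAt (fun t : ℝ => rb (u * (z + t • v)).re) (deriv rb (u * z).re * (u * v).re) 0 := by
    have := (hd (u * (z + (0 : ℝ) • v)).re).comp (0 : ℝ) h1
    rw [e0] at this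
    exact this
  have h4 : HasDerivAt (fun t : ℝ => rb (r * (u * (z + t • v)).im))
      (deriv rb (r * (u * z).im) * (r * (u * v).im)) 0 := by
    have := (hd (r * (u * (z + (0 : ℝ) • v)).im)).comp (0 : ℝ) h2
    rw [e0] at this
    exact this
  have h5 := (h3.mul h4).ofReal_comp
  have h6 : HasLineDerivAt ℝ (Fn u r) (fderiv ℝ (Fn u r) z v) z v :=
    (((contDiff_Fn u r).differentiable (by simp)) z).hasFDerivAt.hasLineDerivAt v
  have h7 := HasDerivAt.unique h6 h5
  rw [h7, e0]

lemma dzbar_Fn (u : ℂ) (r : ℝ) (z : ℂ) :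
    dzbar (Fn u r) z = conj u / 2 * (((deriv rb (u * z).re * rb (r * (u * z).im) : ℝ) : ℂ) +
      I * ((r * (rb (u * z).re * deriv rb (r * (u * z).im)) : ℝ) : ℂ)) := by
  unfold dzbar
  rw [fderiv_Fn, fderiv_Fn]
  have e1 : (u * 1).re = u.re := by simp
  have e2 : (u * 1).im = u.im := by simp
  have e3 : (u * I).re = - u.im := by simp
  have e4 : (u * I).im = u.re := by simp
  have e5 : conj u = u.re - I * u.im := by
    apply Complex.ext <;> simp
  rw [e1, e2, e3, e4, e5]
  generalize deriv rb (u * z).re = A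
  generalize rb (r * (u * z).im) = B
  generalize rb (u * z).re = C
  generalize deriv rb (r * (u * z).im) = D
  push_cast
  linear_combination ((1 / 2 : ℂ) * u.im * r * C * D) * I_sq

lemma dz_Fn (u : ℂ) (r : ℝ) (z : ℂ) :
    dz (Fn u r) z = u / 2 * (((deriv rb (u * z).re * rb (r * (u * z).im) : ℝ) : ℂ) -
      I * ((r * (rb (u * z).re * deriv rb (r * (u * z).im)) : ℝ) : ℂ)) := by
  unfold dz
  rw [fderiv_Fn, fderiv_Fn]
  have e1 : (u * 1).re = u.re := by simp
  have e2 : (u * 1).im = u.im := by simp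
  have e3 : (u * I).re = - u.im := by simp
  have e4 : (u * I).im = u.re := by simp
  have e5 : u = u.re + I * u.im := by
    apply Complex.ext <;> simp
  rw [e1, e2, e3, e4]
  generalize deriv rb (u * z).re = A
  generalize rb (r * (u * z).im) = B
  generalize rb (u * z).re = C
  generalize deriv rb (r * (u * z).im) = D
  push_cast
  linear_combination ((1 / 2 : ℂ) * u.im * r * C * D) * I_sq -
    ((1 / 2 : ℂ) * (A * B - I * r * C * D)) * e5

/-- The eigenfunction `Φ' (Re (u z))`. -/
noncomputable def ef (u : ℂ) (z : ℂ) : ℂ := ((deriv rb (u * z).re : ℝ) : ℂ)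

lemma continuous_ef (u : ℂ) : Continuous (ef u) := by
  unfold ef
  exact continuous_ofReal.comp (rb_continuous_deriv.comp (by fun_prop))

lemma memLp_of_bound_strip {α : ℝ} (h1 : 1 < α) (h2 : α < 2) {u : ℂ} (hu : ‖u‖ = 1) {g : ℂ → ℂ}
    (hg : Measurable g) (K : ℝ) (hK : ∀ z, ‖g z‖ ≤ K) (hz : ∀ z, z ∉ strip u → g z = 0) :
    MemLp g 2 (wm α) := by
  have h3 : MemLp ((strip u).indicator fun _ => (K : ℝ)) 2 (wm α) :=
    memLp_indicator_const 2 (measurableSet_strip u) K (Or.inr (wm_strip_lt_top h1 h2 hu).ne)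
  refine h3.mono' hg.aestronglyMeasurable ?_
  filter_upwards with z
  by_cases h : z ∈ strip u
  · rw [indicator_of_mem h]
    exact hK z
  · rw [indicator_of_notMem h, hz z h, norm_zero]

lemma ef_eq_zero {u z : ℂ} (hz : z ∉ strip u) : ef u z = 0 := by
  unfold ef
  rw [deriv_rb_eq_zero (by simpa [strip] using hz)]
  simp

lemma memLp_ef {α : ℝ} (h1 : 1 < α) (h2 : α < 2) {u : ℂ} (hu : ‖u‖ = 1) :
    MemLp (ef u) 2 (wm α) := by
  obtain ⟨K, hK0, hK⟩ := exists_deriv_bound
  apply memLp_of_bound_strip h1 h2 hu (continuous_ef u).measurable K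
  · intro z
    unfold ef
    rw [Complex.norm_real]
    exact hK _
  · intro z hz
    exact ef_eq_zero hz

/-- General convergence lemma in `L^2(w)`: bounded functions supported in a strip. -/
lemma tendsto_toLp_strip {α : ℝ} (h1 : 1 < α) (h2 : α < 2) {u : ℂ} (hu : ‖u‖ = 1)
    {g : ℕ → ℂ → ℂ} {g' : ℂ → ℂ} (hg : ∀ n, MemLp (g n) 2 (wm α)) (hg' : MemLp g' 2 (wm α))
    (hgm : ∀ n, Measurable (g n)) (hgm' : Measurable g') (K : ℝ)
    (hK : ∀ n z, ‖g n z - g' z‖ ≤ K) (hz : ∀ n z, z ∉ strip u → g n z - g' z = 0)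
    (hlim : ∀ z, Tendsto (fun n => g n z) atTop (𝓝 (g' z))) :
    Tendsto (fun n => (hg n).toLp (g n)) atTop (𝓝 (hg'.toLp g')) := by
  rw [Lp.tendsto_Lp_iff_tendsto_eLpNorm'' g hg g' hg']
  have h3 : ∀ n, eLpNorm (g n - g') 2 (wm α) = (∫⁻ z, ‖g n z - g' z‖ₑ ^ 2 ∂(wm α)) ^ ((1 : ℝ) / 2) :=
    fun n => eLpNorm_two_sq _
  simp_rw [h3]
  have h4 : Tendsto (fun n => ∫⁻ z, ‖g n z - g' z‖ₑ ^ 2 ∂(wm α)) atTop
      (𝓝 (∫⁻ z, 0 ∂(wm α))) := by
    apply tendsto_lintegral_of_dominated_convergence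
      ((strip u).indicator fun _ => ENNReal.ofReal (K ^ 2))
    · intro n
      exact ((hgm n).sub hgm').enorm.pow_const 2
    · intro n
      filter_upwards with z
      by_cases h : z ∈ strip u
      · rw [indicator_of_mem h, ← ofReal_norm, ← ENNReal.ofReal_pow (norm_nonneg _)]
        apply ENNReal.ofReal_le_ofReal
        have := hK n z
        gcongr
      · rw [indicator_of_notMem h, hz n z h]
        simp
    · rw [lintegral_indicator_const (measurableSet_strip u)]
      exact (ENNReal.mul_lt_top ENNReal.ofReal_lt_top (wm_strip_lt_top h1 h2 hu)).ne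
    · filter_upwards with z
      have h5 : Tendsto (fun n => g n z - g' z) atTop (𝓝 0) := by
        have := (hlim z).sub_const (g' z)
        simpa using this
      have h6 := ((ENNReal.continuous_pow 2).tendsto _).comp h5.enorm
      simpa [Function.comp_def] using h6
  rw [lintegral_zero] at h4
  have h7 := h4.ennrpow_const ((1 : ℝ) / 2)
  rw [ENNReal.zero_rpow_of_pos (by norm_num)] at h7
  exact h7

end Pool.Agent.Lib.MP_c984ee_an
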