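import Pool.Agent.Lib.MP_c984ee_an.Basic

open MeasureTheory Filter Topology Complex Set
open scoped ENNReal NNReal ContDiff

namespace Pool.Agent.Lib.MP_c984ee_an

lemma integral_eq_zero_of_rotate (f : ℂ → ℂ) (h : ∀ z, f (I * z) = - f z) :
    ∫ z, f z = 0 := by
  have hI : ‖(I : ℂ)‖ = 1 := by simp
  let u : Circle := ⟨I, by simp [Submonoid.unitSphere]⟩
  have hmp := (rotation u).measurePreserving
  have h1 := hmp.integral_comp (rotation u).toHomeomorph.measurableEmbedding f
  have h2 : (∫ z, f ((rotation u) z)) = ∫ z, - f z := by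
    apply integral_congr_ae
    filter_upwards with z
    have : (rotation u) z = I * z := rotation_apply u z
    rw [this, h]
  rw [h2, integral_neg] at h1
  have h3 : (2 : ℂ) * ∫ z, f z = 0 := by linear_combination -h1
  simpa using h3

lemma integrableOn_norm_rpow_ball {a : ℝ} (ha : a < 2) (r : ℝ) :
    IntegrableOn (fun z : ℂ => ‖z‖ ^ (-a)) (Metric.ball 0 r) := by
  rw [integrableOn_fun_norm_addHaar (μ := (volume : Measure ℂ)) (f := fun y => y ^ (-a))]
  rcases le_or_gt r 0 with hr | hr
  · rw [Ioo_eq_empty (by linarith)]; simp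
  have : (fun y : ℝ => y ^ (Module.finrank ℝ ℂ - 1) • y ^ (-a)) =ᵐ[volume.restrict (Ioo 0 r)]
      fun y => y ^ (1 - a) := by
    filter_upwards [ae_restrict_mem measurableSet_Ioo] with y hy
    have h2 : Module.finrank ℝ ℂ - 1 = 1 := by simp [Complex.finrank_real_complex]
    rw [h2, pow_one, smul_eq_mul]
    nth_rewrite 1 [← Real.rpow_one y]
    rw [← Real.rpow_add hy.1]
    ring_nf
  rw [IntegrableOn, integrable_congr this, ← IntegrableOn,
    ← integrableOn_Ioc_iff_integrableOn_Ioo, ← intervalIntegrable_iff_integrableOn_Ioc_of_le hr.le]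
  exact intervalIntegral.intervalIntegrable_rpow' (by linarith)

lemma integrableOn_norm_rpow_compl_ball {a : ℝ} (ha : 2 < a) {r : ℝ} (hr : 0 < r) :
    IntegrableOn (fun z : ℂ => ‖z‖ ^ (-a)) (Metric.ball 0 r)ᶜ := by
  have h0 : IntegrableOn (fun y : ℝ => y ^ (1 - a)) (Ioi r) :=
    integrableOn_Ioi_rpow_of_lt (by linarith) hr
  have h1 : Integrable (fun z : ℂ => (Ici r).indicator (fun y : ℝ => y ^ (-a)) ‖z‖) := by
    rw [integrable_fun_norm_addHaar (μ := (volume : Measure ℂ))
      (f := (Ici r).indicator (fun y : ℝ => y ^ (-a)))]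
    have h2 : IntegrableOn ((Ici r).indicator (fun y : ℝ => y ^ (1 - a))) (Ioi 0) := by
      apply Integrable.integrableOn
      rw [integrable_indicator_iff measurableSet_Ici]
      rwa [integrableOn_Ici_iff_integrableOn_Ioi]
    apply h2.congr
    filter_upwards [ae_restrict_mem measurableSet_Ioi] with y hy
    have h2 : Module.finrank ℝ ℂ - 1 = 1 := by simp [Complex.finrank_real_complex]
    rw [h2, pow_one, smul_eq_mul]
    by_cases hyr : y ∈ Ici r
    · rw [indicator_of_mem hyr, indicator_of_mem hyr]
      nth_rewrite 2 [← Real.rpow_one y]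
      rw [← Real.rpow_add hy]
      ring_nf
    · rw [indicator_of_notMem hyr, indicator_of_notMem hyr, mul_zero]
  rw [← integrable_indicator_iff Metric.isOpen_ball.measurableSet.compl]
  apply h1.congr
  filter_upwards with z
  by_cases hz : r ≤ ‖z‖
  · rw [indicator_of_mem (show ‖z‖ ∈ Ici r from hz), indicator_of_mem (by simpa using hz)]
  · rw [indicator_of_notMem (show ‖z‖ ∉ Ici r from hz), indicator_of_notMem (by simpa using hz)]

/-- The regularised difference `g - g(0) 1_{|η|<1}`. -/
noncomputable def cut (g : ℂ → ℂ) (η : ℂ) : ℂ :=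
  g η - (Metric.ball (0 : ℂ) 1).indicator (fun _ => g 0) η

/-- The principal value `p.v. ∫ g(η) / η^2 dA(η)`, as an absolutely convergent integral. -/
noncomputable def pv (g : ℂ → ℂ) : ℂ := ∫ η, cut g η / η ^ 2

lemma ae_ne_zero : ∀ᵐ η : ℂ, η ≠ 0 := by
  have : volume ({0} : Set ℂ) = 0 := by simp
  rw [ae_iff]
  simpa using this

lemma measurable_cut {g : ℂ → ℂ} (hg : Continuous g) : Measurable (cut g) := by
  unfold cut
  exact hg.measurable.sub (measurable_const.indicator Metric.isOpen_ball.measurableSet)

lemma integrable_norm_cut_div {g : ℂ → ℂ} (hg : Continuous g) (hc : HasCompactSupport g)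
    {L : ℝ≥0} (hL : LipschitzWith L g) :
    Integrable (fun η => ‖cut g η‖ / ‖η‖ ^ 2) := by
  have hb : Integrable (fun η : ℂ => (Metric.ball (0 : ℂ) 1).indicator
      (fun η => (L : ℝ) * ‖η‖ ^ (-(1 : ℝ))) η + ‖g η‖) := by
    apply Integrable.add
    · rw [integrable_indicator_iff Metric.isOpen_ball.measurableSet]
      exact (integrableOn_norm_rpow_ball (by norm_num) 1).const_mul _
    · exact (hg.integrable_of_hasCompactSupport hc).norm
  apply hb.mono'
  · apply Measurable.aestronglyMeasurable
    exact (measurable_cut hg).norm.div (by fun_prop)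
  · filter_upwards [ae_ne_zero] with η hη
    have hη' : 0 < ‖η‖ := by simpa using hη
    rw [Real.norm_of_nonneg (by positivity)]
    by_cases h1 : η ∈ Metric.ball (0 : ℂ) 1
    · rw [indicator_of_mem h1]
      have h2 : ‖cut g η‖ ≤ L * ‖η‖ := by
        unfold cut
        rw [indicator_of_mem h1]
        simpa [dist_eq_norm] using hL.dist_le_mul η 0
      have h3 : ‖cut g η‖ / ‖η‖ ^ 2 ≤ L * ‖η‖ ^ (-(1 : ℝ)) := by
        rw [Real.rpow_neg_one, div_le_iff₀ (by positivity)]
        calc ‖cut g η‖ ≤ L * ‖η‖ := h2
          _ = L * ‖η‖⁻¹ * ‖η‖ ^ 2 := by field_simp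
      have := norm_nonneg (g η)
      linarith
    · rw [indicator_of_notMem h1, zero_add]
      have h2 : cut g η = g η := by
        unfold cut
        rw [indicator_of_notMem h1, sub_zero]
      rw [h2]
      have h3 : 1 ≤ ‖η‖ := by simpa using h1
      apply div_le_self (norm_nonneg _)
      nlinarith

lemma integrable_cut_div {g : ℂ → ℂ} (hg : Continuous g) (hc : HasCompactSupport g)
    {L : ℝ≥0} (hL : LipschitzWith L g) :
    Integrable (fun η => cut g η / η ^ 2) := by
  apply (integrable_norm_cut_div hg hc hL).mono'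
  · apply Measurable.aestronglyMeasurable
    exact (measurable_cut hg).div (by fun_prop)
  · filter_upwards with η
    rw [norm_div, norm_pow]

lemma tendsto_pv {g : ℂ → ℂ} (hg : Continuous g) (hc : HasCompactSupport g)
    {L : ℝ≥0} (hL : LipschitzWith L g) :
    Tendsto (fun ε : ℝ => ∫ η in {η : ℂ | ε < ‖η‖}, g η / η ^ 2) (𝓝[>] 0) (𝓝 (pv g)) := by
  have hmeas : ∀ ε : ℝ, MeasurableSet {η : ℂ | ε < ‖η‖} := fun ε =>
    measurableSet_lt measurable_const measurable_norm
  have key : ∀ ε : ℝ, 0 < ε → (∫ η in {η : ℂ | ε < ‖η‖}, g η / η ^ 2) =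
      ∫ η, ({η : ℂ | ε < ‖η‖}).indicator (fun η => cut g η / η ^ 2) η := by
    intro ε hε
    rw [← integral_indicator (hmeas ε)]
    have h1 : (∫ η, ({η : ℂ | ε < ‖η‖}).indicator
        (fun η => (Metric.ball (0 : ℂ) 1).indicator (fun _ => g 0) η / η ^ 2) η) = 0 := by
      apply integral_eq_zero_of_rotate
      intro z
      have hz : ‖I * z‖ = ‖z‖ := by simp
      by_cases h : z ∈ {η : ℂ | ε < ‖η‖}
      · have h' : I * z ∈ {η : ℂ | ε < ‖η‖} := by simpa [hz] using h
        rw [indicator_of_mem h, indicator_of_mem h']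
        by_cases h2 : z ∈ Metric.ball (0 : ℂ) 1
        · have h2' : I * z ∈ Metric.ball (0 : ℂ) 1 := by simpa [hz] using h2
          rw [indicator_of_mem h2, indicator_of_mem h2', mul_pow, I_sq]
          rw [neg_one_mul, div_neg]
        · have h2' : I * z ∉ Metric.ball (0 : ℂ) 1 := by simpa [hz] using h2
          rw [indicator_of_notMem h2, indicator_of_notMem h2']
          simp
      · have h' : I * z ∉ {η : ℂ | ε < ‖η‖} := by simpa [hz] using h
        rw [indicator_of_notMem h, indicator_of_notMem h', neg_zero]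
    have hi1 : Integrable (fun η => ({η : ℂ | ε < ‖η‖}).indicator (fun η => cut g η / η ^ 2) η) :=
      (integrable_cut_div hg hc hL).indicator (hmeas ε)
    have hi2 : Integrable (fun η => ({η : ℂ | ε < ‖η‖}).indicator
        (fun η => (Metric.ball (0 : ℂ) 1).indicator (fun _ => g 0) η / η ^ 2) η) := by
      have hb : Integrable (fun η : ℂ => (Metric.ball (0 : ℂ) 1).indicator
          (fun _ => ‖g 0‖ / ε ^ 2) η) := by
        rw [integrable_indicator_iff Metric.isOpen_ball.measurableSet]
        apply integrableOn_const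
        · rw [Complex.volume_ball]; finiteness
        · finiteness
      apply hb.mono'
      · apply Measurable.aestronglyMeasurable
        apply Measurable.indicator _ (hmeas ε)
        exact (measurable_const.indicator Metric.isOpen_ball.measurableSet).div (by fun_prop)
      · filter_upwards with η
        by_cases h : η ∈ {η : ℂ | ε < ‖η‖}
        · rw [indicator_of_mem h]
          have h' : ε < ‖η‖ := h
          by_cases h2 : η ∈ Metric.ball (0 : ℂ) 1
          · rw [indicator_of_mem h2, indicator_of_mem h2, norm_div, norm_pow]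
            gcongr
          · rw [indicator_of_notMem h2, indicator_of_notMem h2]
            simp
        · rw [indicator_of_notMem h, norm_zero]
          apply indicator_nonneg
          intro _ _
          positivity
    have h3 : (fun η => ({η : ℂ | ε < ‖η‖}).indicator (fun η => g η / η ^ 2) η) =
        fun η => ({η : ℂ | ε < ‖η‖}).indicator (fun η => cut g η / η ^ 2) η +
          ({η : ℂ | ε < ‖η‖}).indicator
        (fun η => (Metric.ball (0 : ℂ) 1).indicator (fun _ => g 0) η / η ^ 2) η := by
      funext η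
      by_cases h : η ∈ {η : ℂ | ε < ‖η‖}
      · simp only [indicator_of_mem h]
        unfold cut
        ring
      · simp only [indicator_of_notMem h, add_zero]
    rw [h3, integral_add hi1 hi2, h1, add_zero]
  have h4 : Tendsto (fun ε : ℝ => ∫ η, ({η : ℂ | ε < ‖η‖}).indicator
      (fun η => cut g η / η ^ 2) η) (𝓝[>] 0) (𝓝 (∫ η, cut g η / η ^ 2)) := by
    apply tendsto_integral_filter_of_dominated_convergence (fun η => ‖cut g η‖ / ‖η‖ ^ 2)
    · filter_upwards with ε
      apply Measurable.aestronglyMeasurable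
      apply Measurable.indicator _ (hmeas ε)
      exact (measurable_cut hg).div (by fun_prop)
    · filter_upwards with ε
      filter_upwards with η
      by_cases h : η ∈ {η : ℂ | ε < ‖η‖}
      · rw [indicator_of_mem h, norm_div, norm_pow]
      · rw [indicator_of_notMem h, norm_zero]
        positivity
    · exact integrable_norm_cut_div hg hc hL
    · filter_upwards [ae_ne_zero] with η hη
      have hη' : 0 < ‖η‖ := by simpa using hη
      apply tendsto_const_nhds.congr'
      have : ∀ᶠ ε : ℝ in 𝓝[>] 0, ε < ‖η‖ := by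
        have := (eventually_lt_nhds hη')
        exact this.filter_mono nhdsWithin_le_nhds
      filter_upwards [this] with ε hε
      rw [indicator_of_mem (show η ∈ {η : ℂ | ε < ‖η‖} from hε)]
  apply h4.congr'
  filter_upwards [self_mem_nhdsWithin] with ε hε
  rw [key ε hε]

end Pool.Agent.Lib.MP_c984ee_an
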