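import Pool.Agent.Lib.MP_c984ee_an.Transform

open MeasureTheory Filter Topology Complex Set
open scoped ENNReal NNReal ContDiff ComplexConjugate

namespace Pool.Agent.Lib.MP_c984ee_an

lemma integral_cross {φ : ℂ → ℂ} (hf : ContDiff ℝ ∞ φ) (hc : HasCompactSupport φ) (v w : ℂ) :
    ∫ z, conj (fderiv ℝ φ z v) * fderiv ℝ φ z w =
      - ∫ z, conj (fderiv ℝ (fderiv ℝ φ) z w v) * φ z := by
  have hd : ContDiff ℝ ∞ (fderiv ℝ φ) := hf.fderiv_right (by exact_mod_cast le_rfl)
  have hd2 : ContDiff ℝ ∞ (fderiv ℝ (fderiv ℝ φ)) := hd.fderiv_right (by exact_mod_cast le_rfl)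
  have hfd : ∀ z, HasFDerivAt (fun z => conj (fderiv ℝ φ z v))
      (Complex.conjCLE.toContinuousLinearMap ∘SL
        ((fderiv ℝ (fderiv ℝ φ) z).flip v)) z := by
    intro z
    have h1 : HasFDerivAt (fderiv ℝ φ) (fderiv ℝ (fderiv ℝ φ) z) z :=
      ((hd.differentiable (by simp)) z).hasFDerivAt
    have h2 := h1.clm_apply (hasFDerivAt_const v z)
    have h3 := (Complex.conjCLE.toContinuousLinearMap.hasFDerivAt
      (x := fderiv ℝ φ z v)).comp z h2
    have h4 : fderiv ℝ φ z ∘SL (0 : ℂ →L[ℝ] ℂ) + (fderiv ℝ (fderiv ℝ φ) z).flip v =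
        (fderiv ℝ (fderiv ℝ φ) z).flip v := by simp
    rw [h4] at h3
    exact h3
  have key := integral_mul_fderiv_eq_neg_fderiv_mul_of_integrable (μ := (volume : Measure ℂ))
    (f := fun z => conj (fderiv ℝ φ z v)) (g := φ) (v := w) ?_ ?_ ?_ ?_ ?_
  · rw [key]
    congr 1
    congr 1
    funext z
    rw [(hfd z).fderiv]
    simp
  · have : (fun x => fderiv ℝ (fun z => conj (fderiv ℝ φ z v)) x w * φ x) =
        fun x => conj (fderiv ℝ (fderiv ℝ φ) x w v) * φ x := by
      funext z
      rw [(hfd z).fderiv]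
      simp
    rw [this]
    apply Continuous.integrable_of_hasCompactSupport
    · apply Continuous.mul
      · apply Complex.continuous_conj.comp
        exact (hd2.continuous.clm_apply continuous_const).clm_apply continuous_const
      · exact hf.continuous
    · exact hc.mul_left
  · apply Continuous.integrable_of_hasCompactSupport
    · apply Continuous.mul
      · apply Complex.continuous_conj.comp
        exact hd.continuous.clm_apply continuous_const
      · exact hd.continuous.clm_apply continuous_const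
    · exact (hc.fderiv_apply ℝ w).mul_left
  · apply Continuous.integrable_of_hasCompactSupport
    · apply Continuous.mul
      · apply Complex.continuous_conj.comp
        exact hd.continuous.clm_apply continuous_const
      · exact hf.continuous
    · exact hc.mul_left
  · intro x _
    exact (hfd x).differentiableAt
  · intro x _
    exact (hf.differentiable (by simp)) x

lemma energy_eq_real {φ : ℂ → ℂ} (hf : ContDiff ℝ ∞ φ) (hc : HasCompactSupport φ) :
    ∫ z, ‖dz φ z‖ ^ 2 = ∫ z, ‖dzbar φ z‖ ^ 2 := by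
  have hf1 : ContDiff ℝ 1 φ := hf.of_le (by exact_mod_cast le_top)
  have hd : ContDiff ℝ ∞ (fderiv ℝ φ) := hf.fderiv_right (by exact_mod_cast le_rfl)
  have i1 : Integrable (fun z => ‖dz φ z‖ ^ 2) := by
    apply Continuous.integrable_of_hasCompactSupport
    · exact (continuous_dz hf1).norm.pow 2
    · exact (hasCompactSupport_dz hc).comp_left (g := fun w : ℂ => ‖w‖ ^ 2) (by simp)
  have i2 : Integrable (fun z => ‖dzbar φ z‖ ^ 2) := by
    apply Continuous.integrable_of_hasCompactSupport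
    · exact (continuous_dzbar hf1).norm.pow 2
    · exact (hasCompactSupport_dzbar hc).comp_left (g := fun w : ℂ => ‖w‖ ^ 2) (by simp)
  have hint : ∀ v w, Integrable fun z => conj (fderiv ℝ φ z v) * fderiv ℝ φ z w := by
    intro v w
    apply Continuous.integrable_of_hasCompactSupport
    · apply Continuous.mul
      · apply Complex.continuous_conj.comp
        exact hd.continuous.clm_apply continuous_const
      · exact hd.continuous.clm_apply continuous_const
    · exact (hc.fderiv_apply ℝ w).mul_left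
  have hcross : (∫ z, conj (fderiv ℝ φ z 1) * fderiv ℝ φ z I) =
      ∫ z, conj (fderiv ℝ φ z I) * fderiv ℝ φ z 1 := by
    rw [integral_cross hf hc, integral_cross hf hc]
    congr 1
    congr 1
    funext z
    have hsymm : IsSymmSndFDerivAt ℝ φ z :=
      (hf.contDiffAt (x := z)).isSymmSndFDerivAt (by
        rw [minSmoothness_of_isRCLikeNormedField]
        exact WithTop.coe_le_coe.2 (le_top : (2 : ℕ∞) ≤ ⊤))
    rw [hsymm.eq]
  have h1 : (∫ z, (((‖dz φ z‖ ^ 2 - ‖dzbar φ z‖ ^ 2 : ℝ)) : ℂ)) = 0 := by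
    have h2 : ∀ z, (((‖dz φ z‖ ^ 2 - ‖dzbar φ z‖ ^ 2 : ℝ)) : ℂ) =
        (I / 2) * (conj (fderiv ℝ φ z I) * fderiv ℝ φ z 1 -
          conj (fderiv ℝ φ z 1) * fderiv ℝ φ z I) := by
      intro z
      have e1 : ((‖dz φ z‖ ^ 2 : ℝ) : ℂ) = dz φ z * conj (dz φ z) := by
        rw [Complex.mul_conj, Complex.normSq_eq_norm_sq]
      have e2 : ((‖dzbar φ z‖ ^ 2 : ℝ) : ℂ) = dzbar φ z * conj (dzbar φ z) := by
        rw [Complex.mul_conj, Complex.normSq_eq_norm_sq]
      rw [ofReal_sub, e1, e2]
      unfold dz dzbar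
      simp only [map_div₀, map_sub, map_add, map_mul, conj_I, map_ofNat]
      ring
    simp_rw [h2]
    rw [integral_const_mul, integral_sub (hint I 1) (hint 1 I), hcross]
    simp
  rw [integral_complex_ofReal, integral_sub i1 i2] at h1
  have h3 : (∫ z, ‖dz φ z‖ ^ 2) - ∫ z, ‖dzbar φ z‖ ^ 2 = 0 := by exact_mod_cast h1
  linarith

lemma lintegral_sq_eq {g : ℂ → ℂ} (hg : Continuous g) (hc : HasCompactSupport g) :
    ∫⁻ z, ‖g z‖ₑ ^ 2 = ENNReal.ofReal (∫ z, ‖g z‖ ^ 2) := by
  rw [ofReal_integral_eq_lintegral_ofReal]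
  · congr 1
    funext z
    rw [ENNReal.ofReal_pow (norm_nonneg _), ofReal_norm]
  · apply Continuous.integrable_of_hasCompactSupport
    · exact hg.norm.pow 2
    · exact hc.comp_left (g := fun w : ℂ => ‖w‖ ^ 2) (by simp)
  · filter_upwards with z
    positivity

/-- Energy identity: `∂/∂z` and `∂/∂z̄` have the same `L^2` norm on test functions. -/
lemma energy_eq {φ : ℂ → ℂ} (hf : ContDiff ℝ ∞ φ) (hc : HasCompactSupport φ) :
    ∫⁻ z, ‖dz φ z‖ₑ ^ 2 = ∫⁻ z, ‖dzbar φ z‖ₑ ^ 2 := by
  have hf1 : ContDiff ℝ 1 φ := hf.of_le (by exact_mod_cast le_top)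
  rw [lintegral_sq_eq (continuous_dz hf1) (hasCompactSupport_dz hc),
    lintegral_sq_eq (continuous_dzbar hf1) (hasCompactSupport_dzbar hc), energy_eq_real hf hc]

lemma cau_decay {f : ℂ → ℂ} (hf : Continuous f) (hc : HasCompactSupport f) :
    ∃ C R : ℝ, 0 < R ∧ 0 ≤ C ∧ ∀ z, R ≤ ‖z‖ → f z = 0 ∧ ‖cau f z‖ ≤ C * ‖z‖⁻¹ := by
  obtain ⟨R, hR0, hR⟩ := hc.isCompact.isBounded.subset_ball_lt 0 0
  refine ⟨(1 / Real.pi) * (2 * ∫ η, ‖f η‖), 2 * R, by positivity, by positivity, ?_⟩
  intro z hz
  have hzero : ∀ w, R ≤ ‖w‖ → f w = 0 := by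
    intro w hw
    apply image_eq_zero_of_notMem_tsupport
    intro hw2
    have := hR hw2
    rw [mem_ball_zero_iff] at this
    linarith
  have hz0 : 0 < ‖z‖ := by linarith
  refine ⟨hzero z (by linarith), ?_⟩
  unfold cau
  rw [norm_mul]
  have h1 : ‖(1 / (Real.pi : ℂ))‖ = 1 / Real.pi := by
    rw [norm_div, norm_one, Complex.norm_real, Real.norm_of_nonneg Real.pi_pos.le]
  rw [h1, mul_assoc]
  gcongr
  have hi : Integrable fun η => ‖f (z - η)‖ :=
    ((hf.comp (continuous_const.sub continuous_id)).integrable_of_hasCompactSupport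
      (hasCompactSupport_shift hc z)).norm
  calc ‖∫ η, f (z - η) / η‖ ≤ ∫ η, ‖f (z - η) / η‖ := norm_integral_le_integral_norm _
    _ ≤ ∫ η, ‖f (z - η)‖ * (2 * ‖z‖⁻¹) := by
      apply integral_mono_of_nonneg
      · filter_upwards with η
        positivity
      · exact hi.mul_const _
      · filter_upwards with η
        rw [norm_div, div_eq_mul_inv]
        by_cases h : R ≤ ‖z - η‖
        · rw [hzero _ h]; simp
        · push Not at h
          have h2 : ‖z‖ ≤ ‖z - η‖ + ‖η‖ := by
            calc ‖z‖ = ‖(z - η) + η‖ := by ring_nf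
              _ ≤ _ := norm_add_le _ _
          have h3 : ‖z‖ / 2 ≤ ‖η‖ := by linarith
          gcongr
          rw [← div_eq_mul_inv, inv_le_comm₀ (by linarith) (by positivity), inv_div]
          exact h3
    _ = 2 * (∫ η, ‖f η‖) * ‖z‖⁻¹ := by
      rw [integral_mul_const]
      have := integral_sub_left_eq_self (fun η => ‖f η‖) (volume : Measure ℂ) z
      rw [this]
      ring

end Pool.Agent.Lib.MP_c984ee_an
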