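import Pool.Agent.Lib.MP_c984ee_an.L2

open MeasureTheory Filter Topology Complex Set
open scoped ENNReal NNReal ContDiff ComplexConjugate

namespace Pool.Agent.Lib.MP_c984ee_an

/-- A fixed smooth cut-off function, equal to `1` on the closed unit ball and supported in the
closed ball of radius `2`. -/
noncomputable def bump : ContDiffBump (0 : ℂ) := ⟨1, 2, by norm_num, by norm_num⟩

noncomputable def chi (z : ℂ) : ℂ := (bump z : ℂ)

lemma contDiff_chi : ContDiff ℝ ∞ chi := by
  unfold chi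
  exact ofRealCLM.contDiff.comp bump.contDiff

lemma hasCompactSupport_chi : HasCompactSupport chi := by
  unfold chi
  exact bump.hasCompactSupport.comp_left (g := fun x : ℝ => (x : ℂ)) (by simp)

lemma chi_eq_one {z : ℂ} (hz : ‖z‖ ≤ 1) : chi z = 1 := by
  unfold chi
  rw [bump.one_of_mem_closedBall (by simpa [bump] using hz)]
  simp

lemma chi_eq_zero {z : ℂ} (hz : 2 ≤ ‖z‖) : chi z = 0 := by
  unfold chi
  rw [bump.zero_of_le_dist (by simpa [bump] using hz)]
  simp

lemma norm_chi_le (z : ℂ) : ‖chi z‖ ≤ 1 := by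
  unfold chi
  rw [Complex.norm_real, Real.norm_of_nonneg bump.nonneg]
  exact bump.le_one

/-- rescaled cut-off -/
noncomputable def chin (r : ℝ) (z : ℂ) : ℂ := chi (r • z)

lemma contDiff_chin (r : ℝ) : ContDiff ℝ ∞ (chin r) :=
  contDiff_chi.comp (contDiff_const_smul r)

lemma hasCompactSupport_chin {r : ℝ} (hr : r ≠ 0) : HasCompactSupport (chin r) :=
  hasCompactSupport_chi.comp_smul hr

lemma fderiv_chin (r : ℝ) (z v : ℂ) : fderiv ℝ (chin r) z v = r * fderiv ℝ chi (r • z) v := by
  have h1 : HasFDerivAt (fun z : ℂ => r • z) (r • ContinuousLinearMap.id ℝ ℂ) z :=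
    (hasFDerivAt_id z).const_smul r
  have h2 : HasFDerivAt chi (fderiv ℝ chi (r • z)) (r • z) :=
    ((contDiff_chi.differentiable (by simp)) (r • z)).hasFDerivAt
  have h3 := h2.comp z h1
  have h4 : HasFDerivAt (chin r) (fderiv ℝ chi (r • z) ∘SL (r • ContinuousLinearMap.id ℝ ℂ)) z := h3
  rw [h4.fderiv]
  simp

lemma dzbar_chin (r : ℝ) (z : ℂ) : dzbar (chin r) z = r * dzbar chi (r • z) := by
  unfold dzbar
  rw [fderiv_chin, fderiv_chin]
  ring

lemma dz_chin (r : ℝ) (z : ℂ) : dz (chin r) z = r * dz chi (r • z) := by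
  unfold dz
  rw [fderiv_chin, fderiv_chin]
  ring

lemma dzbar_chi_eq_zero {z : ℂ} (hz : 2 < ‖z‖) : dzbar chi z = 0 := by
  have : chi =ᶠ[𝓝 z] fun _ => 0 := by
    have h : ∀ᶠ w in 𝓝 z, 2 < ‖w‖ := continuous_norm.continuousAt.eventually (lt_mem_nhds hz)
    filter_upwards [h] with w hw
    exact chi_eq_zero hw.le
  unfold dzbar
  rw [this.fderiv_eq]
  simp

lemma dzbar_mul {a b : ℂ → ℂ} {z : ℂ} (ha : DifferentiableAt ℝ a z) (hb : DifferentiableAt ℝ b z) :
    dzbar (fun z => a z * b z) z = dzbar a z * b z + a z * dzbar b z := by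
  unfold dzbar
  have h : HasFDerivAt (fun z => a z * b z) (a z • fderiv ℝ b z + b z • fderiv ℝ a z) z :=
    ha.hasFDerivAt.mul hb.hasFDerivAt
  rw [h.fderiv]
  simp only [add_apply, smul_apply, smul_eq_mul]
  ring

lemma eventually_chin_eq_one {r : ℝ} {z : ℂ} (hz : r * ‖z‖ < 1) (hr : 0 ≤ r) :
    ∀ᶠ w in 𝓝 z, chin r w = 1 := by
  have h : ∀ᶠ w in 𝓝 z, r * ‖w‖ < 1 :=
    (continuous_const.mul continuous_norm).continuousAt.eventually (gt_mem_nhds hz)
  filter_upwards [h] with w hw
  apply chi_eq_one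
  rw [norm_smul, Real.norm_of_nonneg hr]
  exact hw.le

/-- The Beurling transform is a contraction for the `L^2` norm on test functions. -/
theorem lintegral_bt_le {f : ℂ → ℂ} (hf : ContDiff ℝ ∞ f) (hc : HasCompactSupport f) :
    ∫⁻ z, ‖bt f z‖ₑ ^ 2 ≤ ∫⁻ z, ‖f z‖ₑ ^ 2 := by
  have hf1 : ContDiff ℝ 1 f := hf.of_le (by exact_mod_cast le_top)
  set u := cau f with hu
  have hucd : ContDiff ℝ ∞ u := contDiff_cau hf hc
  obtain ⟨C, R, hR, hC, hdec⟩ := cau_decay hf.continuous hc
  obtain ⟨M, hM⟩ := (continuous_dzbar (contDiff_chi.of_le (by exact_mod_cast le_top))).bounded_above_of_compact_support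
    (hasCompactSupport_dzbar hasCompactSupport_chi)
  have hM0 : 0 ≤ M := (norm_nonneg _).trans (hM 0)
  let r : ℕ → ℝ := fun n => ((n : ℝ) + 1)⁻¹
  have hr : ∀ n, 0 < r n := fun n => by positivity
  let φ : ℕ → ℂ → ℂ := fun n z => chin (r n) z * u z
  have hφcd : ∀ n, ContDiff ℝ ∞ (φ n) := fun n => (contDiff_chin (r n)).mul hucd
  have hφc : ∀ n, HasCompactSupport (φ n) := fun n =>
    (hasCompactSupport_chin (hr n).ne').mul_right
  have hrt : Tendsto r atTop (𝓝 0) := tendsto_inv_atTop_zero.comp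
    (tendsto_atTop_add_const_right _ _ tendsto_natCast_atTop_atTop)
  -- pointwise convergence
  have hpt : ∀ z, ∀ᶠ n in atTop, dz (φ n) z = bt f z := by
    intro z
    have h1 : Tendsto (fun n => r n * ‖z‖) atTop (𝓝 (0 * ‖z‖)) := hrt.mul_const _
    rw [zero_mul] at h1
    filter_upwards [h1.eventually (gt_mem_nhds one_pos)] with n hn
    have h2 : φ n =ᶠ[𝓝 z] u := by
      filter_upwards [eventually_chin_eq_one hn (hr n).le] with w hw
      simp only [φ, hw, one_mul]
    unfold dz
    rw [h2.fderiv_eq]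
    exact dz_cau hf1 hc z
  have hfatou : ∫⁻ z, ‖bt f z‖ₑ ^ 2 ≤ liminf (fun n => ∫⁻ z, ‖dz (φ n) z‖ₑ ^ 2) atTop := by
    calc ∫⁻ z, ‖bt f z‖ₑ ^ 2 = ∫⁻ z, liminf (fun n => ‖dz (φ n) z‖ₑ ^ 2) atTop := by
          congr 1
          funext z
          symm
          apply Tendsto.liminf_eq
          apply tendsto_const_nhds.congr'
          filter_upwards [hpt z] with n hn
          rw [hn]
      _ ≤ _ := by
        apply lintegral_liminf_le
        intro n
        have : Continuous (dz (φ n)) :=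
          continuous_dz ((hφcd n).of_le (by exact_mod_cast le_top))
        exact this.measurable.enorm.pow_const 2
  refine hfatou.trans ?_
  -- the bound on each energy
  have hbound : ∀ᶠ n in atTop, ∫⁻ z, ‖dz (φ n) z‖ₑ ^ 2 ≤
      (∫⁻ z, ‖f z‖ₑ ^ 2) + ENNReal.ofReal (4 * Real.pi * M ^ 2 * C ^ 2 * r n ^ 2) := by
    have h1 : Tendsto (fun n => r n * R) atTop (𝓝 (0 * R)) := hrt.mul_const _
    rw [zero_mul] at h1
    filter_upwards [h1.eventually (gt_mem_nhds one_pos)] with n hn
    rw [energy_eq (hφcd n) (hφc n)]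
    have hnR : R < (n : ℝ) + 1 := by
      have : r n * R = R / ((n : ℝ) + 1) := by simp only [r]; field_simp
      rw [this, div_lt_one (by positivity)] at hn
      exact hn
    have hpw : ∀ z, ‖dzbar (φ n) z‖ₑ ^ 2 ≤ ‖f z‖ₑ ^ 2 +
        (Metric.closedBall (0 : ℂ) (2 * ((n : ℝ) + 1))).indicator
          (fun _ => ENNReal.ofReal ((r n * M * (C * r n)) ^ 2)) z := by
      intro z
      have hprod : dzbar (φ n) z = dzbar (chin (r n)) z * u z + chin (r n) z * f z := by
        rw [← dzbar_cau hf1 hc z]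
        exact dzbar_mul ((contDiff_chin (r n)).differentiable (by simp) z)
          (hucd.differentiable (by simp) z)
      by_cases hz : r n * ‖z‖ < 1
      · have h2 : chin (r n) =ᶠ[𝓝 z] fun _ => (1 : ℂ) := eventually_chin_eq_one hz (hr n).le
        have h3 : dzbar (chin (r n)) z = 0 := by
          unfold dzbar
          rw [h2.fderiv_eq]
          simp
        rw [hprod, h3, h2.eq_of_nhds]
        simp only [zero_mul, one_mul, zero_add]
        exact le_self_add
      · push Not at hz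
        have hz2 : (n : ℝ) + 1 ≤ ‖z‖ := by
          have : r n * ‖z‖ = ‖z‖ / ((n : ℝ) + 1) := by simp only [r]; field_simp
          rw [this, one_le_div (by positivity)] at hz
          exact hz
        obtain ⟨hfz, huz⟩ := hdec z (by linarith)
        rw [hprod, hfz, mul_zero, add_zero, dzbar_chin]
        by_cases hz3 : ‖z‖ ≤ 2 * ((n : ℝ) + 1)
        · rw [indicator_of_mem (by simpa using hz3)]
          refine le_trans ?_ le_add_self
          have h4 : ‖(r n : ℂ) * dzbar chi (r n • z) * u z‖ ≤ r n * M * (C * r n) := by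
            rw [norm_mul, norm_mul, Complex.norm_real, Real.norm_of_nonneg (hr n).le]
            gcongr
            · exact hM _
            · refine huz.trans ?_
              gcongr
              exact inv_anti₀ (by positivity) hz2
          rw [← ofReal_norm, ← ENNReal.ofReal_pow (norm_nonneg _)]
          apply ENNReal.ofReal_le_ofReal
          gcongr
        · push Not at hz3
          have h5 : dzbar chi (r n • z) = 0 := by
            apply dzbar_chi_eq_zero
            rw [norm_smul, Real.norm_of_nonneg (hr n).le]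
            have : r n * (2 * ((n : ℝ) + 1)) = 2 := by simp only [r]; field_simp
            rw [← this]
            exact mul_lt_mul_of_pos_left hz3 (hr n)
          rw [h5]
          simp
    calc ∫⁻ z, ‖dzbar (φ n) z‖ₑ ^ 2 ≤ ∫⁻ z, (‖f z‖ₑ ^ 2 +
        (Metric.closedBall (0 : ℂ) (2 * ((n : ℝ) + 1))).indicator
          (fun _ => ENNReal.ofReal ((r n * M * (C * r n)) ^ 2)) z) := lintegral_mono hpw
      _ = (∫⁻ z, ‖f z‖ₑ ^ 2) + ENNReal.ofReal (4 * Real.pi * M ^ 2 * C ^ 2 * r n ^ 2) := by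
        rw [lintegral_add_left (hf.continuous.measurable.enorm.pow_const 2),
          lintegral_indicator_const Metric.isClosed_closedBall.measurableSet,
          Complex.volume_closedBall]
        congr 1
        have hpi : (NNReal.pi : ℝ≥0∞) = ENNReal.ofReal Real.pi := by
          rw [ENNReal.ofReal, ← NNReal.coe_real_pi, Real.toNNReal_coe]
        rw [hpi, ← ENNReal.ofReal_pow (by positivity), ← ENNReal.ofReal_mul (by positivity),
          ← ENNReal.ofReal_mul (by positivity)]
        congr 1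
        have : r n * ((n : ℝ) + 1) = 1 := by simp only [r]; field_simp
        have h6 : (r n * M * (C * r n)) ^ 2 * ((2 * ((n : ℝ) + 1)) ^ 2 * Real.pi) =
          4 * Real.pi * M ^ 2 * C ^ 2 * r n ^ 2 * (r n * ((n : ℝ) + 1)) ^ 2 := by ring
        rw [h6, this]
        ring
  have hlim : Tendsto (fun n => (∫⁻ z, ‖f z‖ₑ ^ 2) +
      ENNReal.ofReal (4 * Real.pi * M ^ 2 * C ^ 2 * r n ^ 2)) atTop (𝓝 (∫⁻ z, ‖f z‖ₑ ^ 2)) := by
    have h1 : Tendsto (fun n => 4 * Real.pi * M ^ 2 * C ^ 2 * r n ^ 2) atTop (𝓝 0) := by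
      have := (hrt.pow 2).const_mul (4 * Real.pi * M ^ 2 * C ^ 2)
      simpa using this
    have h2 := ENNReal.tendsto_ofReal h1
    rw [ENNReal.ofReal_zero] at h2
    have h3 := h2.const_add (∫⁻ z, ‖f z‖ₑ ^ 2)
    simpa using h3
  calc liminf (fun n => ∫⁻ z, ‖dz (φ n) z‖ₑ ^ 2) atTop ≤
      liminf (fun n => (∫⁻ z, ‖f z‖ₑ ^ 2) +
      ENNReal.ofReal (4 * Real.pi * M ^ 2 * C ^ 2 * r n ^ 2)) atTop := liminf_le_liminf hbound
    _ = _ := hlim.liminf_eq

end Pool.Agent.Lib.MP_c984ee_an
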