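import Pool.Agent.Lib.MP_c984ee_an.Cauchy

open MeasureTheory Filter Topology Complex Set
open scoped ENNReal NNReal ContDiff ComplexConjugate

namespace Pool.Agent.Lib.MP_c984ee_an

lemma norm_kd_le {δ : ℝ} (hδ : 0 < δ) (η : ℂ) : ‖kd δ η‖ ≤ ‖η‖⁻¹ := by
  unfold kd
  rw [den_eq, norm_div, RCLike.norm_conj, Complex.norm_real,
    Real.norm_of_nonneg (by positivity)]
  rcases eq_or_ne η 0 with rfl | hη
  · simp
  have hη' : 0 < ‖η‖ := by simpa using hη
  rw [div_le_iff₀ (by positivity), inv_mul_eq_div, le_div_iff₀ hη']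
  nlinarith [sq_nonneg δ]

lemma tendsto_kd_apply {η : ℂ} (hη : η ≠ 0) :
    Tendsto (fun δ : ℝ => kd δ η) (𝓝[>] 0) (𝓝 (1 / η)) := by
  have hc : conj η ≠ 0 := by simpa using hη
  have h1 : Tendsto (fun δ : ℝ => kd δ η) (𝓝 0) (𝓝 (conj η / (η * conj η + ((0 : ℝ) : ℂ) ^ 2))) := by
    unfold kd
    apply Tendsto.div tendsto_const_nhds
    · apply Tendsto.const_add
      have : Continuous fun δ : ℝ => (δ : ℂ) ^ 2 := by fun_prop
      exact this.tendsto 0
    · simp [hη]
  have h2 : conj η / (η * conj η + ((0 : ℝ) : ℂ) ^ 2) = 1 / η := by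
    simp only [ofReal_zero, ne_eq, OfNat.ofNat_ne_zero, not_false_eq_true, zero_pow, add_zero]
    field_simp
  rw [h2] at h1
  exact h1.mono_left nhdsWithin_le_nhds

lemma integrable_norm_div {h : ℂ → ℂ} (hh : Continuous h) (hc : HasCompactSupport h) :
    Integrable (fun η => ‖h η‖ * ‖η‖⁻¹) := by
  obtain ⟨M, hM⟩ := hh.bounded_above_of_compact_support hc
  have hb : Integrable (fun η : ℂ => (Metric.ball (0 : ℂ) 1).indicator
      (fun η => M * ‖η‖ ^ (-(1 : ℝ))) η + ‖h η‖) := by
    apply Integrable.add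
    · rw [integrable_indicator_iff Metric.isOpen_ball.measurableSet]
      exact (integrableOn_norm_rpow_ball (by norm_num) 1).const_mul _
    · exact (hh.integrable_of_hasCompactSupport hc).norm
  apply hb.mono'
  · apply Measurable.aestronglyMeasurable
    exact hh.measurable.norm.mul (by fun_prop)
  · filter_upwards with η
    rw [Real.norm_of_nonneg (by positivity)]
    by_cases h1 : η ∈ Metric.ball (0 : ℂ) 1
    · rw [indicator_of_mem h1, Real.rpow_neg_one]
      have := mul_le_mul_of_nonneg_right (hM η) (inv_nonneg.mpr (norm_nonneg η))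
      have := norm_nonneg (h η)
      linarith
    · rw [indicator_of_notMem h1, zero_add]
      have h3 : 1 ≤ ‖η‖ := by simpa using h1
      calc ‖h η‖ * ‖η‖⁻¹ ≤ ‖h η‖ * 1 := by
            gcongr
            exact inv_le_one_of_one_le₀ h3
        _ = ‖h η‖ := mul_one _

lemma tendsto_kd {h : ℂ → ℂ} (hh : Continuous h) (hc : HasCompactSupport h) :
    Tendsto (fun δ : ℝ => ∫ η, h η * kd δ η) (𝓝[>] 0) (𝓝 (∫ η, h η / η)) := by
  apply tendsto_integral_filter_of_dominated_convergence (fun η => ‖h η‖ * ‖η‖⁻¹)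
  · filter_upwards [self_mem_nhdsWithin] with δ hδ
    exact (hh.mul (continuous_kd hδ)).aestronglyMeasurable
  · filter_upwards [self_mem_nhdsWithin] with δ hδ
    filter_upwards with η
    rw [norm_mul]
    gcongr
    exact norm_kd_le hδ η
  · exact integrable_norm_div hh hc
  · filter_upwards [ae_ne_zero] with η hη
    rw [div_eq_mul_one_div]
    exact (tendsto_kd_apply hη).const_mul _

/-- the kernel `conj η ^ 2 / (|η|^2 + δ^2)^2` -/
noncomputable def k2 (δ : ℝ) (η : ℂ) : ℂ := conj η ^ 2 / (η * conj η + δ ^ 2) ^ 2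

lemma norm_k2_le {δ : ℝ} (hδ : 0 < δ) (η : ℂ) : ‖k2 δ η‖ ≤ (‖η‖ ^ 2)⁻¹ := by
  have h1 : k2 δ η = kd δ η ^ 2 := by
    unfold k2 kd
    rw [div_pow]
  rw [h1, norm_pow, ← inv_pow]
  gcongr
  exact norm_kd_le hδ η

lemma tendsto_k2_apply {η : ℂ} (hη : η ≠ 0) :
    Tendsto (fun δ : ℝ => k2 δ η) (𝓝[>] 0) (𝓝 (1 / η ^ 2)) := by
  have h1 : ∀ δ : ℝ, k2 δ η = kd δ η ^ 2 := by
    intro δ
    unfold k2 kd
    rw [div_pow]
  simp_rw [h1]
  have := (tendsto_kd_apply hη).pow 2
  rwa [div_pow, one_pow] at this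

lemma tendsto_k2 {g : ℂ → ℂ} (hg : Continuous g) (hc : HasCompactSupport g)
    {L : ℝ≥0} (hL : LipschitzWith L g) :
    Tendsto (fun δ : ℝ => ∫ η, g η * (conj η ^ 2 / (η * conj η + δ ^ 2) ^ 2)) (𝓝[>] 0)
      (𝓝 (pv g)) := by
  have hmk : ∀ δ : ℝ, Measurable (k2 δ) := by
    intro δ
    unfold k2
    fun_prop
  have key : ∀ δ : ℝ, 0 < δ → (∫ η, g η * (conj η ^ 2 / (η * conj η + δ ^ 2) ^ 2)) =
      ∫ η, cut g η * k2 δ η := by
    intro δ hδ
    have h1 : (∫ η, (Metric.ball (0 : ℂ) 1).indicator (fun _ => g 0) η * k2 δ η) = 0 := by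
      apply integral_eq_zero_of_rotate
      intro z
      have hz : ‖I * z‖ = ‖z‖ := by simp
      have hk : k2 δ (I * z) = - k2 δ z := by
        unfold k2
        simp only [map_mul, conj_I]
        have h1 : (-I * conj z) ^ 2 = - conj z ^ 2 := by
          rw [mul_pow, neg_sq, I_sq]; ring
        have h2 : I * z * (-I * conj z) = z * conj z := by
          linear_combination (- z * conj z) * I_sq
        rw [h1, h2, neg_div]
      by_cases h2 : z ∈ Metric.ball (0 : ℂ) 1
      · have h2' : I * z ∈ Metric.ball (0 : ℂ) 1 := by simpa [hz] using h2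
        rw [indicator_of_mem h2, indicator_of_mem h2', hk]
        ring
      · have h2' : I * z ∉ Metric.ball (0 : ℂ) 1 := by simpa [hz] using h2
        rw [indicator_of_notMem h2, indicator_of_notMem h2']
        simp
    have hi1 : Integrable (fun η => cut g η * k2 δ η) := by
      apply (integrable_norm_cut_div hg hc hL).mono'
      · apply Measurable.aestronglyMeasurable
        exact (measurable_cut hg).mul (hmk δ)
      · filter_upwards with η
        rw [norm_mul, div_eq_mul_inv]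
        gcongr
        exact norm_k2_le hδ η
    have hi2 : Integrable (fun η => (Metric.ball (0 : ℂ) 1).indicator (fun _ => g 0) η * k2 δ η) := by
      have hb : Integrable (fun η : ℂ => (Metric.ball (0 : ℂ) 1).indicator
          (fun _ => ‖g 0‖ * (δ ^ 2)⁻¹) η) := by
        rw [integrable_indicator_iff Metric.isOpen_ball.measurableSet]
        apply integrableOn_const
        · rw [Complex.volume_ball]; finiteness
        · finiteness
      apply hb.mono'
      · apply Measurable.aestronglyMeasurable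
        exact (measurable_const.indicator Metric.isOpen_ball.measurableSet).mul (hmk δ)
      · filter_upwards with η
        by_cases h2 : η ∈ Metric.ball (0 : ℂ) 1
        · rw [indicator_of_mem h2, indicator_of_mem h2, norm_mul]
          gcongr
          unfold k2
          rw [den_eq, norm_div, norm_pow, norm_pow, RCLike.norm_conj, Complex.norm_real,
            Real.norm_of_nonneg (by positivity), div_le_iff₀ (by positivity),
            inv_mul_eq_div, le_div_iff₀ (by positivity)]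
          nlinarith [sq_nonneg (‖η‖ ^ 2), sq_nonneg (δ ^ 2), mul_nonneg (sq_nonneg ‖η‖) (sq_nonneg δ)]
        · rw [indicator_of_notMem h2, indicator_of_notMem h2]
          simp
    have h3 : (fun η => g η * (conj η ^ 2 / (η * conj η + (δ : ℂ) ^ 2) ^ 2)) =
        fun η => cut g η * k2 δ η + (Metric.ball (0 : ℂ) 1).indicator (fun _ => g 0) η * k2 δ η := by
      funext η
      unfold cut k2
      ring
    rw [h3, integral_add hi1 hi2, h1, add_zero]
  have h4 : Tendsto (fun δ : ℝ => ∫ η, cut g η * k2 δ η) (𝓝[>] 0) (𝓝 (∫ η, cut g η / η ^ 2)) := by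
    apply tendsto_integral_filter_of_dominated_convergence (fun η => ‖cut g η‖ / ‖η‖ ^ 2)
    · filter_upwards with δ
      apply Measurable.aestronglyMeasurable
      exact (measurable_cut hg).mul (hmk δ)
    · filter_upwards [self_mem_nhdsWithin] with δ hδ
      filter_upwards with η
      rw [norm_mul, div_eq_mul_inv]
      gcongr
      exact norm_k2_le hδ η
    · exact integrable_norm_cut_div hg hc hL
    · filter_upwards [ae_ne_zero] with η hη
      rw [div_eq_mul_one_div]
      exact (tendsto_k2_apply hη).const_mul _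
  apply h4.congr'
  filter_upwards [self_mem_nhdsWithin] with δ hδ
  rw [key δ hδ]

lemma integral_Ioi_aux : ∫ y in Ioi (0 : ℝ), y / (y ^ 2 + 1) ^ 2 = 1 / 2 := by
  have hd : ∀ x ∈ Ioi (0 : ℝ), HasDerivAt (fun y : ℝ => -(1 / 2) * (y ^ 2 + 1)⁻¹)
      (x / (x ^ 2 + 1) ^ 2) x := by
    intro x _
    have h1 : HasDerivAt (fun y : ℝ => y ^ 2 + 1) (2 * x) x := by
      simpa using (hasDerivAt_pow 2 x).add_const 1
    have h2 := (h1.inv (by positivity)).const_mul (-(1 / 2) : ℝ)
    convert! h2 using 1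
    field_simp
  have ht : Tendsto (fun y : ℝ => -(1 / 2) * (y ^ 2 + 1)⁻¹) atTop (𝓝 0) := by
    have h1 : Tendsto (fun y : ℝ => y ^ 2 + 1) atTop atTop :=
      tendsto_atTop_add_const_right _ _ (tendsto_pow_atTop (by norm_num))
    have := h1.inv_tendsto_atTop.const_mul (-(1 / 2) : ℝ)
    simpa using this
  have hc : ContinuousWithinAt (fun y : ℝ => -(1 / 2) * (y ^ 2 + 1)⁻¹) (Ici 0) 0 := by
    apply Continuous.continuousWithinAt
    apply Continuous.mul continuous_const
    apply Continuous.inv₀ (by fun_prop)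
    intro x
    positivity
  have hint : IntegrableOn (fun x : ℝ => x / (x ^ 2 + 1) ^ 2) (Ioi 0) := by
    apply integrableOn_Ioi_deriv_of_nonneg hc hd _ ht
    intro x hx
    have : (0 : ℝ) < x := hx
    positivity
  rw [integral_Ioi_of_hasDerivAt_of_tendsto hc hd hint ht]
  norm_num

lemma integral_kernel_pi : ∫ η : ℂ, ((1 / (‖η‖ ^ 2 + 1) ^ 2 : ℝ) : ℂ) = Real.pi := by
  rw [integral_complex_ofReal, integral_fun_norm_addHaar (μ := (volume : Measure ℂ))
    (f := fun y => 1 / (y ^ 2 + 1) ^ 2)]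
  have h2 : Module.finrank ℝ ℂ = 2 := Complex.finrank_real_complex
  have h3 : (volume : Measure ℂ).real (Metric.ball 0 1) = Real.pi := by
    simp [measureReal_def, Complex.volume_ball]
  rw [h2, h3]
  have h4 : (∫ y in Ioi (0 : ℝ), y ^ (2 - 1) • (1 / (y ^ 2 + 1) ^ 2)) = 1 / 2 := by
    rw [← integral_Ioi_aux]
    congr 1
    funext y
    simp [div_eq_mul_inv]
  rw [h4]
  simp only [smul_eq_mul, nsmul_eq_mul]
  push_cast
  ring

lemma tendsto_k0 {g : ℂ → ℂ} (hg : Continuous g) (hc : HasCompactSupport g) :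
    Tendsto (fun δ : ℝ => ∫ η, g η * (δ ^ 2 / (η * conj η + δ ^ 2) ^ 2)) (𝓝[>] 0)
      (𝓝 (Real.pi * g 0)) := by
  obtain ⟨M, hM⟩ := hg.bounded_above_of_compact_support hc
  have key : ∀ δ : ℝ, 0 < δ → (∫ η, g η * (δ ^ 2 / (η * conj η + δ ^ 2) ^ 2)) =
      ∫ η : ℂ, g (δ • η) * ((1 / (‖η‖ ^ 2 + 1) ^ 2 : ℝ) : ℂ) := by
    intro δ hδ
    have h1 := Measure.integral_comp_smul (volume : Measure ℂ)
      (fun η => g η * (δ ^ 2 / (η * conj η + δ ^ 2) ^ 2)) δ
    have h2 : Module.finrank ℝ ℂ = 2 := Complex.finrank_real_complex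
    rw [h2] at h1
    have h3 : (∫ η, g η * (δ ^ 2 / (η * conj η + δ ^ 2) ^ 2)) =
        δ ^ 2 • ∫ x : ℂ, (fun η => g η * (δ ^ 2 / (η * conj η + δ ^ 2) ^ 2)) (δ • x) := by
      rw [h1, smul_smul, abs_of_pos (by positivity), mul_inv_cancel₀ (by positivity), one_smul]
    rw [h3, ← integral_smul]
    congr 1
    funext η
    have h4 : δ • η * conj (δ • η) + (δ : ℂ) ^ 2 = (δ : ℂ) ^ 2 * ((‖η‖ ^ 2 + 1 : ℝ) : ℂ) := by
      rw [den_eq, norm_smul, Real.norm_of_nonneg hδ.le]
      push_cast
      ring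
    beta_reduce
    rw [h4]
    have h5 : (δ : ℂ) ≠ 0 := by exact_mod_cast hδ.ne'
    have h6 : ((‖η‖ ^ 2 + 1 : ℝ) : ℂ) ≠ 0 := by
      have : (0 : ℝ) < ‖η‖ ^ 2 + 1 := by positivity
      exact_mod_cast this.ne'
    rw [real_smul]
    push_cast at h6 ⊢
    field_simp
  have hint : Integrable (fun η : ℂ => M * (1 / (‖η‖ ^ 2 + 1) ^ 2)) := by
    apply Integrable.const_mul
    have h2 : (Module.finrank ℝ ℂ : ℝ) < 4 := by
      rw [Complex.finrank_real_complex]; norm_num
    have h1 := integrable_rpow_neg_one_add_norm_sq (μ := (volume : Measure ℂ)) h2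
    apply h1.congr
    filter_upwards with η
    have h3 : (0 : ℝ) < 1 + ‖η‖ ^ 2 := by positivity
    have h4 : (-4 / 2 : ℝ) = -((2 : ℕ) : ℝ) := by norm_num
    rw [h4, Real.rpow_neg h3.le, Real.rpow_natCast, one_div, add_comm]
  have h4 : Tendsto (fun δ : ℝ => ∫ η : ℂ, g (δ • η) * ((1 / (‖η‖ ^ 2 + 1) ^ 2 : ℝ) : ℂ)) (𝓝[>] 0)
      (𝓝 (∫ η : ℂ, g 0 * ((1 / (‖η‖ ^ 2 + 1) ^ 2 : ℝ) : ℂ))) := by
    apply tendsto_integral_filter_of_dominated_convergence (fun η => M * (1 / (‖η‖ ^ 2 + 1) ^ 2))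
    · filter_upwards with δ
      apply Measurable.aestronglyMeasurable
      apply Measurable.mul
      · exact (hg.comp (continuous_const_smul δ)).measurable
      · fun_prop
    · filter_upwards with δ
      filter_upwards with η
      rw [norm_mul, Complex.norm_real, Real.norm_of_nonneg (by positivity)]
      gcongr
      exact hM _
    · exact hint
    · filter_upwards with η
      apply Tendsto.mul_const
      have h5 : Tendsto (fun δ : ℝ => g (δ • η)) (𝓝 0) (𝓝 (g ((0 : ℝ) • η))) := by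
        have : Continuous fun δ : ℝ => g (δ • η) :=
          hg.comp (continuous_id.smul continuous_const)
        exact this.tendsto 0
      rw [zero_smul] at h5
      exact h5.mono_left nhdsWithin_le_nhds
  rw [integral_const_mul, integral_kernel_pi, mul_comm] at h4
  apply h4.congr'
  filter_upwards [self_mem_nhdsWithin] with δ hδ
  rw [key δ hδ]

lemma continuous_dzbar {g : ℂ → ℂ} (hg : ContDiff ℝ 1 g) : Continuous (dzbar g) := by
  unfold dzbar
  have h : ∀ v, Continuous fun η => fderiv ℝ g η v := fun v =>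
    (hg.continuous_fderiv (by norm_num)).clm_apply continuous_const
  exact ((h 1).add (continuous_const.mul (h I))).div_const 2

lemma continuous_dz {g : ℂ → ℂ} (hg : ContDiff ℝ 1 g) : Continuous (dz g) := by
  unfold dz
  have h : ∀ v, Continuous fun η => fderiv ℝ g η v := fun v =>
    (hg.continuous_fderiv (by norm_num)).clm_apply continuous_const
  exact ((h 1).sub (continuous_const.mul (h I))).div_const 2

lemma hasCompactSupport_dzbar {g : ℂ → ℂ} (hc : HasCompactSupport g) :
    HasCompactSupport (dzbar g) := by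
  have h := hc.fderiv ℝ
  have h2 : dzbar g = (fun L : ℂ →L[ℝ] ℂ => (L 1 + I * L I) / 2) ∘ fderiv ℝ g := rfl
  rw [h2]
  exact h.comp_left (by simp)

lemma hasCompactSupport_dz {g : ℂ → ℂ} (hc : HasCompactSupport g) :
    HasCompactSupport (dz g) := by
  have h := hc.fderiv ℝ
  have h2 : dz g = (fun L : ℂ →L[ℝ] ℂ => (L 1 - I * L I) / 2) ∘ fderiv ℝ g := rfl
  rw [h2]
  exact h.comp_left (by simp)

/-- Cauchy-Pompeiu formula at the origin. -/
lemma integral_dzbar_div {g : ℂ → ℂ} (hg : ContDiff ℝ 1 g) (hc : HasCompactSupport g) :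
    ∫ η, dzbar g η / η = - (Real.pi * g 0) := by
  have h1 := tendsto_kd (continuous_dzbar hg) (hasCompactSupport_dzbar hc)
  have h2 := (tendsto_k0 hg.continuous hc).neg
  have h3 : Tendsto (fun δ : ℝ => ∫ η, dzbar g η * kd δ η) (𝓝[>] 0) (𝓝 (-(Real.pi * g 0))) := by
    apply h2.congr'
    filter_upwards [self_mem_nhdsWithin] with δ hδ
    rw [ibp_dzbar hg hc hδ]
  exact tendsto_nhds_unique h1 h3

/-- Integration by parts for the principal value. -/
lemma integral_dz_div {g : ℂ → ℂ} (hg : ContDiff ℝ 1 g) (hc : HasCompactSupport g) :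
    ∫ η, dz g η / η = pv g := by
  obtain ⟨L, hL⟩ := hg.lipschitzWith_of_hasCompactSupport hc (by norm_num)
  have h1 := tendsto_kd (continuous_dz hg) (hasCompactSupport_dz hc)
  have h2 := tendsto_k2 hg.continuous hc hL
  have h3 : Tendsto (fun δ : ℝ => ∫ η, dz g η * kd δ η) (𝓝[>] 0) (𝓝 (pv g)) := by
    apply h2.congr'
    filter_upwards [self_mem_nhdsWithin] with δ hδ
    rw [ibp_dz hg hc hδ]
  exact tendsto_nhds_unique h1 h3

end Pool.Agent.Lib.MP_c984ee_an
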