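import Pool.Agent.Lib.MP_c984ee_an.Eigen

open MeasureTheory Filter Topology Complex Set
open scoped ENNReal NNReal ContDiff ComplexConjugate

namespace Pool.Agent.Lib.MP_c984ee_an

variable {p : ℝ≥0∞} [Fact (1 ≤ p)]

lemma memLp_test_p {α : ℝ} (hα : α < 2) {φ : ℂ → ℂ} (hφ : ContDiff ℝ ∞ φ)
    (hφc : HasCompactSupport φ) : MemLp φ p (wm α) := by
  have := isFiniteMeasureOnCompacts_wm hα
  exact hφ.continuous.memLp_of_hasCompactSupport hφc

lemma IsBeurlingOperator.dzbar_p {α : ℝ}
    {T : Lp ℂ p (wm α) →L[ℂ] Lp ℂ p (wm α)} (hT : IsBeurlingOperator T)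
    {φ : ℂ → ℂ} (hφ : ContDiff ℝ ∞ φ) (hφc : HasCompactSupport φ)
    (h : MemLp (Pool.Agent.Lib.MP_c984ee_an.dzbar φ) p (wm α))
    (h' : MemLp (dz φ) p (wm α)) :
    T (h.toLp (Pool.Agent.Lib.MP_c984ee_an.dzbar φ)) = h'.toLp (dz φ) := by
  apply Lp.ext
  filter_upwards [hT _ h (contDiff_dzbar hφ) (hasCompactSupport_dzbar hφc),
    MemLp.coeFn_toLp h'] with z hz1 hz2
  rw [hz2, ← bt_dzbar hφ hφc z]
  exact tendsto_nhds_unique hz1
    (tendsto_truncBeurling ((contDiff_dzbar hφ).of_le (by exact_mod_cast le_top))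
      (hasCompactSupport_dzbar hφc) z)

lemma memLp_of_bound_strip_p (hp : p ≠ ⊤) {α : ℝ} (h1 : 1 < α) (h2 : α < 2) {u : ℂ} (hu : ‖u‖ = 1)
    {g : ℂ → ℂ} (hg : Measurable g) (K : ℝ) (hK : ∀ z, ‖g z‖ ≤ K)
    (hz : ∀ z, z ∉ strip u → g z = 0) :
    MemLp g p (wm α) := by
  have h3 : MemLp ((strip u).indicator fun _ => (K : ℝ)) p (wm α) :=
    memLp_indicator_const p (measurableSet_strip u) K (Or.inr (wm_strip_lt_top h1 h2 hu).ne)
  refine h3.mono' hg.aestronglyMeasurable ?_
  filter_upwards with z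
  by_cases h : z ∈ strip u
  · rw [indicator_of_mem h]
    exact hK z
  · rw [indicator_of_notMem h, hz z h, norm_zero]

lemma memLp_ef_p (hp : p ≠ ⊤) {α : ℝ} (h1 : 1 < α) (h2 : α < 2) {u : ℂ} (hu : ‖u‖ = 1) :
    MemLp (ef u) p (wm α) := by
  obtain ⟨K, hK0, hK⟩ := exists_deriv_bound
  apply memLp_of_bound_strip_p hp h1 h2 hu (continuous_ef u).measurable K
  · intro z
    unfold ef
    rw [Complex.norm_real]
    exact hK _
  · intro z hz
    exact ef_eq_zero hz

lemma tendsto_toLp_strip_p (hp : p ≠ ⊤) {α : ℝ} (h1 : 1 < α) (h2 : α < 2) {u : ℂ} (hu : ‖u‖ = 1)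
    {g : ℕ → ℂ → ℂ} {g' : ℂ → ℂ} (hg : ∀ n, MemLp (g n) p (wm α)) (hg' : MemLp g' p (wm α))
    (hgm : ∀ n, Measurable (g n)) (hgm' : Measurable g') (K : ℝ)
    (hK : ∀ n z, ‖g n z - g' z‖ ≤ K) (hz : ∀ n z, z ∉ strip u → g n z - g' z = 0)
    (hlim : ∀ z, Tendsto (fun n => g n z) atTop (𝓝 (g' z))) :
    Tendsto (fun n => (hg n).toLp (g n)) atTop (𝓝 (hg'.toLp g')) := by
  have hp1 : 1 ≤ p := Fact.out
  have hp0 : p ≠ 0 := (zero_lt_one.trans_le hp1).ne'
  have hpr : 0 < p.toReal := ENNReal.toReal_pos hp0 hp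
  rw [Lp.tendsto_Lp_iff_tendsto_eLpNorm'' g hg g' hg']
  have h3 : ∀ n, eLpNorm (g n - g') p (wm α) =
      (∫⁻ z, ‖g n z - g' z‖ₑ ^ p.toReal ∂(wm α)) ^ (1 / p.toReal) :=
    fun n => eLpNorm_eq_lintegral_rpow_enorm_toReal hp0 hp
  simp_rw [h3]
  have h4 : Tendsto (fun n => ∫⁻ z, ‖g n z - g' z‖ₑ ^ p.toReal ∂(wm α)) atTop
      (𝓝 (∫⁻ z, 0 ∂(wm α))) := by
    apply tendsto_lintegral_of_dominated_convergence
      ((strip u).indicator fun _ => ENNReal.ofReal K ^ p.toReal)
    · intro n
      exact ((hgm n).sub hgm').enorm.pow_const p.toReal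
    · intro n
      filter_upwards with z
      by_cases h : z ∈ strip u
      · rw [indicator_of_mem h, ← ofReal_norm]
        apply ENNReal.rpow_le_rpow _ hpr.le
        exact ENNReal.ofReal_le_ofReal (hK n z)
      · rw [indicator_of_notMem h, hz n z h]
        simp [hpr]
    · rw [lintegral_indicator_const (measurableSet_strip u)]
      exact (ENNReal.mul_lt_top (ENNReal.rpow_lt_top_of_nonneg hpr.le ENNReal.ofReal_ne_top)
        (wm_strip_lt_top h1 h2 hu)).ne
    · filter_upwards with z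
      have h5 : Tendsto (fun n => g n z - g' z) atTop (𝓝 0) := by
        have := (hlim z).sub_const (g' z)
        simpa using this
      have h6 := (h5.enorm).ennrpow_const p.toReal
      simpa [hpr] using h6
  rw [lintegral_zero] at h4
  have h7 := h4.ennrpow_const (1 / p.toReal)
  rw [ENNReal.zero_rpow_of_pos (by positivity)] at h7
  exact h7

lemma beurling_ef_p (hp : p ≠ ⊤) {α : ℝ} (h1 : 1 < α) (h2 : α < 2)
    {T : Lp ℂ p (wm α) →L[ℂ] Lp ℂ p (wm α)}
    (hT : IsBeurlingOperator T) {u : ℂ} (hu : ‖u‖ = 1) :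
    T ((memLp_ef_p hp h1 h2 hu).toLp (ef u)) =
      (u ^ 2) • (memLp_ef_p hp h1 h2 hu).toLp (ef u) := by
  obtain ⟨K, hK0, hK⟩ := exists_deriv_bound
  let r : ℕ → ℝ := fun n => ((n : ℝ) + 1)⁻¹
  have hr : ∀ n, 0 < r n := fun n => by positivity
  have hr1 : ∀ n, r n ≤ 1 := fun n => inv_le_one_of_one_le₀ (by simp)
  have hrt : Tendsto r atTop (𝓝 0) := tendsto_inv_atTop_zero.comp
    (tendsto_atTop_add_const_right _ _ tendsto_natCast_atTop_atTop)
  have hcd : ∀ n, ContDiff ℝ ∞ (Fn u (r n)) := fun n => contDiff_Fn u (r n)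
  have hcs : ∀ n, HasCompactSupport (Fn u (r n)) := fun n => hasCompactSupport_Fn hu (hr n)
  have hrb : ∀ x, |rb x| ≤ 1 := fun x => by
    rw [abs_of_nonneg rb.nonneg]
    exact rb.le_one
  -- the two pieces
  let P : ℕ → ℂ → ℂ := fun n z => ((deriv rb (u * z).re * rb (r n * (u * z).im) : ℝ) : ℂ)
  let Q : ℕ → ℂ → ℂ := fun n z =>
    I * ((r n * (rb (u * z).re * deriv rb (r n * (u * z).im)) : ℝ) : ℂ)
  have hP : ∀ n z, ‖P n z‖ ≤ K := by
    intro n z
    simp only [P]
    rw [Complex.norm_real, norm_mul, Real.norm_eq_abs, Real.norm_eq_abs]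
    calc _ ≤ K * 1 := by
          gcongr
          · exact hK _
          · exact hrb _
      _ = K := mul_one K
  have hQ : ∀ n z, ‖Q n z‖ ≤ K := by
    intro n z
    simp only [Q]
    rw [norm_mul, norm_I, one_mul, Complex.norm_real, norm_mul, norm_mul, Real.norm_eq_abs,
      Real.norm_eq_abs, Real.norm_eq_abs, abs_of_pos (hr n)]
    calc _ ≤ 1 * (1 * K) := by
          gcongr
          · exact hr1 n
          · exact hrb _
          · exact hK _
      _ = K := by ring
  have hE : ∀ z, ‖ef u z‖ ≤ K := by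
    intro z
    unfold ef
    rw [Complex.norm_real]
    exact hK _
  have hP0 : ∀ n z, z ∉ strip u → P n z = 0 := by
    intro n z hz
    simp only [P]
    rw [deriv_rb_eq_zero (by simpa [strip] using hz)]
    simp
  have hQ0 : ∀ n z, z ∉ strip u → Q n z = 0 := by
    intro n z hz
    have hz' : 2 < |(u * z).re| := by simpa [strip] using hz
    simp only [Q]
    rw [rb_eq_zero hz'.le]
    simp
  have hPlim : ∀ z, Tendsto (fun n => P n z) atTop (𝓝 (ef u z)) := by
    intro z
    have e1 : Tendsto (fun n => rb (r n * (u * z).im)) atTop (𝓝 1) := by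
      have e2 : Tendsto (fun n => r n * (u * z).im) atTop (𝓝 0) := by
        have := hrt.mul_const ((u * z).im)
        simpa using this
      have e3 := (rb_contDiff.continuous.tendsto 0).comp e2
      rw [rb_zero] at e3
      exact e3
    have e4 := (e1.const_mul (deriv rb (u * z).re)).ofReal
    rw [mul_one] at e4
    exact e4
  have hQlim : ∀ z, Tendsto (fun n => Q n z) atTop (𝓝 0) := by
    intro z
    rw [tendsto_zero_iff_norm_tendsto_zero]
    have e1 : Tendsto (fun n => r n * K) atTop (𝓝 0) := by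
      have := hrt.mul_const K
      simpa using this
    apply squeeze_zero (fun n => norm_nonneg _) _ e1
    intro n
    simp only [Q]
    rw [norm_mul, norm_I, one_mul, Complex.norm_real, norm_mul, norm_mul, Real.norm_eq_abs,
      Real.norm_eq_abs, Real.norm_eq_abs, abs_of_pos (hr n)]
    calc _ ≤ r n * (1 * K) := by
          have := hr n
          gcongr
          · exact hrb _
          · exact hK _
      _ = r n * K := by ring
  have hub : ‖conj u / 2‖ ≤ 1 := by
    rw [norm_div, RCLike.norm_conj, hu]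
    norm_num
  have hub' : ‖u / 2‖ ≤ 1 := by
    rw [norm_div, hu]
    norm_num
  have eg : ∀ n, dzbar (Fn u (r n)) = fun z => conj u / 2 * (P n z + Q n z) := by
    intro n
    funext z
    rw [dzbar_Fn]
  have eh : ∀ n, dz (Fn u (r n)) = fun z => u / 2 * (P n z - Q n z) := by
    intro n
    funext z
    rw [dz_Fn]
  have mg : ∀ n, MemLp (dzbar (Fn u (r n))) p (wm α) := fun n =>
    memLp_test_p h2 (contDiff_dzbar (hcd n)) (hasCompactSupport_dzbar (hcs n))
  have mh : ∀ n, MemLp (dz (Fn u (r n))) p (wm α) := fun n =>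
    memLp_test_p h2 (contDiff_dz (hcd n)) (hasCompactSupport_dz (hcs n))
  have me := memLp_ef_p hp h1 h2 hu
  have mg' : MemLp (fun z => conj u / 2 * ef u z) p (wm α) := me.const_mul _
  have mh' : MemLp (fun z => u / 2 * ef u z) p (wm α) := me.const_mul _
  have Tg : Tendsto (fun n => (mg n).toLp _) atTop (𝓝 (mg'.toLp _)) := by
    apply tendsto_toLp_strip_p hp h1 h2 hu mg mg'
      (fun n => (contDiff_dzbar (hcd n)).continuous.measurable)
      ((continuous_const.mul (continuous_ef u)).measurable) (3 * K)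
    · intro n z
      rw [eg n]
      have e1 : conj u / 2 * (P n z + Q n z) - conj u / 2 * ef u z =
          conj u / 2 * (P n z + Q n z - ef u z) := by ring
      rw [e1, norm_mul]
      calc _ ≤ 1 * (K + K + K) := by
            gcongr
            refine (norm_sub_le _ _).trans ?_
            gcongr
            · refine (norm_add_le _ _).trans ?_
              gcongr
              · exact hP n z
              · exact hQ n z
            · exact hE z
        _ = 3 * K := by ring
    · intro n z hz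
      rw [eg n]
      simp only
      rw [hP0 n z hz, hQ0 n z hz, ef_eq_zero hz]
      ring
    · intro z
      simp_rw [eg]
      have := ((hPlim z).add (hQlim z)).const_mul (conj u / 2)
      simpa using this
  have Th : Tendsto (fun n => (mh n).toLp _) atTop (𝓝 (mh'.toLp _)) := by
    apply tendsto_toLp_strip_p hp h1 h2 hu mh mh'
      (fun n => (contDiff_dz (hcd n)).continuous.measurable)
      ((continuous_const.mul (continuous_ef u)).measurable) (3 * K)
    · intro n z
      rw [eh n]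
      have e1 : u / 2 * (P n z - Q n z) - u / 2 * ef u z =
          u / 2 * (P n z - Q n z - ef u z) := by ring
      rw [e1, norm_mul]
      calc _ ≤ 1 * (K + K + K) := by
            gcongr
            refine (norm_sub_le _ _).trans ?_
            gcongr
            · refine (norm_sub_le _ _).trans ?_
              gcongr
              · exact hP n z
              · exact hQ n z
            · exact hE z
        _ = 3 * K := by ring
    · intro n z hz
      rw [eh n]
      simp only
      rw [hP0 n z hz, hQ0 n z hz, ef_eq_zero hz]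
      ring
    · intro z
      simp_rw [eh]
      have := ((hPlim z).sub (hQlim z)).const_mul (u / 2)
      simpa using this
  have hTn : ∀ n, T ((mg n).toLp _) = (mh n).toLp _ := fun n =>
    hT.dzbar_p (hcd n) (hcs n) (mg n) (mh n)
  have hTlim : T (mg'.toLp _) = mh'.toLp _ := by
    have t1 := (T.continuous.tendsto _).comp Tg
    refine tendsto_nhds_unique t1 (Th.congr ?_)
    intro n
    exact (hTn n).symm
  have e1 : mg'.toLp _ = (conj u / 2) • me.toLp (ef u) := by
    rw [← MemLp.toLp_const_smul]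
    rfl
  have e2 : mh'.toLp _ = (u / 2) • me.toLp (ef u) := by
    rw [← MemLp.toLp_const_smul]
    rfl
  rw [e1, e2, map_smul] at hTlim
  have hu2 : u * conj u = 1 := by
    rw [Complex.mul_conj, Complex.normSq_eq_norm_sq, hu]
    simp
  have e3 := congrArg (fun x => (2 * u) • x) hTlim
  simp only [smul_smul] at e3
  have e4 : 2 * u * (conj u / 2) = 1 := by linear_combination hu2
  have e5 : 2 * u * (u / 2) = u ^ 2 := by ring
  rw [e4, e5, one_smul] at e3
  exact e3

lemma toLp_ef_ne_zero_p (hp : p ≠ ⊤) {α : ℝ} (h1 : 1 < α) (h2 : α < 2) {u : ℂ} (hu : ‖u‖ = 1) :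
    (memLp_ef_p hp h1 h2 hu).toLp (ef u) ≠ 0 := by
  intro h
  have h3 : ef u =ᵐ[wm α] 0 := by
    have := (MemLp.coeFn_toLp (memLp_ef_p hp h1 h2 hu)).symm
    rw [h] at this
    exact this.trans (Lp.coeFn_zero _ _ _)
  have h4 : ef u =ᵐ[volume] 0 := (volume_ac_wm α).ae_eq h3
  have h5 : ef u = fun _ => 0 :=
    (Continuous.ae_eq_iff_eq volume (continuous_ef u) continuous_const).mp h4
  obtain ⟨x, hx⟩ := exists_deriv_ne_zero
  have hu0 : u ≠ 0 := by
    intro h
    rw [h] at hu
    simp at hu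
  have h6 := congrFun h5 (u⁻¹ * x)
  unfold ef at h6
  rw [← mul_assoc, mul_inv_cancel₀ hu0, one_mul, ofReal_re] at h6
  exact hx (by exact_mod_cast h6)

theorem hasEigenvalue_p (hp : p ≠ ⊤) {α : ℝ} (h1 : 1 < α) (h2 : α < 2)
    {T : Lp ℂ p (wm α) →L[ℂ] Lp ℂ p (wm α)}
    (hT : IsBeurlingOperator T) {c : ℂ} (hc : ‖c‖ = 1) :
    Module.End.HasEigenvalue (T : Lp ℂ p (wm α) →ₗ[ℂ] Lp ℂ p (wm α)) c := by
  obtain ⟨u, hu⟩ := IsAlgClosed.exists_pow_nat_eq c (n := 2) (by norm_num)
  have hu1 : ‖u‖ = 1 := by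
    have h3 : ‖u‖ ^ 2 = 1 := by rw [← norm_pow, hu, hc]
    have h4 := norm_nonneg u
    nlinarith
  apply Module.End.hasEigenvalue_of_hasEigenvector
    (x := (memLp_ef_p hp h1 h2 hu1).toLp (ef u))
  refine ⟨?_, toLp_ef_ne_zero_p hp h1 h2 hu1⟩
  rw [Module.End.mem_eigenspace_iff]
  have := beurling_ef_p hp h1 h2 hT hu1
  rw [hu] at this
  exact this

end Pool.Agent.Lib.MP_c984ee_an
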