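import Pool.Agent.Lib.MP_c984ee_an.WeightedFull

open MeasureTheory Filter Topology Complex Set
open scoped ENNReal NNReal ContDiff ComplexConjugate

namespace Pool.Agent.Lib.MP_c984ee_an

/-- the power weight -/
noncomputable def pw (α : ℝ) (z : ℂ) : ℝ := ‖z‖ ^ (-α)

lemma measurable_pw (α : ℝ) : Measurable (pw α) := by
  unfold pw
  fun_prop

/-- the weighted measure -/
noncomputable def wm (α : ℝ) : Measure ℂ := weightMeasure (pw α)

lemma volume_ac_wm (α : ℝ) : (volume : Measure ℂ) ≪ wm α := by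
  unfold wm weightMeasure
  apply withDensity_absolutelyContinuous' (measurable_pw α).ennreal_ofReal.aemeasurable
  filter_upwards [ae_ne_zero] with z hz
  have : 0 < ‖z‖ := by simpa using hz
  have h2 : 0 < ENNReal.ofReal (pw α z) := by
    apply ENNReal.ofReal_pos.mpr
    unfold pw
    positivity
  exact h2.ne'

lemma wm_ac_volume (α : ℝ) : wm α ≪ (volume : Measure ℂ) := by
  unfold wm weightMeasure
  exact withDensity_absolutelyContinuous _ _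

lemma lintegral_wm (α : ℝ) {g : ℂ → ℝ≥0∞} (hg : Measurable g) :
    ∫⁻ z, g z ∂(wm α) = ∫⁻ z, ENNReal.ofReal (pw α z) * g z := by
  unfold wm weightMeasure
  rw [lintegral_withDensity_eq_lintegral_mul _ (measurable_pw α).ennreal_ofReal hg]
  rfl

lemma lintegral_wm_sq (α : ℝ) {g : ℂ → ℂ} (hg : Measurable g) :
    ∫⁻ z, ‖g z‖ₑ ^ 2 ∂(wm α) = ∫⁻ z, ‖((‖z‖ ^ (-(α / 2)) : ℝ) : ℂ) * g z‖ₑ ^ 2 := by
  rw [lintegral_wm α (hg.enorm.pow_const 2)]
  apply lintegral_congr_ae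
  filter_upwards [ae_ne_zero] with z hz
  have hz0 : 0 < ‖z‖ := by simpa using hz
  rw [enorm_mul, mul_pow]
  congr 1
  rw [← ofReal_norm, ← ENNReal.ofReal_pow (norm_nonneg _), Complex.norm_real,
    Real.norm_of_nonneg (by positivity)]
  congr 1
  unfold pw
  rw [← Real.rpow_natCast, ← Real.rpow_mul hz0.le]
  congr 1
  push_cast
  ring

lemma wm_ball_lt_top {α : ℝ} (hα : α < 2) (R : ℝ) : wm α (Metric.ball 0 R) < ⊤ := by
  unfold wm weightMeasure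
  rw [withDensity_apply _ Metric.isOpen_ball.measurableSet]
  exact (integrableOn_norm_rpow_ball hα R).lintegral_lt_top

lemma isFiniteMeasureOnCompacts_wm {α : ℝ} (hα : α < 2) : IsFiniteMeasureOnCompacts (wm α) := by
  constructor
  intro K hK
  obtain ⟨R, hR⟩ := hK.isBounded.subset_ball 0
  exact (measure_mono hR).trans_lt (wm_ball_lt_top hα R)

lemma eLpNorm_two_sq {μ : Measure ℂ} (g : ℂ → ℂ) :
    eLpNorm g 2 μ = (∫⁻ z, ‖g z‖ₑ ^ 2 ∂μ) ^ ((1 : ℝ) / 2) := by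
  rw [eLpNorm_eq_lintegral_rpow_enorm_toReal (by norm_num) (by norm_num)]
  simp

lemma measurable_bt {φ : ℂ → ℂ} (hφ : ContDiff ℝ ∞ φ) (hφc : HasCompactSupport φ) :
    Measurable (bt φ) := by
  have h1 : ContDiff ℝ 1 φ := hφ.of_le (by exact_mod_cast le_top)
  have : bt φ = dz (cau φ) := by
    funext z
    exact (dz_cau h1 hφc z).symm
  rw [this]
  exact (continuous_dz (contDiff_cau (n := 1) (by exact_mod_cast h1) hφc)).measurable

lemma abs_half_lt {α : ℝ} (h0 : -2 < α) (h2 : α < 2) : |α / 2| < 1 := by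
  rw [abs_lt]
  constructor <;> linarith

lemma eLpNorm_bt_le (α : ℝ) {φ : ℂ → ℂ} (hφ : ContDiff ℝ ∞ φ) (hφc : HasCompactSupport φ) :
    eLpNorm (bt φ) 2 (wm α) ≤ wc (α / 2) ^ ((1 : ℝ) / 2) * eLpNorm φ 2 (wm α) := by
  rw [eLpNorm_two_sq, eLpNorm_two_sq, ← ENNReal.mul_rpow_of_nonneg _ _ (by norm_num)]
  apply ENNReal.rpow_le_rpow _ (by norm_num)
  rw [lintegral_wm_sq α (measurable_bt hφ hφc), lintegral_wm_sq α hφ.continuous.measurable]
  exact weighted_bound hφ hφc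

lemma memLp_test {α : ℝ} (hα : α < 2) {φ : ℂ → ℂ} (hφ : ContDiff ℝ ∞ φ)
    (hφc : HasCompactSupport φ) : MemLp φ 2 (wm α) := by
  have := isFiniteMeasureOnCompacts_wm hα
  exact hφ.continuous.memLp_of_hasCompactSupport hφc

lemma memLp_bt {α : ℝ} (h0 : -2 < α) (hα : α < 2) {φ : ℂ → ℂ} (hφ : ContDiff ℝ ∞ φ)
    (hφc : HasCompactSupport φ) : MemLp (bt φ) 2 (wm α) := by
  refine ⟨(measurable_bt hφ hφc).aestronglyMeasurable, ?_⟩
  refine (eLpNorm_bt_le α hφ hφc).trans_lt ?_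
  have h1 := (memLp_test hα hφ hφc).2
  have h2 := wc_lt_top (abs_half_lt h0 hα)
  exact ENNReal.mul_lt_top (ENNReal.rpow_lt_top_of_nonneg (by norm_num) h2.ne) h1

/-- The space of test functions. -/
def testSpace : Submodule ℂ (ℂ → ℂ) where
  carrier := {φ | ContDiff ℝ ∞ φ ∧ HasCompactSupport φ}
  add_mem' := fun ha hb => ⟨ha.1.add hb.1, ha.2.add hb.2⟩
  zero_mem' := ⟨contDiff_const, HasCompactSupport.zero⟩
  smul_mem' := fun c _ ha => ⟨contDiff_const.smul ha.1, ha.2.smul_left (f := fun _ => c)⟩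

/-- Embedding of the test functions in `L^2(w)`. -/
noncomputable def embT {α : ℝ} (hα : α < 2) : testSpace →ₗ[ℂ] Lp ℂ 2 (wm α) where
  toFun φ := (memLp_test hα φ.2.1 φ.2.2).toLp φ.1
  map_add' _ _ := (MemLp.toLp_add _ _)
  map_smul' c _ := (MemLp.toLp_const_smul c _)

/-- The Beurling transform from test functions to `L^2(w)`. -/
noncomputable def btT {α : ℝ} (h0 : -2 < α) (hα : α < 2) : testSpace →ₗ[ℂ] Lp ℂ 2 (wm α) where
  toFun φ := (memLp_bt h0 hα φ.2.1 φ.2.2).toLp (bt φ.1)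
  map_add' φ ψ := by
    have h1 : ContDiff ℝ 1 φ.1 := φ.2.1.of_le (by exact_mod_cast le_top)
    have h2 : ContDiff ℝ 1 ψ.1 := ψ.2.1.of_le (by exact_mod_cast le_top)
    rw [← MemLp.toLp_add, MemLp.toLp_eq_toLp_iff]
    filter_upwards with z
    exact bt_add h1 φ.2.2 h2 ψ.2.2 z
  map_smul' c φ := by
    have h1 : ContDiff ℝ 1 φ.1 := φ.2.1.of_le (by exact_mod_cast le_top)
    rw [RingHom.id_apply, ← MemLp.toLp_const_smul, MemLp.toLp_eq_toLp_iff]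
    filter_upwards with z
    exact bt_smul h1 φ.2.2 c z

lemma denseRange_embT {α : ℝ} (hα : α < 2) : DenseRange (embT hα) := by
  have := isFiniteMeasureOnCompacts_wm hα
  have h := Lp.dense_hasCompactSupport_contDiff (μ := wm α) (F := ℂ) (p := 2) (by norm_num)
  refine h.mono ?_
  rintro f ⟨g, hfg, hgc, hg⟩
  refine ⟨⟨g, hg, hgc⟩, ?_⟩
  apply Lp.ext
  exact (MemLp.coeFn_toLp (memLp_test hα hg hgc)).trans hfg.symm

lemma norm_btT_le {α : ℝ} (h0 : -2 < α) (hα : α < 2) :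
    ∃ C, ∀ φ, ‖btT h0 hα φ‖ ≤ C * ‖embT hα φ‖ := by
  refine ⟨(wc (α / 2) ^ ((1 : ℝ) / 2)).toReal, fun φ => ?_⟩
  have h1 : ‖btT h0 hα φ‖ = (eLpNorm (bt φ.1) 2 (wm α)).toReal :=
    Lp.norm_toLp _ (memLp_bt h0 hα φ.2.1 φ.2.2)
  have h2 : ‖embT hα φ‖ = (eLpNorm φ.1 2 (wm α)).toReal :=
    Lp.norm_toLp _ (memLp_test hα φ.2.1 φ.2.2)
  rw [h1, h2, ← ENNReal.toReal_mul]
  apply ENNReal.toReal_mono
  · have h3 := (memLp_test hα φ.2.1 φ.2.2).2
    have h4 := wc_lt_top (abs_half_lt h0 hα)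
    exact (ENNReal.mul_lt_top (ENNReal.rpow_lt_top_of_nonneg (by norm_num) h4.ne) h3).ne
  · exact eLpNorm_bt_le α φ.2.1 φ.2.2

/-- The Beurling operator on `L^2(|z|^{-α} dA)`. -/
noncomputable def beurlingOp {α : ℝ} (h0 : -2 < α) (hα : α < 2) :
    Lp ℂ 2 (wm α) →L[ℂ] Lp ℂ 2 (wm α) :=
  (btT h0 hα).extendOfNorm (embT hα)

lemma beurlingOp_toLp {α : ℝ} (h0 : -2 < α) (hα : α < 2) {φ : ℂ → ℂ} (hφ : ContDiff ℝ ∞ φ)
    (hφc : HasCompactSupport φ) (h : MemLp φ 2 (wm α)) :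
    beurlingOp h0 hα (h.toLp φ) = (memLp_bt h0 hα hφ hφc).toLp (bt φ) :=
  LinearMap.extendOfNorm_eq (denseRange_embT hα) (norm_btT_le h0 hα) ⟨φ, hφ, hφc⟩

lemma isBeurlingOperator_beurlingOp {α : ℝ} (h0 : -2 < α) (hα : α < 2) :
    IsBeurlingOperator (beurlingOp h0 hα) := by
  intro φ h hφ hφc
  rw [beurlingOp_toLp h0 hα hφ hφc h]
  filter_upwards [MemLp.coeFn_toLp (memLp_bt h0 hα hφ hφc)] with z hz
  rw [hz]
  exact tendsto_truncBeurling (hφ.of_le (by exact_mod_cast le_top)) hφc z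

lemma IsBeurlingOperator.toLp_eq {α : ℝ} (h0 : -2 < α) (hα : α < 2)
    {T : Lp ℂ 2 (wm α) →L[ℂ] Lp ℂ 2 (wm α)} (hT : IsBeurlingOperator T)
    {φ : ℂ → ℂ} (hφ : ContDiff ℝ ∞ φ) (hφc : HasCompactSupport φ) (h : MemLp φ 2 (wm α)) :
    T (h.toLp φ) = (memLp_bt h0 hα hφ hφc).toLp (bt φ) := by
  apply Lp.ext
  filter_upwards [hT φ h hφ hφc, MemLp.coeFn_toLp (memLp_bt h0 hα hφ hφc)] with z hz1 hz2
  rw [hz2]
  exact tendsto_nhds_unique hz1
    (tendsto_truncBeurling (hφ.of_le (by exact_mod_cast le_top)) hφc z)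

lemma IsBeurlingOperator.unique {α : ℝ} (h0 : -2 < α) (hα : α < 2)
    {T : Lp ℂ 2 (wm α) →L[ℂ] Lp ℂ 2 (wm α)} (hT : IsBeurlingOperator T) :
    T = beurlingOp h0 hα := by
  apply ContinuousLinearMap.ext
  intro f
  refine (denseRange_embT hα).induction_on (p := fun f => T f = beurlingOp h0 hα f) f ?_ ?_
  · exact isClosed_eq T.continuous (beurlingOp h0 hα).continuous
  · intro φ
    have h1 := hT.toLp_eq h0 hα φ.2.1 φ.2.2 (memLp_test hα φ.2.1 φ.2.2)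
    have h2 := beurlingOp_toLp h0 hα φ.2.1 φ.2.2 (memLp_test hα φ.2.1 φ.2.2)
    exact h1.trans h2.symm

lemma IsBeurlingOperator.dzbar {α : ℝ} (h0 : -2 < α) (hα : α < 2)
    {T : Lp ℂ 2 (wm α) →L[ℂ] Lp ℂ 2 (wm α)} (hT : IsBeurlingOperator T)
    {φ : ℂ → ℂ} (hφ : ContDiff ℝ ∞ φ) (hφc : HasCompactSupport φ)
    (h : MemLp (dzbar φ) 2 (wm α)) (h' : MemLp (dz φ) 2 (wm α)) :
    T (h.toLp (dzbar φ)) = h'.toLp (dz φ) := by
  rw [hT.toLp_eq h0 hα (contDiff_dzbar hφ) (hasCompactSupport_dzbar hφc) h,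
    MemLp.toLp_eq_toLp_iff]
  filter_upwards with z
  exact bt_dzbar hφ hφc z

end Pool.Agent.Lib.MP_c984ee_an
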