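import Pool.Agent.Lib.MP_c984ee_an.L2Bound

open MeasureTheory Filter Topology Complex Set
open scoped ENNReal NNReal ContDiff ComplexConjugate

namespace Pool.Agent.Lib.MP_c984ee_an

lemma ennreal_add_sq_le (a b : ℝ≥0∞) : (a + b) ^ 2 ≤ 2 * (a ^ 2 + b ^ 2) := by
  have h := ENNReal.rpow_add_le_mul_rpow_add_rpow a b (p := 2) (by norm_num)
  have h2 : (2 : ℝ≥0∞) ^ ((2 : ℝ) - 1) = 2 := by norm_num
  rw [h2] at h
  simpa only [ENNReal.rpow_two] using h

lemma cauchy_schwarz_sq {f g : ℂ → ℝ≥0∞} (hf : Measurable f) (hg : Measurable g) :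
    (∫⁻ z, f z * g z) ^ 2 ≤ (∫⁻ z, f z ^ 2) * ∫⁻ z, g z ^ 2 := by
  have h := ENNReal.lintegral_mul_le_Lp_mul_Lq (volume : Measure ℂ) Real.HolderConjugate.two_two
    hf.aemeasurable hg.aemeasurable
  have h2 := pow_le_pow_left' h 2
  refine (le_of_eq (by rfl)).trans (h2.trans (le_of_eq ?_))
  rw [mul_pow, ← ENNReal.rpow_natCast, ← ENNReal.rpow_natCast, ← ENNReal.rpow_mul,
    ← ENNReal.rpow_mul]
  norm_num

/-- Schur test for positive kernels on `L^2(ℂ)`. -/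
lemma schur {k : ℂ → ℂ → ℝ≥0∞} (hk : Measurable (Function.uncurry k)) {h : ℂ → ℝ≥0∞}
    (hh : Measurable h) (h0 : ∀ᵐ z, h z ≠ 0) (htop : ∀ᵐ z, h z ≠ ⊤) {A B : ℝ≥0∞}
    (hA : ∀ᵐ z, ∫⁻ ζ, k z ζ * h ζ ≤ A * h z) (hB : ∀ᵐ ζ, ∫⁻ z, k z ζ * h z ≤ B * h ζ)
    {ψ : ℂ → ℝ≥0∞} (hψ : Measurable ψ) :
    ∫⁻ z, (∫⁻ ζ, k z ζ * ψ ζ) ^ 2 ≤ A * B * ∫⁻ ζ, ψ ζ ^ 2 := by
  have hkz : ∀ z, Measurable (k z) := fun z => hk.of_uncurry_left
  have hkζ : ∀ ζ, Measurable (fun z => k z ζ) := fun z => hk.of_uncurry_right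
  have h1 : ∀ᵐ z, (∫⁻ ζ, k z ζ * ψ ζ) ^ 2 ≤ A * h z * ∫⁻ ζ, k z ζ * (ψ ζ ^ 2 * (h ζ)⁻¹) := by
    filter_upwards [hA] with z hz
    let f : ℂ → ℝ≥0∞ := fun ζ => (k z ζ * h ζ) ^ ((1 : ℝ) / 2)
    let g : ℂ → ℝ≥0∞ := fun ζ => (k z ζ * (ψ ζ ^ 2 * (h ζ)⁻¹)) ^ ((1 : ℝ) / 2)
    have hfm : Measurable f := ((hkz z).mul hh).pow_const _
    have hgm : Measurable g := ((hkz z).mul ((hψ.pow_const 2).mul hh.inv)).pow_const _
    have hfg : ∀ᵐ ζ, k z ζ * ψ ζ = f ζ * g ζ := by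
      filter_upwards [h0, htop] with ζ h0 ht
      simp only [f, g]
      rw [← ENNReal.mul_rpow_of_nonneg _ _ (by norm_num)]
      have : k z ζ * h ζ * (k z ζ * (ψ ζ ^ 2 * (h ζ)⁻¹)) = (k z ζ * ψ ζ) ^ 2 := by
        calc k z ζ * h ζ * (k z ζ * (ψ ζ ^ 2 * (h ζ)⁻¹)) =
            (k z ζ * ψ ζ) ^ 2 * (h ζ * (h ζ)⁻¹) := by ring
          _ = _ := by rw [ENNReal.mul_inv_cancel h0 ht, mul_one]
      rw [this, ← ENNReal.rpow_natCast, ← ENNReal.rpow_mul]
      norm_num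
    have hf2 : ∀ ζ, f ζ ^ 2 = k z ζ * h ζ := by
      intro ζ
      simp only [f]
      rw [← ENNReal.rpow_natCast, ← ENNReal.rpow_mul]
      norm_num
    have hg2 : ∀ ζ, g ζ ^ 2 = k z ζ * (ψ ζ ^ 2 * (h ζ)⁻¹) := by
      intro ζ
      simp only [g]
      rw [← ENNReal.rpow_natCast, ← ENNReal.rpow_mul]
      norm_num
    rw [lintegral_congr_ae hfg]
    refine (cauchy_schwarz_sq hfm hgm).trans ?_
    simp_rw [hf2, hg2]
    gcongr
  calc ∫⁻ z, (∫⁻ ζ, k z ζ * ψ ζ) ^ 2 ≤ ∫⁻ z, A * h z * ∫⁻ ζ, k z ζ * (ψ ζ ^ 2 * (h ζ)⁻¹) :=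
        lintegral_mono_ae h1
    _ = ∫⁻ z, ∫⁻ ζ, A * h z * (k z ζ * (ψ ζ ^ 2 * (h ζ)⁻¹)) := by
        congr 1
        funext z
        rw [lintegral_const_mul]
        exact (hkz z).mul ((hψ.pow_const 2).mul hh.inv)
    _ = ∫⁻ ζ, ∫⁻ z, A * h z * (k z ζ * (ψ ζ ^ 2 * (h ζ)⁻¹)) := by
        apply lintegral_lintegral_swap
        apply Measurable.aemeasurable
        have m1 : Measurable fun p : ℂ × ℂ => A * h p.1 :=
          (hh.comp measurable_fst).const_mul A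
        have m2 : Measurable fun p : ℂ × ℂ => ψ p.2 ^ 2 * (h p.2)⁻¹ :=
          ((hψ.pow_const 2).mul hh.inv).comp measurable_snd
        exact m1.mul (hk.mul m2)
    _ ≤ ∫⁻ ζ, A * B * ψ ζ ^ 2 := by
        apply lintegral_mono_ae
        filter_upwards [hB, h0, htop] with ζ hζ h0 ht
        calc ∫⁻ z, A * h z * (k z ζ * (ψ ζ ^ 2 * (h ζ)⁻¹)) =
            ∫⁻ z, (A * (ψ ζ ^ 2 * (h ζ)⁻¹)) * (k z ζ * h z) := by
              congr 1
              funext z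
              ring
          _ = (A * (ψ ζ ^ 2 * (h ζ)⁻¹)) * ∫⁻ z, (k z ζ * h z) := by
              rw [lintegral_const_mul]
              exact (hkζ ζ).mul hh
          _ ≤ (A * (ψ ζ ^ 2 * (h ζ)⁻¹)) * (B * h ζ) := by gcongr
          _ = A * B * ψ ζ ^ 2 * (h ζ * (h ζ)⁻¹) := by ring
          _ = A * B * ψ ζ ^ 2 := by rw [ENNReal.mul_inv_cancel h0 ht, mul_one]
    _ = A * B * ∫⁻ ζ, ψ ζ ^ 2 := by
        rw [lintegral_const_mul _ (hψ.pow_const 2)]

/-- Change of variables `ζ = w * η`. -/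
lemma lintegral_mul_left {w : ℂ} (hw : w ≠ 0) {F : ℂ → ℝ≥0∞} (hF : Measurable F) :
    ∫⁻ ζ, F ζ = ENNReal.ofReal (‖w‖ ^ 2) * ∫⁻ η, F (w * η) := by
  let f : ℂ →ₗ[ℝ] ℂ := (Algebra.lmul ℝ ℂ) w
  have hdet : LinearMap.det f = ‖w‖ ^ 2 := by
    have h1 := Algebra.norm_apply ℝ w
    rw [Algebra.norm_complex_apply, Complex.normSq_eq_norm_sq] at h1
    exact h1.symm
  have hw0 : 0 < ‖w‖ := by simpa using hw
  have hdet0 : LinearMap.det f ≠ 0 := by
    rw [hdet]; positivity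
  have h1 := Measure.map_linearMap_addHaar_eq_smul_addHaar (volume : Measure ℂ) hdet0
  rw [hdet, abs_of_pos (by positivity)] at h1
  have hfm : Measurable (f : ℂ → ℂ) := by
    have : (f : ℂ → ℂ) = fun z => w * z := by
      funext z
      simp [f]
    rw [this]
    fun_prop
  have h2 : ∫⁻ η, F (w * η) = ∫⁻ ζ, F ζ ∂(Measure.map f volume) := by
    rw [lintegral_map hF hfm]
    congr 1
  rw [h2, h1, lintegral_smul_measure, smul_eq_mul, ← mul_assoc,
    ← ENNReal.ofReal_mul (by positivity), mul_inv_cancel₀ (by positivity), ENNReal.ofReal_one,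
    one_mul]

/-- The modulus of the commutator kernel. -/
noncomputable def kr (s : ℝ) (z ζ : ℂ) : ℝ :=
  1 / Real.pi * (‖z - ζ‖ ^ 2)⁻¹ * |‖ζ‖ ^ s * ‖z‖ ^ (-s) - 1|

lemma kr_nonneg (s : ℝ) (z ζ : ℂ) : 0 ≤ kr s z ζ := by
  unfold kr
  positivity

lemma measurable_kr (s : ℝ) : Measurable (Function.uncurry (kr s)) := by
  unfold kr Function.uncurry
  fun_prop

lemma kr_mul_right (s : ℝ) {z : ℂ} (hz : z ≠ 0) (η : ℂ) :
    kr s z (z * η) = (‖z‖ ^ 2)⁻¹ * kr s 1 η := by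
  have hz0 : 0 < ‖z‖ := by simpa using hz
  unfold kr
  have h1 : z - z * η = z * (1 - η) := by ring
  have h2 : ‖z * η‖ ^ s * ‖z‖ ^ (-s) = ‖η‖ ^ s := by
    rw [norm_mul, Real.mul_rpow hz0.le (norm_nonneg _), Real.rpow_neg hz0.le]
    have : ‖z‖ ^ s ≠ 0 := (Real.rpow_pos_of_pos hz0 s).ne'
    field_simp
  rw [h1, h2, norm_mul, norm_one, Real.one_rpow, mul_one, mul_pow, mul_inv]
  ring

lemma kr_mul_left (s : ℝ) {ζ : ℂ} (hζ : ζ ≠ 0) (η : ℂ) :
    kr s (ζ * η) ζ = (‖ζ‖ ^ 2)⁻¹ * kr (-s) 1 η := by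
  have hz0 : 0 < ‖ζ‖ := by simpa using hζ
  unfold kr
  have h1 : ‖ζ * η - ζ‖ = ‖ζ‖ * ‖1 - η‖ := by
    rw [← norm_neg, ← norm_mul]
    congr 1
    ring
  have h2 : ‖ζ‖ ^ s * ‖ζ * η‖ ^ (-s) = ‖η‖ ^ (-s) := by
    rw [norm_mul, Real.mul_rpow hz0.le (norm_nonneg _), Real.rpow_neg hz0.le]
    have : ‖ζ‖ ^ s ≠ 0 := (Real.rpow_pos_of_pos hz0 s).ne'
    field_simp
  rw [h1, h2, norm_one, Real.one_rpow, mul_one, mul_pow, mul_inv]
  ring

lemma rpow_sub_one_le {t x : ℝ} (ht : |t| < 1) (hx1 : 1 / 2 ≤ x) (hx2 : x ≤ 2) :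
    |x ^ t - 1| ≤ 4 * |x - 1| := by
  have h := Convex.norm_image_sub_le_of_norm_deriv_le (𝕜 := ℝ) (f := fun y : ℝ => y ^ t)
    (s := Icc (1 / 2 : ℝ) 2) (C := 4) (x := 1) (y := x) ?_ ?_ (convex_Icc _ _)
    (by constructor <;> norm_num) ⟨hx1, hx2⟩
  · simpa using h
  · intro y hy
    have hy0 : y ≠ 0 := by
      have := hy.1
      intro h
      rw [h] at this
      norm_num at this
    exact (Real.hasDerivAt_rpow_const (Or.inl hy0)).differentiableAt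
  · intro y hy
    have hy0 : 0 < y := by
      have := hy.1
      linarith
    rw [(Real.hasDerivAt_rpow_const (Or.inl hy0.ne')).deriv, norm_mul, Real.norm_eq_abs,
      Real.norm_of_nonneg (Real.rpow_nonneg hy0.le _)]
    have h1 : y ^ (t - 1) ≤ 4 := by
      have h2 : (y⁻¹) ^ (1 - t) ≤ 2 ^ (1 - t) := by
        apply Real.rpow_le_rpow (by positivity)
        · rw [inv_le_comm₀ hy0 (by norm_num)]
          linarith [hy.1]
        · have := (abs_lt.mp ht).2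
          linarith
      have h3 : (2 : ℝ) ^ (1 - t) ≤ 2 ^ (2 : ℝ) := by
        apply Real.rpow_le_rpow_of_exponent_le (by norm_num)
        have := (abs_lt.mp ht).1
        linarith
      have h4 : (y⁻¹) ^ (1 - t) = y ^ (t - 1) := by
        rw [Real.inv_rpow hy0.le, ← Real.rpow_neg hy0.le]
        ring_nf
      rw [h4] at h2
      norm_num at h3
      linarith
    have h5 : 0 ≤ y ^ (t - 1) := Real.rpow_nonneg hy0.le _
    nlinarith [abs_nonneg t]

/-- The finiteness of the Schur integrals. -/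
lemma lintegral_kr_lt_top {t : ℝ} (ht : |t| < 1) :
    ∫⁻ η : ℂ, ENNReal.ofReal (kr t 1 η * ‖η‖⁻¹) < ⊤ := by
  obtain ⟨ht1, ht2⟩ := abs_lt.mp ht
  have hi : Integrable (fun η : ℂ => kr t 1 η * ‖η‖⁻¹) := by
    have b1 : Integrable (fun η : ℂ => (Metric.ball (0 : ℂ) 1).indicator
        (fun η => 4 * (‖η‖ ^ (-(1 - t)) + ‖η‖ ^ (-(1 : ℝ)))) η) := by
      rw [integrable_indicator_iff Metric.isOpen_ball.measurableSet]
      exact ((integrableOn_norm_rpow_ball (by linarith) 1).add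
        (integrableOn_norm_rpow_ball (by linarith) 1)).const_mul _
    have b2 : Integrable (fun η : ℂ => ((Metric.ball (0 : ℂ) 1)ᶜ).indicator
        (fun η => 4 * (‖η‖ ^ (-(3 - t)) + ‖η‖ ^ (-(3 : ℝ)))) η) := by
      rw [integrable_indicator_iff Metric.isOpen_ball.measurableSet.compl]
      exact ((integrableOn_norm_rpow_compl_ball (by linarith) one_pos).add
        (integrableOn_norm_rpow_compl_ball (by linarith) one_pos)).const_mul _
    have b3 : Integrable (fun η : ℂ => (Metric.ball (0 : ℂ) 4).indicator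
        (fun η => 8 * ‖η‖ ^ (-(1 : ℝ))) (1 - η)) := by
      have : Integrable (fun η : ℂ => (Metric.ball (0 : ℂ) 4).indicator
        (fun η => 8 * ‖η‖ ^ (-(1 : ℝ))) η) := by
        rw [integrable_indicator_iff Metric.isOpen_ball.measurableSet]
        exact (integrableOn_norm_rpow_ball (by linarith) 4).const_mul _
      exact this.comp_sub_left 1
    apply ((b1.add b2).add b3).mono'
    · apply Measurable.aestronglyMeasurable
      apply Measurable.mul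
      · exact (measurable_kr t).of_uncurry_left
      · fun_prop
    · filter_upwards [ae_ne_zero] with η hη
      have hη0 : 0 < ‖η‖ := by simpa using hη
      have hpi : 1 / Real.pi ≤ 1 := by
        rw [div_le_one Real.pi_pos]
        linarith [Real.pi_gt_three]
      have hpi0 : 0 < 1 / Real.pi := by positivity
      rw [Real.norm_of_nonneg (mul_nonneg (kr_nonneg _ _ _) (by positivity))]
      simp only [Pi.add_apply]
      have n1 : 0 ≤ (Metric.ball (0 : ℂ) 1).indicator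
          (fun η => 4 * (‖η‖ ^ (-(1 - t)) + ‖η‖ ^ (-(1 : ℝ)))) η := by
        apply indicator_nonneg; intro _ _; positivity
      have n2 : 0 ≤ ((Metric.ball (0 : ℂ) 1)ᶜ).indicator
          (fun η => 4 * (‖η‖ ^ (-(3 - t)) + ‖η‖ ^ (-(3 : ℝ)))) η := by
        apply indicator_nonneg; intro _ _; positivity
      have n3 : 0 ≤ (Metric.ball (0 : ℂ) 4).indicator
          (fun η => 8 * ‖η‖ ^ (-(1 : ℝ))) (1 - η) := by
        apply indicator_nonneg; intro _ _; positivity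
      have habs : |‖η‖ ^ t - 1| ≤ ‖η‖ ^ t + 1 := by
        have := Real.rpow_nonneg hη0.le t
        rw [abs_le]
        constructor <;> linarith
      have hkr : kr t 1 η * ‖η‖⁻¹ =
          1 / Real.pi * ((‖1 - η‖ ^ 2)⁻¹ * |‖η‖ ^ t - 1| * ‖η‖⁻¹) := by
        unfold kr
        rw [norm_one, Real.one_rpow, mul_one]
        ring
      have hkr2 : kr t 1 η * ‖η‖⁻¹ ≤ (‖1 - η‖ ^ 2)⁻¹ * |‖η‖ ^ t - 1| * ‖η‖⁻¹ := by
        rw [hkr]
        apply mul_le_of_le_one_left (by positivity) hpi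
      rcases lt_or_ge ‖η‖ (1 / 2) with hc | hc
      · -- near zero
        have e1 : (Metric.ball (0 : ℂ) 1).indicator
          (fun η => 4 * (‖η‖ ^ (-(1 - t)) + ‖η‖ ^ (-(1 : ℝ)))) η =
          4 * (‖η‖ ^ (-(1 - t)) + ‖η‖ ^ (-(1 : ℝ))) := by
          apply indicator_of_mem
          rw [mem_ball_zero_iff]
          linarith
        have h1 : 1 / 2 ≤ ‖1 - η‖ := by
          have : ‖(1 : ℂ)‖ ≤ ‖1 - η‖ + ‖η‖ := by
            calc ‖(1 : ℂ)‖ = ‖(1 - η) + η‖ := by ring_nf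
              _ ≤ _ := norm_add_le _ _
          rw [norm_one] at this
          linarith
        have h2 : (‖1 - η‖ ^ 2)⁻¹ ≤ 4 := by
          rw [inv_le_comm₀ (by positivity) (by norm_num)]
          nlinarith
        have h3 : (‖1 - η‖ ^ 2)⁻¹ * |‖η‖ ^ t - 1| * ‖η‖⁻¹ ≤ 4 * (‖η‖ ^ t + 1) * ‖η‖⁻¹ := by
          gcongr
        have h4 : 4 * (‖η‖ ^ t + 1) * ‖η‖⁻¹ = 4 * (‖η‖ ^ (-(1 - t)) + ‖η‖ ^ (-(1 : ℝ))) := by
          have : ‖η‖ ^ (-(1 - t)) = ‖η‖ ^ t * ‖η‖⁻¹ := by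
            rw [← Real.rpow_neg_one, ← Real.rpow_add hη0]
            ring_nf
          rw [this, Real.rpow_neg_one]
          ring
        rw [e1]
        linarith
      · rcases le_or_gt ‖η‖ 2 with hc2 | hc2
        · -- near one
          have h1 : ‖1 - η‖ < 4 := by
            calc ‖1 - η‖ ≤ ‖(1 : ℂ)‖ + ‖η‖ := norm_sub_le _ _
              _ < 4 := by rw [norm_one]; linarith
          have e3 : (Metric.ball (0 : ℂ) 4).indicator
              (fun η => 8 * ‖η‖ ^ (-(1 : ℝ))) (1 - η) = 8 * ‖1 - η‖ ^ (-(1 : ℝ)) := by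
            apply indicator_of_mem
            rwa [mem_ball_zero_iff]
          have h2 : |‖η‖ ^ t - 1| ≤ 4 * ‖1 - η‖ := by
            refine (rpow_sub_one_le ht hc hc2).trans ?_
            gcongr
            have := abs_norm_sub_norm_le η 1
            rw [norm_one] at this
            rwa [norm_sub_rev]
          have h3 : ‖η‖⁻¹ ≤ 2 := by
            rw [inv_le_comm₀ hη0 (by norm_num)]
            linarith
          have h4 : (‖1 - η‖ ^ 2)⁻¹ * |‖η‖ ^ t - 1| * ‖η‖⁻¹ ≤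
              (‖1 - η‖ ^ 2)⁻¹ * (4 * ‖1 - η‖) * 2 := by
            gcongr
          have h5 : (‖1 - η‖ ^ 2)⁻¹ * (4 * ‖1 - η‖) * 2 = 8 * ‖1 - η‖ ^ (-(1 : ℝ)) := by
            rw [Real.rpow_neg_one]
            rcases eq_or_ne ‖1 - η‖ 0 with h0 | h0
            · rw [h0]; norm_num
            · field_simp
              norm_num
          rw [e3]
          linarith
        · -- near infinity
          have e2 : ((Metric.ball (0 : ℂ) 1)ᶜ).indicator
              (fun η => 4 * (‖η‖ ^ (-(3 - t)) + ‖η‖ ^ (-(3 : ℝ)))) η =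
              4 * (‖η‖ ^ (-(3 - t)) + ‖η‖ ^ (-(3 : ℝ))) := by
            apply indicator_of_mem
            rw [mem_compl_iff, mem_ball_zero_iff]
            linarith
          have h1 : ‖η‖ / 2 ≤ ‖1 - η‖ := by
            have : ‖η‖ ≤ ‖1 - η‖ + ‖(1 : ℂ)‖ := by
              calc ‖η‖ = ‖-(1 - η) + 1‖ := by ring_nf
                _ ≤ ‖-(1 - η)‖ + ‖(1 : ℂ)‖ := norm_add_le _ _
                _ = _ := by rw [norm_neg]
            rw [norm_one] at this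
            linarith
          have h10 : 0 < ‖1 - η‖ := by linarith
          have h2 : (‖1 - η‖ ^ 2)⁻¹ ≤ 4 * (‖η‖ ^ 2)⁻¹ := by
            rw [inv_le_comm₀ (by positivity) (by positivity), mul_inv, inv_inv]
            nlinarith
          have h3 : (‖1 - η‖ ^ 2)⁻¹ * |‖η‖ ^ t - 1| * ‖η‖⁻¹ ≤
              4 * (‖η‖ ^ 2)⁻¹ * (‖η‖ ^ t + 1) * ‖η‖⁻¹ := by
            gcongr
          have h4 : 4 * (‖η‖ ^ 2)⁻¹ * (‖η‖ ^ t + 1) * ‖η‖⁻¹ =
              4 * (‖η‖ ^ (-(3 - t)) + ‖η‖ ^ (-(3 : ℝ))) := by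
            have e5 : ‖η‖ ^ (-(3 : ℝ)) = (‖η‖ ^ 2)⁻¹ * ‖η‖⁻¹ := by
              rw [Real.rpow_neg hη0.le, ← mul_inv, ← pow_succ]
              norm_cast
            have : ‖η‖ ^ (-(3 - t)) = ‖η‖ ^ t * ((‖η‖ ^ 2)⁻¹ * ‖η‖⁻¹) := by
              rw [← e5, ← Real.rpow_add hη0]
              ring_nf
            rw [this, e5]
            ring
          rw [e2]
          linarith
  exact hi.lintegral_lt_top

end Pool.Agent.Lib.MP_c984ee_an
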