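import Pool.Agent.Lib.MP_c984ee_an.Limits

open MeasureTheory Filter Topology Complex Set
open scoped ENNReal NNReal ContDiff ComplexConjugate

namespace Pool.Agent.Lib.MP_c984ee_an

/-- The Beurling transform of a nice function, through the principal value. -/
noncomputable def bt (f : ℂ → ℂ) (z : ℂ) : ℂ :=
  -(1 / (Real.pi : ℂ)) * pv (fun η => f (z - η))

lemma contDiff_shift {f : ℂ → ℂ} {n : WithTop ℕ∞} (hf : ContDiff ℝ n f) (z : ℂ) :
    ContDiff ℝ n (fun η => f (z - η)) := hf.comp (contDiff_const.sub contDiff_id)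

lemma hasCompactSupport_shift {f : ℂ → ℂ} (hc : HasCompactSupport f) (z : ℂ) :
    HasCompactSupport (fun η => f (z - η)) := by
  have := hc.comp_homeomorph (Homeomorph.subLeft z)
  exact this

lemma hasFDerivAt_shift {f : ℂ → ℂ} (hf : ContDiff ℝ 1 f) (z η : ℂ) :
    HasFDerivAt (fun η => f (z - η)) (-(fderiv ℝ f (z - η))) η := by
  have h1 : HasFDerivAt (fun η : ℂ => z - η) (-(ContinuousLinearMap.id ℝ ℂ)) η := by
    simpa using (hasFDerivAt_id η).const_sub z
  have h2 := ((hf.differentiable (by norm_num)) (z - η)).hasFDerivAt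
  have h3 := h2.comp η h1
  have h4 : fderiv ℝ f (z - η) ∘SL (-(ContinuousLinearMap.id ℝ ℂ)) = -(fderiv ℝ f (z - η)) := by
    ext v
    simp
  rw [h4] at h3
  exact h3

lemma dzbar_shift {f : ℂ → ℂ} (hf : ContDiff ℝ 1 f) (z η : ℂ) :
    dzbar (fun η => f (z - η)) η = - dzbar f (z - η) := by
  unfold dzbar
  rw [(hasFDerivAt_shift hf z η).fderiv]
  simp only [neg_apply]
  ring

lemma dz_shift {f : ℂ → ℂ} (hf : ContDiff ℝ 1 f) (z η : ℂ) :
    dz (fun η => f (z - η)) η = - dz f (z - η) := by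
  unfold dz
  rw [(hasFDerivAt_shift hf z η).fderiv]
  simp only [neg_apply]
  ring

lemma tendsto_truncBeurling {f : ℂ → ℂ} (hf : ContDiff ℝ 1 f) (hc : HasCompactSupport f) (z : ℂ) :
    Tendsto (fun ε : ℝ => truncBeurling f ε z) (𝓝[>] 0) (𝓝 (bt f z)) := by
  have hg := contDiff_shift hf z
  have hgc := hasCompactSupport_shift hc z
  obtain ⟨L, hL⟩ := hg.lipschitzWith_of_hasCompactSupport hgc (by norm_num)
  have h1 := (tendsto_pv hg.continuous hgc hL).const_mul (-(1 / (Real.pi : ℂ)))
  have h2 : ∀ ε : ℝ, truncBeurling f ε z =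
      -(1 / (Real.pi : ℂ)) * ∫ η in {η : ℂ | ε < ‖η‖}, f (z - η) / η ^ 2 := by
    intro ε
    unfold truncBeurling
    congr 1
    have hm1 : MeasurableSet {ζ : ℂ | ε < ‖z - ζ‖} :=
      measurableSet_lt measurable_const (by fun_prop)
    have hm2 : MeasurableSet {ζ : ℂ | ε < ‖ζ‖} :=
      measurableSet_lt measurable_const (by fun_prop)
    rw [← integral_indicator hm1, ← integral_indicator hm2,
      ← integral_sub_left_eq_self _ _ z]
    congr 1
    funext η
    by_cases h : ε < ‖η‖
    · rw [indicator_of_mem (by simpa using h), indicator_of_mem (by simpa using h)]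
      simp
    · rw [indicator_of_notMem (by simpa using h), indicator_of_notMem (by simpa using h)]
  simp_rw [h2]
  exact h1

/-- The Cauchy transform. -/
noncomputable def cau (f : ℂ → ℂ) (z : ℂ) : ℂ :=
  (1 / (Real.pi : ℂ)) * ∫ η, f (z - η) / η

lemma locallyIntegrable_inv : LocallyIntegrable (fun η : ℂ => η⁻¹) := by
  rw [locallyIntegrable_iff]
  intro K hK
  obtain ⟨R, hR⟩ := hK.isBounded.subset_ball 0
  have h1 : IntegrableOn (fun z : ℂ => ‖z‖ ^ (-(1 : ℝ))) (Metric.ball 0 R) :=
    integrableOn_norm_rpow_ball (by norm_num) R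
  have h2 := h1.mono_set hR
  apply h2.mono'
  · apply Measurable.aestronglyMeasurable
    fun_prop
  · filter_upwards with z
    rw [norm_inv, Real.rpow_neg_one]

lemma cau_eq (f : ℂ → ℂ) : cau f = fun z => (1 / (Real.pi : ℂ)) *
    convolution (fun η : ℂ => η⁻¹) f (ContinuousLinearMap.mul ℝ ℂ) volume z := by
  funext z
  unfold cau convolution
  congr 2
  funext η
  simp only [ContinuousLinearMap.mul_apply']
  rw [div_eq_mul_inv, mul_comm]

lemma contDiff_cau {f : ℂ → ℂ} {n : ℕ∞} (hf : ContDiff ℝ n f) (hc : HasCompactSupport f) :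
    ContDiff ℝ n (cau f) := by
  rw [cau_eq]
  exact contDiff_const.mul (hc.contDiff_convolution_right _ locallyIntegrable_inv hf)

lemma fderiv_cau {f : ℂ → ℂ} (hf : ContDiff ℝ 1 f) (hc : HasCompactSupport f) (z v : ℂ) :
    fderiv ℝ (cau f) z v = (1 / (Real.pi : ℂ)) * ∫ η, fderiv ℝ f (z - η) v / η := by
  rw [cau_eq]
  have h1 := (hc.hasFDerivAt_convolution_right (ContinuousLinearMap.mul ℝ ℂ)
    locallyIntegrable_inv hf z).const_mul (1 / (Real.pi : ℂ))
  rw [h1.fderiv]
  simp only [smul_apply, smul_eq_mul]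
  congr 1
  rw [convolution_precompR_apply (ContinuousLinearMap.mul ℝ ℂ) locallyIntegrable_inv (hc.fderiv ℝ)
    (hf.continuous_fderiv (by norm_num))]
  unfold convolution
  congr 1
  funext η
  simp only [ContinuousLinearMap.mul_apply']
  rw [div_eq_mul_inv, mul_comm]

lemma integrable_fderiv_div {f : ℂ → ℂ} (hf : ContDiff ℝ 1 f) (hc : HasCompactSupport f)
    (z v : ℂ) : Integrable (fun η => fderiv ℝ f (z - η) v / η) := by
  have h1 : Continuous fun η => fderiv ℝ f (z - η) v :=
    ((hf.continuous_fderiv (by norm_num)).comp (continuous_const.sub continuous_id)).clm_apply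
      continuous_const
  have h2 : HasCompactSupport fun η => fderiv ℝ f (z - η) v :=
    hasCompactSupport_shift (f := fun η => fderiv ℝ f η v) (hc.fderiv_apply ℝ v) z
  apply (integrable_norm_div h1 h2).mono'
  · apply Measurable.aestronglyMeasurable
    exact h1.measurable.div measurable_id
  · filter_upwards with η
    rw [norm_div, div_eq_mul_inv]

lemma dzbar_cau {f : ℂ → ℂ} (hf : ContDiff ℝ 1 f) (hc : HasCompactSupport f) (z : ℂ) :
    dzbar (cau f) z = f z := by
  have h0 : dzbar (cau f) z = (1 / (Real.pi : ℂ)) * ∫ η, dzbar f (z - η) / η := by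
    unfold dzbar
    rw [fderiv_cau hf hc, fderiv_cau hf hc]
    have h1 : (fun η => (fderiv ℝ f (z - η) 1 + I * fderiv ℝ f (z - η) I) / 2 / η) =
        fun η => (1 / 2) * (fderiv ℝ f (z - η) 1 / η + I * (fderiv ℝ f (z - η) I / η)) := by
      funext η; ring
    rw [h1, integral_const_mul, integral_add (integrable_fderiv_div hf hc z 1)
      ((integrable_fderiv_div hf hc z I).const_mul I), integral_const_mul]
    ring
  have h2 := integral_dzbar_div (contDiff_shift hf z) (hasCompactSupport_shift hc z)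
  have h3 : (fun η => dzbar (fun η => f (z - η)) η / η) = fun η => - (dzbar f (z - η) / η) := by
    funext η
    rw [dzbar_shift hf]; ring
  rw [h3, integral_neg] at h2
  rw [h0, neg_inj.mp h2]
  have hpi : (Real.pi : ℂ) ≠ 0 := by exact_mod_cast Real.pi_ne_zero
  field_simp
  simp

lemma dz_cau {f : ℂ → ℂ} (hf : ContDiff ℝ 1 f) (hc : HasCompactSupport f) (z : ℂ) :
    dz (cau f) z = bt f z := by
  have h0 : dz (cau f) z = (1 / (Real.pi : ℂ)) * ∫ η, dz f (z - η) / η := by
    unfold dz
    rw [fderiv_cau hf hc, fderiv_cau hf hc]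
    have h1 : (fun η => (fderiv ℝ f (z - η) 1 - I * fderiv ℝ f (z - η) I) / 2 / η) =
        fun η => (1 / 2) * (fderiv ℝ f (z - η) 1 / η - I * (fderiv ℝ f (z - η) I / η)) := by
      funext η; ring
    rw [h1, integral_const_mul, integral_sub (integrable_fderiv_div hf hc z 1)
      ((integrable_fderiv_div hf hc z I).const_mul I), integral_const_mul]
    ring
  have h2 := integral_dz_div (contDiff_shift hf z) (hasCompactSupport_shift hc z)
  have h3 : (fun η => dz (fun η => f (z - η)) η / η) = fun η => - (dz f (z - η) / η) := by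
    funext η
    rw [dz_shift hf]; ring
  rw [h3, integral_neg] at h2
  rw [h0, bt, ← h2]
  ring

/-- Cauchy-Pompeiu: a compactly supported function is the Cauchy transform of its
`∂/∂z̄` derivative. -/
lemma cau_dzbar {f : ℂ → ℂ} (hf : ContDiff ℝ 1 f) (hc : HasCompactSupport f) (z : ℂ) :
    cau (dzbar f) z = f z := by
  have h2 := integral_dzbar_div (contDiff_shift hf z) (hasCompactSupport_shift hc z)
  have h3 : (fun η => dzbar (fun η => f (z - η)) η / η) = fun η => - (dzbar f (z - η) / η) := by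
    funext η
    rw [dzbar_shift hf]; ring
  rw [h3, integral_neg] at h2
  unfold cau
  rw [neg_inj.mp h2]
  have hpi : (Real.pi : ℂ) ≠ 0 := by exact_mod_cast Real.pi_ne_zero
  field_simp
  simp

lemma contDiff_dzbar {f : ℂ → ℂ} (hf : ContDiff ℝ ∞ f) : ContDiff ℝ ∞ (dzbar f) := by
  unfold dzbar
  have h : ContDiff ℝ ∞ (fderiv ℝ f) := hf.fderiv_right (by exact_mod_cast le_rfl)
  have h2 : ∀ v, ContDiff ℝ ∞ fun η => fderiv ℝ f η v := fun v => h.clm_apply contDiff_const
  exact ((h2 1).add (contDiff_const.mul (h2 I))).div_const 2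

lemma contDiff_dz {f : ℂ → ℂ} (hf : ContDiff ℝ ∞ f) : ContDiff ℝ ∞ (dz f) := by
  unfold dz
  have h : ContDiff ℝ ∞ (fderiv ℝ f) := hf.fderiv_right (by exact_mod_cast le_rfl)
  have h2 : ∀ v, ContDiff ℝ ∞ fun η => fderiv ℝ f η v := fun v => h.clm_apply contDiff_const
  exact ((h2 1).sub (contDiff_const.mul (h2 I))).div_const 2

/-- The Beurling transform maps `∂φ/∂z̄` to `∂φ/∂z`. -/
lemma bt_dzbar {f : ℂ → ℂ} (hf : ContDiff ℝ ∞ f) (hc : HasCompactSupport f) (z : ℂ) :
    bt (dzbar f) z = dz f z := by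
  have h1 : ContDiff ℝ 1 (dzbar f) := (contDiff_dzbar hf).of_le (by exact_mod_cast le_top)
  have hf1 : ContDiff ℝ 1 f := hf.of_le (by exact_mod_cast le_top)
  rw [← dz_cau h1 (hasCompactSupport_dzbar hc)]
  have : cau (dzbar f) = f := by
    funext w
    exact cau_dzbar hf1 hc w
  rw [this]

end Pool.Agent.Lib.MP_c984ee_an
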