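import Pool.Agent.Lib.MP_c984ee_an.Operator

open MeasureTheory Filter Topology Complex Set
open scoped ENNReal NNReal ContDiff ComplexConjugate

namespace Pool.Agent.Lib.MP_c984ee_an

lemma locallyIntegrable_pw {α : ℝ} (h2 : α < 2) : LocallyIntegrable (pw α) := by
  rw [locallyIntegrable_iff]
  intro K hK
  obtain ⟨R, hR⟩ := hK.isBounded.subset_ball 0
  exact (integrableOn_norm_rpow_ball h2 R).mono_set hR

lemma square_subset {c u : ℂ} (hu : ‖u‖ = 1) (l : ℝ) :
    square c u l ⊆ Metric.closedBall c (2 * l) := by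
  rintro z ⟨h1, h2⟩
  rw [Metric.mem_closedBall, dist_eq_norm]
  have h3 : ‖z - c‖ = ‖u * (z - c)‖ := by rw [norm_mul, hu, one_mul]
  rw [h3]
  refine (Complex.norm_le_abs_re_add_abs_im _).trans ?_
  linarith

lemma subset_square {c u : ℂ} (hu : ‖u‖ = 1) (l : ℝ) :
    Metric.closedBall c l ⊆ square c u l := by
  intro z hz
  rw [Metric.mem_closedBall, dist_eq_norm] at hz
  have h3 : ‖z - c‖ = ‖u * (z - c)‖ := by rw [norm_mul, hu, one_mul]
  rw [h3] at hz
  exact ⟨(Complex.abs_re_le_norm _).trans hz, (Complex.abs_im_le_norm _).trans hz⟩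

lemma measurableSet_square (c u : ℂ) (l : ℝ) : MeasurableSet (square c u l) := by
  have h1 : MeasurableSet {z : ℂ | |(u * (z - c)).re| ≤ l} :=
    measurableSet_le (by fun_prop) (by fun_prop)
  have h2 : MeasurableSet {z : ℂ | |(u * (z - c)).im| ≤ l} :=
    measurableSet_le (by fun_prop) (by fun_prop)
  exact h1.inter h2

lemma volume_square_ge {c u : ℂ} (hu : ‖u‖ = 1) {l : ℝ} (hl : 0 < l) :
    ENNReal.ofReal (l ^ 2) ≤ volume (square c u l) := by
  refine le_trans ?_ (measure_mono (subset_square hu l))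
  rw [Complex.volume_closedBall, ENNReal.ofReal_pow hl.le]
  have h1 : (1 : ℝ≥0∞) ≤ (NNReal.pi : ℝ≥0∞) := by
    have : (1 : ℝ≥0) ≤ NNReal.pi := by
      rw [← NNReal.coe_le_coe, NNReal.coe_real_pi]
      norm_num
      linarith [Real.pi_gt_three]
    exact_mod_cast this
  calc ENNReal.ofReal l ^ 2 = ENNReal.ofReal l ^ 2 * 1 := by rw [mul_one]
    _ ≤ _ := by gcongr

lemma volume_square_ne_top {c u : ℂ} (hu : ‖u‖ = 1) (l : ℝ) :
    volume (square c u l) ≠ ⊤ := by
  refine ((measure_mono (square_subset hu l)).trans_lt ?_).ne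
  rw [Complex.volume_closedBall]
  finiteness

lemma avg_le {c u : ℂ} {l : ℝ} {g : ℂ → ℝ≥0∞} {M : ℝ≥0∞}
    (h : ∀ z ∈ square c u l, g z ≤ M) :
    (∫⁻ z in square c u l, g z) / volume (square c u l) ≤ M := by
  apply ENNReal.div_le_of_le_mul
  calc ∫⁻ z in square c u l, g z ≤ ∫⁻ _ in square c u l, M :=
        setLIntegral_mono_ae' (measurableSet_square c u l) (by
          filter_upwards with z hz using h z hz)
    _ = M * volume (square c u l) := by rw [setLIntegral_const]

lemma scaled_ball (α : ℝ) {R : ℝ} (hR : 0 < R) :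
    ∫⁻ z in Metric.ball (0 : ℂ) R, ENNReal.ofReal (pw α z) =
      ENNReal.ofReal (R ^ (2 - α)) * ∫⁻ z in Metric.ball (0 : ℂ) 1, ENNReal.ofReal (pw α z) := by
  have hR0 : (R : ℂ) ≠ 0 := by exact_mod_cast hR.ne'
  rw [← lintegral_indicator Metric.isOpen_ball.measurableSet,
    ← lintegral_indicator Metric.isOpen_ball.measurableSet,
    lintegral_mul_left hR0 ((measurable_pw α).ennreal_ofReal.indicator
      Metric.isOpen_ball.measurableSet)]
  have e2 : ∀ η, (Metric.ball (0 : ℂ) R).indicator (fun z => ENNReal.ofReal (pw α z)) (R * η) =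
      ENNReal.ofReal (R ^ (-α)) *
        (Metric.ball (0 : ℂ) 1).indicator (fun z => ENNReal.ofReal (pw α z)) η := by
    intro η
    have hn : ‖(R : ℂ) * η‖ = R * ‖η‖ := by
      rw [norm_mul, Complex.norm_real, Real.norm_of_nonneg hR.le]
    have h4 : (R : ℂ) * η ∈ Metric.ball (0 : ℂ) R ↔ η ∈ Metric.ball (0 : ℂ) 1 := by
      rw [mem_ball_zero_iff, mem_ball_zero_iff, hn]
      constructor
      · intro h
        by_contra h'
        push Not at h'
        nlinarith
      · intro h
        nlinarith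
    by_cases h : η ∈ Metric.ball (0 : ℂ) 1
    · rw [indicator_of_mem h, indicator_of_mem (h4.mpr h), ← ENNReal.ofReal_mul (by positivity)]
      congr 1
      unfold pw
      rw [hn, Real.mul_rpow hR.le (norm_nonneg _)]
    · rw [indicator_of_notMem h, indicator_of_notMem (fun h' => h (h4.mp h')), mul_zero]
  simp_rw [e2]
  rw [lintegral_const_mul' _ _ ENNReal.ofReal_ne_top, ← mul_assoc,
    ← ENNReal.ofReal_mul (by positivity), Complex.norm_real, Real.norm_of_nonneg hR.le]
  congr 2
  rw [← Real.rpow_natCast, ← Real.rpow_add hR]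
  congr 1

/-- `|z|^{-α}` is a Muckenhoupt `A_p` weight for every `p > 1` and `0 ≤ α < 2`. -/
theorem isMuckenhouptWeight_pw {α : ℝ} (h0 : 0 ≤ α) (h2 : α < 2) {p : ℝ} (hp : 1 < p) :
    IsMuckenhouptWeight p (fun z => ‖z‖ ^ (-α)) := by
  have hp1 : 0 < p - 1 := by linarith
  refine ⟨locallyIntegrable_pw h2, ?_, ?_⟩
  · filter_upwards [ae_ne_zero] with z hz
    have : 0 < ‖z‖ := by simpa using hz
    positivity
  set A0 : ℝ≥0∞ := ∫⁻ z in Metric.ball (0 : ℂ) 1, ENNReal.ofReal (pw α z) with hA0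
  have hA0t : A0 ≠ ⊤ := (integrableOn_norm_rpow_ball h2 1).lintegral_lt_top.ne
  have hCt : ENNReal.ofReal (3 ^ α) + 49 * A0 ≠ ⊤ := by finiteness
  refine ⟨(ENNReal.ofReal (3 ^ α) + 49 * A0).toNNReal, ?_⟩
  intro c u l hu hl
  rw [ENNReal.coe_toNNReal hCt]
  have hβ : 0 ≤ α / (p - 1) := by positivity
  have hpow : ∀ z : ℂ, (‖z‖ ^ (-α)) ^ (-1 / (p - 1)) = ‖z‖ ^ (α / (p - 1)) := by
    intro z
    rw [← Real.rpow_mul (norm_nonneg _)]
    congr 1
    field_simp
  simp_rw [hpow]
  -- the second average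
  have second : ∀ R : ℝ, 0 < R → (∀ z ∈ square c u l, ‖z‖ ≤ R) →
      ((∫⁻ z in square c u l, ENNReal.ofReal (‖z‖ ^ (α / (p - 1)))) /
        volume (square c u l)) ^ (p - 1) ≤ ENNReal.ofReal (R ^ α) := by
    intro R hR hz
    have e1 : (ENNReal.ofReal (R ^ (α / (p - 1)))) ^ (p - 1) = ENNReal.ofReal (R ^ α) := by
      rw [ENNReal.ofReal_rpow_of_nonneg (by positivity) hp1.le, ← Real.rpow_mul hR.le]
      congr 2
      field_simp
    rw [← e1]
    apply ENNReal.rpow_le_rpow _ hp1.le
    apply avg_le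
    intro z hzQ
    apply ENNReal.ofReal_le_ofReal
    exact Real.rpow_le_rpow (norm_nonneg _) (hz z hzQ) hβ
  have hcz : ∀ z ∈ square c u l, ‖z - c‖ ≤ 2 * l := by
    intro z hz
    have := square_subset hu l hz
    rwa [Metric.mem_closedBall, dist_eq_norm] at this
  rcases le_or_gt (4 * l) ‖c‖ with hc | hc
  · -- far from the origin
    have hc0 : 0 < ‖c‖ := by linarith
    have hlow : ∀ z ∈ square c u l, ‖c‖ / 2 ≤ ‖z‖ := by
      intro z hz
      have h1 := hcz z hz
      have h3 : ‖c‖ ≤ ‖z - c‖ + ‖z‖ := by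
        calc ‖c‖ = ‖-(z - c) + z‖ := by ring_nf
          _ ≤ ‖-(z - c)‖ + ‖z‖ := norm_add_le _ _
          _ = _ := by rw [norm_neg]
      linarith
    have hupp : ∀ z ∈ square c u l, ‖z‖ ≤ 3 * (‖c‖ / 2) := by
      intro z hz
      have h1 := hcz z hz
      have h3 : ‖z‖ ≤ ‖z - c‖ + ‖c‖ := by
        calc ‖z‖ = ‖(z - c) + c‖ := by ring_nf
          _ ≤ ‖(z - c)‖ + ‖c‖ := norm_add_le _ _
      linarith
    have first : (∫⁻ z in square c u l, ENNReal.ofReal (‖z‖ ^ (-α))) / volume (square c u l) ≤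
        ENNReal.ofReal ((‖c‖ / 2) ^ (-α)) := by
      apply avg_le
      intro z hz
      apply ENNReal.ofReal_le_ofReal
      exact Real.rpow_le_rpow_of_nonpos (by positivity) (hlow z hz) (by linarith)
    calc _ ≤ ENNReal.ofReal ((‖c‖ / 2) ^ (-α)) * ENNReal.ofReal ((3 * (‖c‖ / 2)) ^ α) := by
          gcongr
          exact second _ (by positivity) hupp
      _ = ENNReal.ofReal (3 ^ α) := by
          rw [← ENNReal.ofReal_mul (by positivity), Real.mul_rpow (by norm_num) (by positivity),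
            Real.rpow_neg (by positivity)]
          congr 1
          have : (‖c‖ / 2) ^ α ≠ 0 := by positivity
          field_simp
      _ ≤ _ := le_self_add
  · -- near the origin
    have hupp : ∀ z ∈ square c u l, ‖z‖ < 7 * l := by
      intro z hz
      have h1 := hcz z hz
      have h3 : ‖z‖ ≤ ‖z - c‖ + ‖c‖ := by
        calc ‖z‖ = ‖(z - c) + c‖ := by ring_nf
          _ ≤ ‖(z - c)‖ + ‖c‖ := norm_add_le _ _
      linarith
    have first : (∫⁻ z in square c u l, ENNReal.ofReal (‖z‖ ^ (-α))) / volume (square c u l) ≤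
        ENNReal.ofReal ((7 * l) ^ (-α)) * (49 * A0) := by
      have h1 : ∫⁻ z in square c u l, ENNReal.ofReal (‖z‖ ^ (-α)) ≤
          ENNReal.ofReal ((7 * l) ^ (2 - α)) * A0 := by
        rw [hA0, ← scaled_ball α (by positivity)]
        apply lintegral_mono_set
        intro z hz
        rw [mem_ball_zero_iff]
        exact hupp z hz
      calc _ ≤ (ENNReal.ofReal ((7 * l) ^ (2 - α)) * A0) / ENNReal.ofReal (l ^ 2) :=
            ENNReal.div_le_div h1 (volume_square_ge hu hl)
        _ = ENNReal.ofReal ((7 * l) ^ (-α)) * (49 * A0) := by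
            have e1 : (7 * l) ^ (2 - α) = (7 * l) ^ (-α) * 49 * l ^ 2 := by
              have : 2 - α = -α + ((2 : ℕ) : ℝ) := by push_cast; ring
              rw [this, Real.rpow_add (by positivity), Real.rpow_natCast]
              ring
            have e2 : ENNReal.ofReal (l ^ 2) ≠ 0 := by
              rw [ENNReal.ofReal_ne_zero_iff]
              positivity
            rw [e1, ENNReal.ofReal_mul (by positivity), ENNReal.ofReal_mul (by positivity),
              mul_assoc, mul_comm (ENNReal.ofReal (l ^ 2)) A0, ← mul_assoc, ← mul_assoc,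
              ENNReal.mul_div_cancel_right e2 ENNReal.ofReal_ne_top]
            norm_num
    calc _ ≤ ENNReal.ofReal ((7 * l) ^ (-α)) * (49 * A0) * ENNReal.ofReal ((7 * l) ^ α) := by
          gcongr
          exact second _ (by positivity) (fun z hz => (hupp z hz).le)
      _ = ENNReal.ofReal ((7 * l) ^ (-α) * (7 * l) ^ α) * (49 * A0) := by
          rw [ENNReal.ofReal_mul (by positivity)]
          ring
      _ = 49 * A0 := by
          rw [← Real.rpow_add (by positivity)]
          simp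
      _ ≤ _ := le_add_self

end Pool.Agent.Lib.MP_c984ee_an
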