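import Pool.Agent.Lib.MP_c984ee_an.Schur

open MeasureTheory Filter Topology Complex Set
open scoped ENNReal NNReal ContDiff ComplexConjugate

namespace Pool.Agent.Lib.MP_c984ee_an

/-- Schur constant -/
noncomputable def sc (t : ℝ) : ℝ≥0∞ := ∫⁻ η : ℂ, ENNReal.ofReal (kr t 1 η * ‖η‖⁻¹)

lemma schur_kr (s : ℝ) {ψ : ℂ → ℝ≥0∞} (hψ : Measurable ψ) :
    ∫⁻ z, (∫⁻ ζ, ENNReal.ofReal (kr s z ζ) * ψ ζ) ^ 2 ≤ sc s * sc (-s) * ∫⁻ ζ, ψ ζ ^ 2 := by
  have hh : Measurable fun z : ℂ => ENNReal.ofReal ‖z‖⁻¹ := by fun_prop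
  have hkm : Measurable (Function.uncurry fun z ζ : ℂ => ENNReal.ofReal (kr s z ζ)) :=
    (measurable_kr s).ennreal_ofReal
  apply schur (k := fun z ζ => ENNReal.ofReal (kr s z ζ)) (h := fun z => ENNReal.ofReal ‖z‖⁻¹)
    (measurable_kr s).ennreal_ofReal hh
  · filter_upwards [ae_ne_zero] with z hz
    have : 0 < ‖z‖ := by simpa using hz
    have h2 : 0 < ENNReal.ofReal ‖z‖⁻¹ := ENNReal.ofReal_pos.mpr (by positivity)
    exact h2.ne'
  · filter_upwards with z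
    exact ENNReal.ofReal_ne_top
  · filter_upwards [ae_ne_zero] with z hz
    have hz0 : 0 < ‖z‖ := by simpa using hz
    have hl := lintegral_mul_left hz
      (F := fun ζ => ENNReal.ofReal (kr s z ζ) * ENNReal.ofReal ‖ζ‖⁻¹)
      ((hkm.of_uncurry_left (x := z)).mul hh)
    rw [hl]
    have : ∀ η : ℂ, ENNReal.ofReal (kr s z (z * η)) * ENNReal.ofReal ‖z * η‖⁻¹ =
        ENNReal.ofReal ((‖z‖ ^ 2)⁻¹ * ‖z‖⁻¹) * ENNReal.ofReal (kr s 1 η * ‖η‖⁻¹) := by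
      intro η
      rw [← ENNReal.ofReal_mul (kr_nonneg _ _ _), ← ENNReal.ofReal_mul (by positivity),
        kr_mul_right s hz, norm_mul, mul_inv]
      congr 1
      ring
    simp_rw [this]
    rw [lintegral_const_mul' _ _ ENNReal.ofReal_ne_top, ← mul_assoc,
      ← ENNReal.ofReal_mul (by positivity)]
    have h3 : ‖z‖ ^ 2 * ((‖z‖ ^ 2)⁻¹ * ‖z‖⁻¹) = ‖z‖⁻¹ := by field_simp
    rw [h3, mul_comm]
    rfl
  · filter_upwards [ae_ne_zero] with ζ hζ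
    have hz0 : 0 < ‖ζ‖ := by simpa using hζ
    have hl := lintegral_mul_left hζ
      (F := fun z => ENNReal.ofReal (kr s z ζ) * ENNReal.ofReal ‖z‖⁻¹)
      ((hkm.of_uncurry_right (y := ζ)).mul hh)
    rw [hl]
    have : ∀ η : ℂ, ENNReal.ofReal (kr s (ζ * η) ζ) * ENNReal.ofReal ‖ζ * η‖⁻¹ =
        ENNReal.ofReal ((‖ζ‖ ^ 2)⁻¹ * ‖ζ‖⁻¹) * ENNReal.ofReal (kr (-s) 1 η * ‖η‖⁻¹) := by
      intro η
      rw [← ENNReal.ofReal_mul (kr_nonneg _ _ _), ← ENNReal.ofReal_mul (by positivity),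
        kr_mul_left s hζ, norm_mul, mul_inv]
      congr 1
      ring
    simp_rw [this]
    rw [lintegral_const_mul' _ _ ENNReal.ofReal_ne_top, ← mul_assoc,
      ← ENNReal.ofReal_mul (by positivity)]
    have h3 : ‖ζ‖ ^ 2 * ((‖ζ‖ ^ 2)⁻¹ * ‖ζ‖⁻¹) = ‖ζ‖⁻¹ := by field_simp
    rw [h3, mul_comm]
    rfl
  · exact hψ

lemma integrableOn_trunc {φ : ℂ → ℂ} (hφ : Continuous φ) (hc : HasCompactSupport φ) {ε : ℝ}
    (hε : 0 < ε) (z : ℂ) :
    IntegrableOn (fun ζ => φ ζ / (z - ζ) ^ 2) {ζ : ℂ | ε < ‖z - ζ‖} := by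
  have hm1 : MeasurableSet {ζ : ℂ | ε < ‖z - ζ‖} :=
    measurableSet_lt measurable_const (by fun_prop)
  have h1 : Integrable (fun ζ => ‖φ ζ‖ * (ε ^ 2)⁻¹) :=
    ((hφ.integrable_of_hasCompactSupport hc).norm).mul_const _
  apply h1.integrableOn.mono'
  · apply Measurable.aestronglyMeasurable
    exact hφ.measurable.div (by fun_prop)
  · filter_upwards [ae_restrict_mem hm1] with ζ hζ
    have hζ' : ε < ‖z - ζ‖ := hζ
    rw [norm_div, norm_pow, div_eq_mul_inv]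
    gcongr

/-- comparison of `|z|^{-s} B φ` with `B (|z|^{-s} φ)` -/
lemma enorm_commutator_le (s : ℝ) {φ ψ : ℂ → ℂ} (hφ : ContDiff ℝ ∞ φ) (hφc : HasCompactSupport φ)
    (hψ : ContDiff ℝ ∞ ψ) (hψc : HasCompactSupport ψ)
    (h : ∀ ζ, φ ζ = ((‖ζ‖ ^ s : ℝ) : ℂ) * ψ ζ) (z : ℂ) :
    ‖((‖z‖ ^ (-s) : ℝ) : ℂ) * bt φ z - bt ψ z‖ₑ ≤
      ∫⁻ ζ, ENNReal.ofReal (kr s z ζ) * ‖ψ ζ‖ₑ := by
  have hφ1 : ContDiff ℝ 1 φ := hφ.of_le (by exact_mod_cast le_top)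
  have hψ1 : ContDiff ℝ 1 ψ := hψ.of_le (by exact_mod_cast le_top)
  have t1 := tendsto_truncBeurling hφ1 hφc z
  have t2 := tendsto_truncBeurling hψ1 hψc z
  have t3 := ((t1.const_mul (((‖z‖ ^ (-s) : ℝ) : ℂ))).sub t2).enorm
  apply le_of_tendsto t3
  filter_upwards [self_mem_nhdsWithin] with ε hε
  have hε' : 0 < ε := hε
  have hm1 : MeasurableSet {ζ : ℂ | ε < ‖z - ζ‖} :=
    measurableSet_lt measurable_const (by fun_prop)
  have e1 : ((‖z‖ ^ (-s) : ℝ) : ℂ) * truncBeurling φ ε z - truncBeurling ψ ε z =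
      -(1 / (Real.pi : ℂ)) * ∫ ζ in {ζ : ℂ | ε < ‖z - ζ‖},
        (((‖z‖ ^ (-s) : ℝ) : ℂ) * (φ ζ / (z - ζ) ^ 2) - ψ ζ / (z - ζ) ^ 2) := by
    rw [integral_sub ((integrableOn_trunc hφ.continuous hφc hε' z).const_mul _)
      (integrableOn_trunc hψ.continuous hψc hε' z), integral_const_mul]
    unfold truncBeurling
    ring
  rw [e1, ← integral_const_mul]
  refine (enorm_integral_le_lintegral_enorm _).trans ?_
  refine (lintegral_mono ?_).trans (setLIntegral_le_lintegral _ _)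
  intro ζ
  beta_reduce
  have e2 : -(1 / (Real.pi : ℂ)) * (((‖z‖ ^ (-s) : ℝ) : ℂ) * (φ ζ / (z - ζ) ^ 2) -
      ψ ζ / (z - ζ) ^ 2) = -(1 / (Real.pi : ℂ)) * (1 / (z - ζ) ^ 2) *
        (((‖ζ‖ ^ s * ‖z‖ ^ (-s) - 1 : ℝ)) : ℂ) * ψ ζ := by
    rw [h ζ]
    push_cast
    ring
  rw [e2, enorm_mul]
  gcongr
  rw [← ofReal_norm]
  apply ENNReal.ofReal_le_ofReal
  rw [norm_mul, norm_mul, norm_neg, norm_div, norm_one, Complex.norm_real,
    Real.norm_of_nonneg Real.pi_pos.le, norm_div, norm_one, norm_pow, Complex.norm_real,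
    Real.norm_eq_abs]
  unfold kr
  rw [one_div (‖z - ζ‖ ^ 2)]

/-- The constant in the weighted bound. -/
noncomputable def wc (s : ℝ) : ℝ≥0∞ := 2 * (1 + sc s * sc (-s))

lemma wc_lt_top {s : ℝ} (hs : |s| < 1) : wc s < ⊤ := by
  unfold wc sc
  have h1 := lintegral_kr_lt_top hs
  have h2 := lintegral_kr_lt_top (t := -s) (by simpa using hs)
  finiteness [h1.ne, h2.ne]

/-- weighted bound for test functions supported away from the origin -/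
lemma weighted_aux (s : ℝ) {φ : ℂ → ℂ} (hφ : ContDiff ℝ ∞ φ) (hφc : HasCompactSupport φ)
    (h0 : (0 : ℂ) ∉ tsupport φ) :
    ∫⁻ z, ‖((‖z‖ ^ (-s) : ℝ) : ℂ) * bt φ z‖ₑ ^ 2 ≤
      wc s * ∫⁻ z, ‖((‖z‖ ^ (-s) : ℝ) : ℂ) * φ z‖ₑ ^ 2 := by
  let ψ : ℂ → ℂ := fun z => ((‖z‖ ^ (-s) : ℝ) : ℂ) * φ z
  have hφ1 : ContDiff ℝ 1 φ := hφ.of_le (by exact_mod_cast le_top)
  have hψc : HasCompactSupport ψ := hφc.mul_left
  have hψ : ContDiff ℝ ∞ ψ := by
    rw [contDiff_iff_contDiffAt]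
    intro z
    by_cases hz : z = 0
    · subst hz
      have h1 : ψ =ᶠ[𝓝 0] fun _ => 0 := by
        have := (isClosed_tsupport φ).isOpen_compl.mem_nhds h0
        filter_upwards [this] with w hw
        simp only [ψ]
        rw [image_eq_zero_of_notMem_tsupport hw, mul_zero]
      exact contDiffAt_const.congr_of_eventuallyEq h1
    · apply ContDiffAt.mul
      · apply ofRealCLM.contDiff.contDiffAt.comp
        apply ContDiffAt.rpow_const_of_ne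
        · exact contDiffAt_norm ℝ hz
        · simpa using hz
      · exact hφ.contDiffAt
  have hrel : ∀ ζ, φ ζ = ((‖ζ‖ ^ s : ℝ) : ℂ) * ψ ζ := by
    intro ζ
    by_cases hζ : ζ = 0
    · subst hζ
      have h1 : φ 0 = 0 := image_eq_zero_of_notMem_tsupport h0
      simp only [ψ]
      rw [h1, mul_zero, mul_zero]
    · have hn : 0 < ‖ζ‖ := by simpa using hζ
      simp only [ψ]
      rw [← mul_assoc, ← ofReal_mul, ← Real.rpow_add hn]
      simp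
  have hψ1 : ContDiff ℝ 1 ψ := hψ.of_le (by exact_mod_cast le_top)
  have hJm : Measurable fun z => ∫⁻ ζ, ENNReal.ofReal (kr s z ζ) * ‖ψ ζ‖ₑ := by
    apply Measurable.lintegral_prod_right'
      (f := fun p : ℂ × ℂ => ENNReal.ofReal (kr s p.1 p.2) * ‖ψ p.2‖ₑ)
    exact (measurable_kr s).ennreal_ofReal.mul
      ((hψ.continuous.measurable.enorm).comp measurable_snd)
  have hbm : Continuous (bt ψ) := by
    have : bt ψ = dz (cau ψ) := by
      funext z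
      exact (dz_cau hψ1 hψc z).symm
    rw [this]
    exact continuous_dz (contDiff_cau (n := 1) (by exact_mod_cast hψ1) hψc)
  calc ∫⁻ z, ‖((‖z‖ ^ (-s) : ℝ) : ℂ) * bt φ z‖ₑ ^ 2 ≤
      ∫⁻ z, 2 * (‖bt ψ z‖ₑ ^ 2 + (∫⁻ ζ, ENNReal.ofReal (kr s z ζ) * ‖ψ ζ‖ₑ) ^ 2) := by
        apply lintegral_mono
        intro z
        beta_reduce
        refine le_trans ?_ (ennreal_add_sq_le _ _)
        gcongr
        calc ‖((‖z‖ ^ (-s) : ℝ) : ℂ) * bt φ z‖ₑ =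
            ‖bt ψ z + (((‖z‖ ^ (-s) : ℝ) : ℂ) * bt φ z - bt ψ z)‖ₑ := by
              congr 1
              ring
          _ ≤ ‖bt ψ z‖ₑ + ‖((‖z‖ ^ (-s) : ℝ) : ℂ) * bt φ z - bt ψ z‖ₑ := enorm_add_le _ _
          _ ≤ _ := by
            gcongr
            exact enorm_commutator_le s hφ hφc hψ hψc hrel z
    _ = 2 * ((∫⁻ z, ‖bt ψ z‖ₑ ^ 2) +
        ∫⁻ z, (∫⁻ ζ, ENNReal.ofReal (kr s z ζ) * ‖ψ ζ‖ₑ) ^ 2) := by
        rw [lintegral_const_mul' _ _ (by norm_num), lintegral_add_left]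
        exact hbm.measurable.enorm.pow_const 2
    _ ≤ 2 * ((∫⁻ z, ‖ψ z‖ₑ ^ 2) + sc s * sc (-s) * ∫⁻ z, ‖ψ z‖ₑ ^ 2) := by
        gcongr 2 * (?_ + ?_)
        · exact lintegral_bt_le hψ hψc
        · exact schur_kr s hψ.continuous.measurable.enorm
    _ = wc s * ∫⁻ z, ‖ψ z‖ₑ ^ 2 := by
        unfold wc
        ring

end Pool.Agent.Lib.MP_c984ee_an
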