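import Pool.Agent.Lib.MP_c984ee_an.Weighted

open MeasureTheory Filter Topology Complex Set
open scoped ENNReal NNReal ContDiff ComplexConjugate

namespace Pool.Agent.Lib.MP_c984ee_an

lemma bt_add {f g : ℂ → ℂ} (hf : ContDiff ℝ 1 f) (hfc : HasCompactSupport f)
    (hg : ContDiff ℝ 1 g) (hgc : HasCompactSupport g) (z : ℂ) :
    bt (fun z => f z + g z) z = bt f z + bt g z := by
  have h1 := tendsto_truncBeurling hf hfc z
  have h2 := tendsto_truncBeurling hg hgc z
  have h3 := tendsto_truncBeurling (hf.add hg) (hfc.add hgc) z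
  refine tendsto_nhds_unique h3 ((h1.add h2).congr' ?_)
  filter_upwards [self_mem_nhdsWithin] with ε hε
  unfold truncBeurling
  rw [← mul_add, ← integral_add (integrableOn_trunc hf.continuous hfc hε z)
      (integrableOn_trunc hg.continuous hgc hε z)]
  congr 2
  funext ζ
  ring

lemma bt_smul {f : ℂ → ℂ} (hf : ContDiff ℝ 1 f) (hfc : HasCompactSupport f) (c z : ℂ) :
    bt (fun z => c * f z) z = c * bt f z := by
  have h1 := tendsto_truncBeurling hf hfc z
  have h3 := tendsto_truncBeurling (contDiff_const.mul hf (f := fun _ => c))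
    (hfc.mul_left (f := fun _ => c)) z
  refine tendsto_nhds_unique h3 ((h1.const_mul c).congr' ?_)
  filter_upwards [self_mem_nhdsWithin] with ε hε
  unfold truncBeurling
  rw [mul_left_comm, ← integral_const_mul]
  congr 2
  funext ζ
  ring

lemma norm_bt_le_of_support {g : ℂ → ℂ} (hg : ContDiff ℝ 1 g) (hgc : HasCompactSupport g)
    {z : ℂ} (hz : z ≠ 0) (hsupp : ∀ ζ, ‖z‖ / 2 ≤ ‖ζ‖ → g ζ = 0) :
    ‖bt g z‖ ≤ 4 / ‖z‖ ^ 2 * ∫ ζ, ‖g ζ‖ := by
  have hz0 : 0 < ‖z‖ := by simpa using hz
  have h1 := (tendsto_truncBeurling hg hgc z).norm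
  apply le_of_tendsto h1
  filter_upwards with ε
  unfold truncBeurling
  have hpi : 1 / Real.pi ≤ 1 := by
    rw [div_le_one Real.pi_pos]
    linarith [Real.pi_gt_three]
  rw [norm_mul, norm_neg, norm_div, norm_one, Complex.norm_real,
    Real.norm_of_nonneg Real.pi_pos.le]
  have hi : Integrable (fun ζ => 4 / ‖z‖ ^ 2 * ‖g ζ‖) :=
    ((hg.continuous.integrable_of_hasCompactSupport hgc).norm).const_mul _
  calc 1 / Real.pi * ‖∫ ζ in {ζ : ℂ | ε < ‖z - ζ‖}, g ζ / (z - ζ) ^ 2‖ ≤
      1 * ‖∫ ζ in {ζ : ℂ | ε < ‖z - ζ‖}, g ζ / (z - ζ) ^ 2‖ := by gcongr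
    _ = ‖∫ ζ in {ζ : ℂ | ε < ‖z - ζ‖}, g ζ / (z - ζ) ^ 2‖ := one_mul _
    _ ≤ ∫ ζ in {ζ : ℂ | ε < ‖z - ζ‖}, ‖g ζ / (z - ζ) ^ 2‖ := norm_integral_le_integral_norm _
    _ ≤ ∫ ζ in {ζ : ℂ | ε < ‖z - ζ‖}, 4 / ‖z‖ ^ 2 * ‖g ζ‖ := by
      apply integral_mono_of_nonneg
      · filter_upwards with ζ
        positivity
      · exact hi.integrableOn
      · filter_upwards with ζ
        by_cases h : ‖z‖ / 2 ≤ ‖ζ‖
        · rw [hsupp ζ h]; simp
        · push Not at h
          have h2 : ‖z‖ ≤ ‖z - ζ‖ + ‖ζ‖ := by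
            calc ‖z‖ = ‖(z - ζ) + ζ‖ := by ring_nf
              _ ≤ _ := norm_add_le _ _
          have h3 : ‖z‖ / 2 ≤ ‖z - ζ‖ := by linarith
          have h5 : 0 < ‖z - ζ‖ := by linarith
          have h4 : (‖z - ζ‖ ^ 2)⁻¹ ≤ 4 / ‖z‖ ^ 2 := by
            rw [inv_le_comm₀ (by positivity) (by positivity), inv_div]
            nlinarith
          rw [norm_div, norm_pow, div_eq_mul_inv, mul_comm]
          exact mul_le_mul_of_nonneg_right h4 (norm_nonneg _)
    _ ≤ ∫ ζ, 4 / ‖z‖ ^ 2 * ‖g ζ‖ := by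
      apply setIntegral_le_integral hi
      filter_upwards with ζ
      positivity
    _ = 4 / ‖z‖ ^ 2 * ∫ ζ, ‖g ζ‖ := integral_const_mul _ _

lemma norm_one_sub_chi_le (z : ℂ) : ‖1 - chi z‖ ≤ 1 := by
  unfold chi
  have h1 : (1 : ℂ) - (bump z : ℂ) = ((1 - bump z : ℝ) : ℂ) := by push_cast; ring
  rw [h1, Complex.norm_real, Real.norm_of_nonneg (sub_nonneg.mpr bump.le_one)]
  linarith [bump.nonneg (x := z)]

/-- Weighted `L^2` bound with weight `|z|^{-2s}`, for all test functions. -/
theorem weighted_bound {s : ℝ} {φ : ℂ → ℂ} (hφ : ContDiff ℝ ∞ φ) (hφc : HasCompactSupport φ) :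
    ∫⁻ z, ‖((‖z‖ ^ (-s) : ℝ) : ℂ) * bt φ z‖ₑ ^ 2 ≤
      wc s * ∫⁻ z, ‖((‖z‖ ^ (-s) : ℝ) : ℂ) * φ z‖ₑ ^ 2 := by
  have hφ1 : ContDiff ℝ 1 φ := hφ.of_le (by exact_mod_cast le_top)
  obtain ⟨M, hM⟩ := hφ.continuous.bounded_above_of_compact_support hφc
  have hM0 : 0 ≤ M := (norm_nonneg _).trans (hM 0)
  let N : ℕ → ℝ := fun n => (n : ℝ) + 1
  have hN : ∀ n, 0 < N n := fun n => by positivity
  let e : ℕ → ℂ → ℂ := fun n z => chin (N n) z * φ z
  let φn : ℕ → ℂ → ℂ := fun n z => φ z + (-1) * e n z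
  have hecd : ∀ n, ContDiff ℝ ∞ (e n) := fun n => (contDiff_chin (N n)).mul hφ
  have hec : ∀ n, HasCompactSupport (e n) := fun n => hφc.mul_left
  have hecd1 : ∀ n, ContDiff ℝ 1 (e n) := fun n => (hecd n).of_le (by exact_mod_cast le_top)
  have hφncd : ∀ n, ContDiff ℝ ∞ (φn n) := fun n => hφ.add (contDiff_const.mul (hecd n))
  have hφnc : ∀ n, HasCompactSupport (φn n) := fun n => hφc.add (hec n).mul_left
  have hfac : ∀ n z, φn n z = (1 - chin (N n) z) * φ z := by
    intro n z
    simp only [φn, e]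
    ring
  have h0 : ∀ n, (0 : ℂ) ∉ tsupport (φn n) := by
    intro n
    rw [notMem_tsupport_iff_eventuallyEq]
    have h1 := eventually_chin_eq_one (r := N n) (z := 0) (by simp) (hN n).le
    filter_upwards [h1] with w hw
    rw [hfac, hw]
    simp
  have hle : ∀ n z, ‖φn n z‖ ≤ ‖φ z‖ := by
    intro n z
    rw [hfac, norm_mul]
    apply mul_le_of_le_one_left (norm_nonneg _)
    exact norm_one_sub_chi_le _
  have hNt : Tendsto N atTop atTop :=
    tendsto_atTop_add_const_right _ _ tendsto_natCast_atTop_atTop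
  have hint : ∀ n, ∫ ζ, ‖e n ζ‖ ≤ 4 * Real.pi * M * ((N n) ^ 2)⁻¹ := by
    intro n
    have h1 : ∀ ζ, ‖e n ζ‖ ≤ (Metric.closedBall (0 : ℂ) (2 / N n)).indicator (fun _ => M) ζ := by
      intro ζ
      by_cases h : ζ ∈ Metric.closedBall (0 : ℂ) (2 / N n)
      · rw [indicator_of_mem h]
        simp only [e]
        rw [norm_mul]
        calc ‖chin (N n) ζ‖ * ‖φ ζ‖ ≤ 1 * M := by
              gcongr
              · exact norm_chi_le _
              · exact hM ζ
          _ = M := one_mul _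
      · rw [indicator_of_notMem h]
        simp only [e]
        have h2 : chin (N n) ζ = 0 := by
          apply chi_eq_zero
          rw [norm_smul, Real.norm_of_nonneg (hN n).le]
          rw [mem_closedBall_zero_iff, not_le, div_lt_iff₀ (hN n)] at h
          linarith
        rw [h2]
        simp
    calc ∫ ζ, ‖e n ζ‖ ≤ ∫ ζ, (Metric.closedBall (0 : ℂ) (2 / N n)).indicator (fun _ => M) ζ := by
          apply integral_mono_of_nonneg
          · filter_upwards with ζ
            positivity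
          · rw [integrable_indicator_iff Metric.isClosed_closedBall.measurableSet]
            apply integrableOn_const
            · rw [Complex.volume_closedBall]; finiteness
            · finiteness
          · filter_upwards with ζ
            exact h1 ζ
      _ = 4 * Real.pi * M * ((N n) ^ 2)⁻¹ := by
          rw [integral_indicator_const _ Metric.isClosed_closedBall.measurableSet,
            measureReal_def, Complex.volume_closedBall, smul_eq_mul, ENNReal.toReal_mul,
            ENNReal.toReal_pow, ENNReal.toReal_ofReal (by positivity)]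
          simp only [ENNReal.coe_toReal, NNReal.coe_real_pi]
          have := (hN n).ne'
          field_simp
          ring
  have hpt : ∀ z, z ≠ 0 → Tendsto (fun n => bt (φn n) z) atTop (𝓝 (bt φ z)) := by
    intro z hz
    have hz0 : 0 < ‖z‖ := by simpa using hz
    have h1 : ∀ n, bt (φn n) z = bt φ z + (-1) * bt (e n) z := by
      intro n
      have := bt_add hφ1 hφc (g := fun z => (-1) * e n z) (contDiff_const.mul (hecd1 n))
        (hec n).mul_left z
      rw [bt_smul (hecd1 n) (hec n)] at this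
      exact this
    have h2 : Tendsto (fun n => bt (e n) z) atTop (𝓝 0) := by
      rw [tendsto_zero_iff_norm_tendsto_zero]
      have h3 : Tendsto (fun n => 4 / ‖z‖ ^ 2 * (4 * Real.pi * M * ((N n) ^ 2)⁻¹)) atTop (𝓝 0) := by
        have h4 : Tendsto (fun n => ((N n) ^ 2)⁻¹) atTop (𝓝 0) :=
          ((tendsto_pow_atTop (by norm_num)).comp hNt).inv_tendsto_atTop
        have := (h4.const_mul (4 * Real.pi * M)).const_mul (4 / ‖z‖ ^ 2)
        simpa using this
      apply squeeze_zero' _ _ h3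
      · filter_upwards with n
        positivity
      · filter_upwards [hNt.eventually_ge_atTop (4 / ‖z‖)] with n hn
        refine (norm_bt_le_of_support (hecd1 n) (hec n) hz ?_).trans ?_
        · intro ζ hζ
          simp only [e]
          have h2 : chin (N n) ζ = 0 := by
            apply chi_eq_zero
            rw [norm_smul, Real.norm_of_nonneg (hN n).le]
            rw [div_le_iff₀ hz0] at hn
            nlinarith [hN n]
          rw [h2, zero_mul]
        · gcongr
          exact hint n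
    have h5 := (h2.const_mul (-1)).const_add (bt φ z)
    simp only [mul_zero, add_zero] at h5
    refine h5.congr ?_
    intro n
    rw [h1]
  have hcont : ∀ n, Continuous (bt (φn n)) := by
    intro n
    have hn1 : ContDiff ℝ 1 (φn n) := (hφncd n).of_le (by exact_mod_cast le_top)
    have : bt (φn n) = dz (cau (φn n)) := by
      funext z
      exact (dz_cau hn1 (hφnc n) z).symm
    rw [this]
    exact continuous_dz (contDiff_cau (n := 1) (by exact_mod_cast hn1) (hφnc n))
  calc ∫⁻ z, ‖((‖z‖ ^ (-s) : ℝ) : ℂ) * bt φ z‖ₑ ^ 2 =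
      ∫⁻ z, liminf (fun n => ‖((‖z‖ ^ (-s) : ℝ) : ℂ) * bt (φn n) z‖ₑ ^ 2) atTop := by
        apply lintegral_congr_ae
        filter_upwards [ae_ne_zero] with z hz
        symm
        apply Tendsto.liminf_eq
        have h1 := ((hpt z hz).const_mul (((‖z‖ ^ (-s) : ℝ) : ℂ))).enorm
        exact ((ENNReal.continuous_pow 2).tendsto _).comp h1
    _ ≤ liminf (fun n => ∫⁻ z, ‖((‖z‖ ^ (-s) : ℝ) : ℂ) * bt (φn n) z‖ₑ ^ 2) atTop := by
        apply lintegral_liminf_le
        intro n
        apply Measurable.pow_const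
        apply Measurable.enorm
        apply Measurable.mul
        · fun_prop
        · exact (hcont n).measurable
    _ ≤ liminf (fun _ : ℕ => wc s * ∫⁻ z, ‖((‖z‖ ^ (-s) : ℝ) : ℂ) * φ z‖ₑ ^ 2) atTop := by
        refine liminf_le_liminf (Eventually.of_forall fun n => ?_)
        refine (weighted_aux s (hφncd n) (hφnc n) (h0 n)).trans ?_
        refine mul_le_mul' le_rfl (lintegral_mono fun z => ?_)
        rw [enorm_mul, enorm_mul]
        refine pow_le_pow_left' (mul_le_mul' le_rfl ?_) 2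
        rw [← ofReal_norm, ← ofReal_norm]
        exact ENNReal.ofReal_le_ofReal (hle n z)
    _ = _ := liminf_const _

end Pool.Agent.Lib.MP_c984ee_an
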